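import Pool.Agent.Lib.MP_944cb0_gt.Hyp

/-!
# From groups to hyperbolic spaces with levels (module Group of MP_944cb0_gt)
-/

set_option autoImplicit false

namespace Pool.Agent.Lib.MP_944cb0_gt

open CE

section Par

variable {G : Type*} [Group G] {α : Type*}

theorem wlen_eq_zero {ι : α → G} (hs : Function.Surjective (FreeGroup.lift ι)) {x : G}
    (h : wlen (Set.range ι) x = 0) : x = 1 := by
  obtain ⟨L, h1, h2⟩ := exists_word hs x
  rw [h] at h1
  rw [← h2, List.length_eq_zero_iff.mp h1, wprod_nil]

theorem exists_par {ι : α → G} (hs : Function.Surjective (FreeGroup.lift ι)) (x : G) :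
    ∃ y : G, wlen (Set.range ι) x ≠ 0 →
      wlen (Set.range ι) y + 1 = wlen (Set.range ι) x ∧ wdist (Set.range ι) x y = 1 := by
  by_cases h0 : wlen (Set.range ι) x = 0
  · exact ⟨1, fun h => absurd h0 h⟩
  obtain ⟨L, h1, h2⟩ := exists_word hs x
  have hL : L ≠ [] := by
    rintro rfl
    exact h0 (by simpa using h1.symm)
  refine ⟨wprod ι L.dropLast, fun _ => ?_⟩
  have h3 : wprod ι L.dropLast * wprod ι [L.getLast hL] = x := by
    rw [← wprod_append, List.dropLast_append_getLast, h2]
  have h4 := wlen_wprod_le ι L.dropLast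
  rw [List.length_dropLast, h1] at h4
  have h5 : wdist (Set.range ι) x (wprod ι L.dropLast) ≤ 1 := by
    rw [wdist_comm hs, ← h3]
    have := wdist_mul_right_le ι (wprod ι L.dropLast) [L.getLast hL]
    simpa using this
  have h6 := wlen_le_add hs (wprod ι L.dropLast) x
  rw [wdist_comm hs] at h6
  omega

end Par

theorem exists_HS {G : Type*} [Group G] {α : Type*} [Finite α] [DecidableEq α]
    (ι : α → G) (rels : Set (FreeGroup α)) (hfin : rels.Finite) (hpres : Presents ι rels)
    (hinj : Function.Injective (boundary₂ ι rels)) (hyp : WordHyperbolic (Set.range ι)) :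
    ∃ H : HS G, H.d = wdist (Set.range ι) ∧ H.CircleExt := by
  have hs := hpres.1
  obtain ⟨δ, hδ⟩ := hyp
  choose par hpar using fun x => exists_par hs x
  let H : HS G :=
    { d := wdist (Set.range ι)
      o := 1
      len := wlen (Set.range ι)
      par := par
      δ := δ
      d_self := wdist_self ι
      d_comm := wdist_comm hs
      d_tri := wdist_tri hs
      len_eq := fun x => by simp [wdist]
      par_len := fun x hx => (hpar x hx).1
      par_dist := fun x hx => (hpar x hx).2
      four := hδ
      ball := fun r => by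
        have hb := ball_finite hs r
        refine ⟨{u : G | wlen (Set.range ι) u ≤ r}.ncard, fun x => ?_⟩
        have he : {y | wdist (Set.range ι) x y ≤ r} =
            (fun u => x * u) '' {u : G | wlen (Set.range ι) u ≤ r} := by
          ext y
          constructor
          · intro hy
            exact ⟨x⁻¹ * y, hy, by simp⟩
          · rintro ⟨u, hu, rfl⟩
            show wdist (Set.range ι) x (x * u) ≤ r
            rw [wdist, inv_mul_cancel_left]
            exact hu
        rw [he]
        exact ⟨hb.image _, Set.ncard_image_le hb⟩ }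
  refine ⟨H, rfl, fun ρ => ?_⟩
  refine circle_extension ι rels hfin hpres hinj par ?_ (2 * δ) ?_ ρ
  · intro x hx
    exact hpar x fun h => hx (wlen_eq_zero hs h)
  · intro x y k hx hy
    have h := H.ladder (k := k) (x := x) (y := y) hx hy
    exact h.trans (Nat.add_le_add_right (Nat.sub_le _ _) _)

theorem lift_val_surjective {Γ : Type*} [Group Γ] (T : Set Γ) (hgen : Subgroup.closure T = ⊤) :
    Function.Surjective (FreeGroup.lift (Subtype.val : T → Γ)) := by
  rw [← MonoidHom.range_eq_top, FreeGroup.range_lift_eq_closure, Subtype.range_coe]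
  exact hgen

theorem subgroup_compare {G : Type*} [Group G] {α : Type*} [Finite α] {ι : α → G}
    (hs : Function.Surjective (FreeGroup.lift ι)) (S : Subgroup G) (T : Set S) (hT : T.Finite)
    (hgen : Subgroup.closure T = ⊤) :
    (∀ R : ℕ, ∃ R' : ℕ, ∀ x y : S, wdist T x y ≤ R → wdist (Set.range ι) (x : G) (y : G) ≤ R') ∧
    (∀ R : ℕ, ∃ R' : ℕ, ∀ x y : S, wdist (Set.range ι) (x : G) (y : G) ≤ R → wdist T x y ≤ R') := by
  constructor
  · intro R
    have : Finite T := hT
    have hb := ball_finite (lift_val_surjective T hgen) R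
    rw [Subtype.range_coe] at hb
    obtain ⟨R', hR'⟩ := (hb.image (fun u : S => wlen (Set.range ι) (u : G))).bddAbove
    refine ⟨R', fun x y hxy => ?_⟩
    have h := hR' ⟨x⁻¹ * y, hxy, rfl⟩
    simpa [wdist] using h
  · intro R
    have hb := ball_finite hs R
    have hb' : {u : S | wlen (Set.range ι) (u : G) ≤ R}.Finite :=
      hb.preimage (Subtype.val_injective.injOn)
    obtain ⟨R', hR'⟩ := (hb'.image (fun u : S => wlen T u)).bddAbove
    refine ⟨R', fun x y hxy => ?_⟩
    exact hR' ⟨x⁻¹ * y, by simpa [wdist] using hxy, rfl⟩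

end Pool.Agent.Lib.MP_944cb0_gt
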