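import Pool.Agent.Lib.MP_944cb0_gt.Tower

/-!
# Universal covers of tower complexes (module UC of MP_944cb0_gt)

The group `QQ K` is generated by all pairs of vertices, with the triangle relations of `K`;
every 1-cocycle of the covering complex is a coboundary, and the covering complex of a tower
complex has the local structure `GoodAt` everywhere.
-/

set_option autoImplicit false

namespace Pool.Agent.Lib.MP_944cb0_gt

universe u

namespace UC

theorem insert_inst {W : Type*} (i1 i2 : DecidableEq W) (a : W) (s : Finset W) :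
    @insert _ _ (@Finset.instInsert _ i1) a s = @insert _ _ (@Finset.instInsert _ i2) a s := by
  ext z; simp only [Finset.mem_insert]


section Grp

variable {V : Type u}

/-- the triangle relations -/
def rl (K : Set (Finset V)) : Set (FreeGroup (V × V)) :=
  {r | ∃ s ∈ K, ∃ a ∈ s, ∃ b ∈ s, ∃ c ∈ s,
    r = FreeGroup.of (a, b) * FreeGroup.of (b, c) * (FreeGroup.of (a, c))⁻¹}

/-- the group of the complex -/
abbrev QQ (K : Set (Finset V)) : Type u := PresentedGroup (rl K)

/-- the generators -/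
def ee (K : Set (Finset V)) (a b : V) : QQ K := PresentedGroup.of (a, b)

theorem ee_mul {K : Set (Finset V)} {s : Finset V} (hs : s ∈ K) {a b c : V} (ha : a ∈ s)
    (hb : b ∈ s) (hc : c ∈ s) : ee K a b * ee K b c = ee K a c := by
  have h := PresentedGroup.one_of_mem (rels := rl K)
    (x := FreeGroup.of (a, b) * FreeGroup.of (b, c) * (FreeGroup.of (a, c))⁻¹)
    ⟨s, hs, a, ha, b, hb, c, hc, rfl⟩
  rw [map_mul, map_mul, map_inv, mul_inv_eq_one] at h
  exact h

theorem ee_self {K : Set (Finset V)} {s : Finset V} (hs : s ∈ K) {a : V} (ha : a ∈ s) :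
    ee K a a = 1 := by
  have h := ee_mul hs ha ha ha
  exact mul_eq_left.mp h

/-- the permutation of `Q × ℤ` given by a generator -/
def sg (K : Set (Finset V)) (m : V → V → QQ K → ℤ) (a b : V) : Equiv.Perm (QQ K × ℤ) where
  toFun q := (q.1 * ee K a b, q.2 + m a b q.1)
  invFun q := (q.1 * (ee K a b)⁻¹, q.2 - m a b (q.1 * (ee K a b)⁻¹))
  left_inv q := by simp
  right_inv q := by simp

theorem exists_pot (K : Set (Finset V)) (m : V → V → QQ K → ℤ)
    (hm : ∀ s ∈ K, ∀ a ∈ s, ∀ b ∈ s, ∀ c ∈ s, ∀ g, m a b g + m b c (g * ee K a b) = m a c g) :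
    ∃ F : QQ K → ℤ, ∀ a b g, F (g * ee K a b) = F g + m a b g := by
  have hrel : ∀ r ∈ rl K, FreeGroup.lift
      (fun p : V × V => (MulOpposite.op (sg K m p.1 p.2) : (Equiv.Perm (QQ K × ℤ))ᵐᵒᵖ)) r = 1 := by
    rintro r ⟨s, hs, a, ha, b, hb, c, hc, rfl⟩
    rw [map_mul, map_mul, map_inv, FreeGroup.lift_apply_of, FreeGroup.lift_apply_of,
      FreeGroup.lift_apply_of, mul_inv_eq_one]
    rw [← MulOpposite.op_mul]
    congr 1
    ext1 q
    rw [Equiv.Perm.mul_apply]
    simp only [sg, Equiv.coe_fn_mk]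
    rw [mul_assoc, ee_mul hs ha hb hc, add_assoc, hm s hs a ha b hb c hc]
  let Φ : QQ K →* (Equiv.Perm (QQ K × ℤ))ᵐᵒᵖ := PresentedGroup.toGroup hrel
  have hΦ : ∀ a b, Φ (ee K a b) = MulOpposite.op (sg K m a b) := by
    intro a b
    exact PresentedGroup.toGroup.of hrel
  -- first coordinate
  have hfst : ∀ q : QQ K, ∀ g k, ((Φ q).unop (g, k)).1 = g * q := by
    let H : Subgroup (QQ K) :=
      { carrier := {q | ∀ g k, ((Φ q).unop (g, k)).1 = g * q}
        one_mem' := by intro g k; simp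
        mul_mem' := by
          intro q r hq hr g k
          rw [map_mul, MulOpposite.unop_mul, Equiv.Perm.mul_apply]
          have h1 := hr ((Φ q).unop (g, k)).1 ((Φ q).unop (g, k)).2
          rw [Prod.mk.eta, hq] at h1
          rw [h1, mul_assoc]
        inv_mem' := by
          intro q hq g k
          have h1 := hq ((Φ q⁻¹).unop (g, k)).1 ((Φ q⁻¹).unop (g, k)).2
          rw [Prod.mk.eta] at h1
          have h2 : (Φ q).unop ((Φ q⁻¹).unop (g, k)) = (g, k) := by
            rw [← Equiv.Perm.mul_apply, ← MulOpposite.unop_mul, ← map_mul, inv_mul_cancel]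
            simp
          rw [h2] at h1
          exact eq_mul_inv_of_mul_eq h1.symm }
    intro q
    exact PresentedGroup.generated_by (rl K) H (by
      rintro ⟨a, b⟩ g k
      have := hΦ a b
      rw [ee] at this
      rw [this]
      simp [sg, ee]) q
  refine ⟨fun q => ((Φ q).unop (1, 0)).2, fun a b g => ?_⟩
  simp only
  rw [map_mul, MulOpposite.unop_mul, Equiv.Perm.mul_apply, hΦ]
  have h1 : ((Φ g).unop (1, 0)).1 = g := by rw [hfst]; simp
  simp only [sg, MulOpposite.unop_op, Equiv.coe_fn_mk, h1]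

end Grp

section Cover

variable {V : Type u} {Q : Type u} [Group Q]

open Classical in
theorem cover_down {K : Set (Finset V)} {e : V → V → Q}
    (hK : ∀ s ∈ K, ∀ t ⊆ s, t.Nonempty → t ∈ K) :
    ∀ s ∈ coverCplx K e, ∀ t ⊆ s, t.Nonempty → t ∈ coverCplx K e := by
  rintro s ⟨_, h1, h2⟩ t ht htn
  exact ⟨htn, hK _ h1 _ (Finset.image_subset_image ht) (htn.image _),
    fun x hx y hy => h2 x (ht hx) y (ht hy)⟩

open Classical in
/-- adding a lift of a vertex to a simplex of the cover -/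
theorem insert_cover {K : Set (Finset V)} {e : V → V → Q}
    (he : ∀ s ∈ K, ∀ a ∈ s, ∀ b ∈ s, ∀ c ∈ s, e a b * e b c = e a c)
    {s : Finset (V × Q)} (hs : s ∈ coverCplx K e) {x : V × Q} (hx : x ∈ s) {b : V}
    (hb : insert b (s.image Prod.fst) ∈ K) : insert (b, x.2 * e x.1 b) s ∈ coverCplx K e := by
  obtain ⟨h0, h1, h2⟩ := hs
  have hmem : ∀ y ∈ s, y.1 ∈ insert b (s.image Prod.fst) := fun y hy =>
    Finset.mem_insert_of_mem (Finset.mem_image_of_mem _ hy)
  have hbm : b ∈ insert b (s.image Prod.fst) := Finset.mem_insert_self _ _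
  refine ⟨Finset.insert_nonempty _ _, by rwa [Finset.image_insert], ?_⟩
  intro y hy z hz
  rw [Finset.mem_insert] at hy hz
  rcases hy with rfl | hy
  · rcases hz with rfl | hz
    · simp only
      rw [mul_assoc, he _ hb _ (hmem x hx) _ hbm _ hbm]
    · simp only
      rw [mul_assoc, he _ hb _ (hmem x hx) _ hbm _ (hmem z hz)]
      exact h2 x hx z hz
  · rcases hz with rfl | hz
    · simp only
      rw [h2 x hx y hy, mul_assoc, he _ hb _ (hmem x hx) _ (hmem y hy) _ hbm]
    · exact h2 y hy z hz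

open Classical in
theorem cover_inj {K : Set (Finset V)} {e : V → V → Q}
    (he : ∀ s ∈ K, ∀ a ∈ s, ∀ b ∈ s, ∀ c ∈ s, e a b * e b c = e a c)
    {s : Finset (V × Q)} (hs : s ∈ coverCplx K e) {x y : V × Q} (hx : x ∈ s) (hy : y ∈ s)
    (hxy : x.1 = y.1) : x = y := by
  have h := hs.2.2 x hx y hy
  have hxm : x.1 ∈ s.image Prod.fst := Finset.mem_image_of_mem _ hx
  have h1 : e x.1 x.1 = 1 := mul_eq_left.mp (he _ hs.2.1 _ hxm _ hxm _ hxm)
  rw [← hxy, h1, mul_one] at h
  exact Prod.ext hxy h.symm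

end Cover

section TowerLemmas

variable {V : Type u} (T : Tower V) {A : Set V}

theorem normal_form (hA : ∀ v ∈ A, T.ℓ v ≠ 0) {t : Finset V} (ht : t ∈ T.cplx A) :
    ∃ v w, T.ℓ v ≠ 0 ∧ (v = w ∨ T.Adj v w) ∧ ∀ x ∈ t, T.Mem4 v w x := by
  obtain ⟨⟨y, hy⟩, hAt, v, w, hvw, h⟩ := ht
  by_cases h0 : T.ℓ v = 0
  · have h0w : T.ℓ w = 0 := by
      rcases hvw with rfl | hvw
      · exact h0
      · rw [← T.level_adj v w hvw, h0]
    have hp : T.p v = T.p w ∨ T.Adj (T.p v) (T.p w) := by
      rcases hvw with rfl | hvw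
      · exact Or.inl rfl
      · exact T.p_adj v w hvw
    have h1 : ∀ x ∈ t, x = T.p v ∨ x = T.p w := by
      intro x hx
      rcases h x hx with rfl | rfl | h2 | h2
      · exact absurd h0 (hA _ (hAt _ hx))
      · exact absurd h0w (hA _ (hAt _ hx))
      · exact Or.inl h2
      · exact Or.inr h2
    have hl : T.ℓ (T.p v) = T.ℓ (T.p w) := by
      rcases hp with hp | hp
      · rw [hp]
      · exact T.level_adj _ _ hp
    refine ⟨T.p v, T.p w, ?_, hp, fun x hx => ?_⟩
    · have hy0 := hA _ (hAt _ hy)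
      rcases h1 y hy with rfl | rfl
      · exact hy0
      · rwa [hl]
    · rcases h1 x hx with rfl | rfl
      · exact Or.inl rfl
      · exact Or.inr (Or.inl rfl)
  · exact ⟨v, w, h0, hvw, h⟩

theorem mem4_swap {v w x : V} (h : T.Mem4 v w x) : T.Mem4 w v x := by
  rcases h with h | h | h | h
  · exact Or.inr (Or.inl h)
  · exact Or.inl h
  · exact Or.inr (Or.inr (Or.inr h))
  · exact Or.inr (Or.inr (Or.inl h))

theorem top_form (hA : ∀ v ∈ A, T.ℓ v ≠ 0) {t : Finset V} (ht : t ∈ T.cplx A) {v : V}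
    (hv : v ∈ t) (hmax : ∀ x ∈ t, T.ℓ x ≤ T.ℓ v) :
    ∃ w, (v = w ∨ T.Adj v w) ∧ ∀ x ∈ t, T.Mem4 v w x := by
  obtain ⟨v', w', h0, hvw, h⟩ := normal_form T hA ht
  have h0w : T.ℓ v' = T.ℓ w' := by
    rcases hvw with rfl | hvw
    · rfl
    · exact T.level_adj _ _ hvw
  have hsymm : v' = w' ∨ T.Adj w' v' := by
    rcases hvw with h | h
    · exact Or.inl h
    · exact Or.inr (T.symm _ _ h)
  have hp : T.p v' = T.p w' ∨ T.Adj (T.p v') (T.p w') := by
    rcases hvw with rfl | hvw
    · exact Or.inl rfl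
    · exact T.p_adj _ _ hvw
  have hlv := T.level_p v' h0
  have hlw := T.level_p w' (by rwa [← h0w])
  -- if `v` is one of the parents then the tops are not in `t`
  have key : T.ℓ v + 1 = T.ℓ v' → ∀ x ∈ t, x = T.p v' ∨ x = T.p w' := by
    intro hl x hx
    have hx1 := hmax x hx
    rcases h x hx with rfl | rfl | h2 | h2
    · omega
    · omega
    · exact Or.inl h2
    · exact Or.inr h2
  rcases h v hv with rfl | rfl | rfl | rfl
  · exact ⟨w', hvw, h⟩
  · refine ⟨v', ?_, fun x hx => mem4_swap T (h x hx)⟩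
    rcases hsymm with h | h
    · exact Or.inl h.symm
    · exact Or.inr h
  · refine ⟨T.p w', hp, fun x hx => ?_⟩
    rcases key hlv x hx with rfl | rfl
    · exact Or.inl rfl
    · exact Or.inr (Or.inl rfl)
  · refine ⟨T.p v', ?_, fun x hx => ?_⟩
    · rcases hp with h | h
      · exact Or.inl h.symm
      · exact Or.inr (T.symm _ _ h)
    · rcases key (by omega) x hx with rfl | rfl
      · exact Or.inr (Or.inl rfl)
      · exact Or.inl rfl

end TowerLemmas

section Main

variable {V : Type u} (T : Tower V) (A : Set V)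

/-- the group of the tower complex -/
abbrev GQ : Type u := QQ (T.cplx A)

/-- lift of the parent -/
def up (y : V × GQ T A) : V × GQ T A := (T.p y.1, y.2 * ee (T.cplx A) y.1 (T.p y.1))

open Classical in
/-- `k`-fold parent, as long as the parents lie in `A` -/
noncomputable def DD : ℕ → V × GQ T A → Option (V × GQ T A)
  | 0, y => some y
  | k + 1, y => if T.p y.1 ∈ A then DD k (up T A y) else none

/-- the covering complex -/
abbrev CC : Set (Finset (V × GQ T A)) := coverCplx (T.cplx A) (ee (T.cplx A))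

open Classical in
/-- the map `κ` at the level `n` -/
noncomputable def kap (n : ℕ) (y : V × GQ T A) : V × GQ T A :=
  if T.ℓ y.1 = n ∧ T.p y.1 ∈ A then up T A y else y

/-- lower neighbours of `x` which `κ` sends to `u` -/
def Nb (x u b : V × GQ T A) : Prop :=
  b ≠ x ∧ T.ℓ b.1 ≤ T.ℓ x.1 ∧ Adjc (CC T A) x b ∧ kap T A (T.ℓ x.1) b = u

open Classical in
/-- the cochain below the level of `x` -/
noncomputable def ch0 (x u a b : V × GQ T A) : ℤ :=
  (if a = x ∧ Nb T A x u b then 1 else 0) - (if b = x ∧ Nb T A x u a then 1 else 0)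

theorem ch0_self (x u a : V × GQ T A) : ch0 T A x u a a = 0 := by
  unfold ch0; exact sub_self _

theorem ch0_anti (x u a b : V × GQ T A) : ch0 T A x u a b = - ch0 T A x u b a := by
  unfold ch0; ring

/-- extension to options -/
noncomputable def ch1 (x u : V × GQ T A) : Option (V × GQ T A) → Option (V × GQ T A) → ℤ
  | some a, some b => ch0 T A x u a b
  | _, _ => 0

theorem ch1_self (x u : V × GQ T A) (a : Option (V × GQ T A)) : ch1 T A x u a a = 0 := by
  cases a
  · rfl
  · exact ch0_self T A x u _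

theorem ch1_anti (x u : V × GQ T A) (a b : Option (V × GQ T A)) :
    ch1 T A x u a b = - ch1 T A x u b a := by
  cases a <;> cases b
  · rfl
  · rfl
  · rfl
  · exact ch0_anti T A x u _ _

/-- the cochain -/
noncomputable def ch (x u y z : V × GQ T A) : ℤ :=
  ch1 T A x u (DD T A (T.ℓ y.1 - T.ℓ x.1) y) (DD T A (T.ℓ z.1 - T.ℓ x.1) z)

variable {A}

theorem hcplx_down : ∀ s ∈ T.cplx A, ∀ t ⊆ s, t.Nonempty → t ∈ T.cplx A := T.cplx_down

theorem eeK : ∀ s ∈ T.cplx A, ∀ a ∈ s, ∀ b ∈ s, ∀ c ∈ s,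
    ee (T.cplx A) a b * ee (T.cplx A) b c = ee (T.cplx A) a c :=
  fun _ hs _ ha _ hb _ hc => ee_mul hs ha hb hc

/-- structure of the simplices at a vertex whose parent is not in `A` -/
theorem kap_facts (hA : ∀ v ∈ A, T.ℓ v ≠ 0) {x : V × GQ T A} (hpx : T.p x.1 ∉ A)
    {s : Finset (V × GQ T A)} (hs : s ∈ CC T A) (hx : x ∈ s)
    (hmax : ∀ y ∈ s, T.ℓ y.1 ≤ T.ℓ x.1) {y : V × GQ T A} (hy : y ∈ s) (hyx : y ≠ x) :
    (open Classical in insert (kap T A (T.ℓ x.1) y) s ∈ CC T A) ∧
      (kap T A (T.ℓ x.1) y = y ∨ T.ℓ (kap T A (T.ℓ x.1) y).1 < T.ℓ x.1) ∧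
      ∀ z ∈ s, z ≠ x → kap T A (T.ℓ x.1) z = kap T A (T.ℓ x.1) y := by
  classical
  have hsK := hs.2.1
  have hmem : ∀ z ∈ s, z.1 ∈ s.image Prod.fst := fun z hz => Finset.mem_image_of_mem _ hz
  have hmax' : ∀ v ∈ s.image Prod.fst, T.ℓ v ≤ T.ℓ x.1 := by
    intro v hv
    obtain ⟨z, hz, rfl⟩ := Finset.mem_image.mp hv
    exact hmax z hz
  obtain ⟨w, hw, hmw⟩ := top_form T hA hsK (hmem x hx) hmax'
  have hinA : ∀ z ∈ s, z.1 ∈ A := fun z hz => hsK.2.1 _ (hmem z hz)
  have hfst : ∀ z ∈ s, z ≠ x → z.1 ≠ x.1 := fun z hz hzx h =>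
    hzx (cover_inj (eeK T) hs hz hx h)
  have hcase : ∀ z ∈ s, z ≠ x → z.1 = w ∨ z.1 = T.p w := by
    intro z hz hzx
    rcases hmw _ (hmem z hz) with h | h | h | h
    · exact absurd h (hfst z hz hzx)
    · exact Or.inl h
    · exact absurd (h ▸ hinA z hz) hpx
    · exact Or.inr h
  have hwx : w ≠ x.1 := by
    rintro rfl
    rcases hcase y hy hyx with h | h
    · exact hfst y hy hyx h
    · exact hpx (h ▸ hinA y hy)
  have hadj : T.Adj x.1 w := by
    rcases hw with h | h
    · exact absurd h.symm hwx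
    · exact h
  have hlw : T.ℓ w = T.ℓ x.1 := (T.level_adj _ _ hadj).symm
  have hx0 := hA _ (hinA x hx)
  have hlpw : T.ℓ (T.p w) + 1 = T.ℓ w := T.level_p w (by omega)
  have hnw : T.p w ≠ w := by
    intro h; rw [h] at hlpw; omega
  -- the simplex over `x.1, w, p w`
  have hbig : T.p w ∈ A → insert (T.p w) (s.image Prod.fst) ∈ T.cplx A := by
    intro hpw
    refine ⟨Finset.insert_nonempty _ _, ?_, x.1, w, hw, ?_⟩
    · intro v hv
      rcases Finset.mem_insert.mp hv with rfl | hv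
      · exact hpw
      · exact hsK.2.1 _ hv
    · intro v hv
      rcases Finset.mem_insert.mp hv with rfl | hv
      · exact Or.inr (Or.inr (Or.inr rfl))
      · exact hmw _ hv
  -- the common value
  have hval : T.p w ∈ A → ∀ z ∈ s, z ≠ x →
      kap T A (T.ℓ x.1) z = (T.p w, x.2 * ee (T.cplx A) x.1 (T.p w)) := by
    intro hpw z hz hzx
    have hb := hbig hpw
    have hxm := Finset.mem_insert_of_mem (a := x.1) (b := T.p w) (hmem x hx)
    have hpm : T.p w ∈ insert (T.p w) (s.image Prod.fst) := Finset.mem_insert_self _ _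
    have hz2 := hs.2.2 x hx z hz
    rcases hcase z hz hzx with h | h
    · rw [kap, if_pos ⟨by rw [h, hlw], by rw [h]; exact hpw⟩, up, h]
      have hwm : w ∈ insert (T.p w) (s.image Prod.fst) :=
        Finset.mem_insert_of_mem (h ▸ hmem z hz)
      rw [hz2, h, mul_assoc, eeK T _ hb _ hxm _ hwm _ hpm]
    · rw [kap, if_neg (by rw [h]; omega)]
      rw [← h, ← hz2]
  have hval' : T.p w ∉ A → ∀ z ∈ s, z ≠ x → z.1 = w ∧ kap T A (T.ℓ x.1) z = z := by
    intro hpw z hz hzx
    rcases hcase z hz hzx with h | h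
    · refine ⟨h, ?_⟩
      rw [kap, if_neg (by rw [h]; tauto)]
    · exact absurd (h ▸ hinA z hz) hpw
  by_cases hpw : T.p w ∈ A
  · have h1 := hval hpw y hy hyx
    rw [h1]
    refine ⟨insert_cover (eeK T) hs hx (hbig hpw), Or.inr ?_, fun z hz hzx => hval hpw z hz hzx⟩
    simp only
    omega
  · obtain ⟨h1, h2⟩ := hval' hpw y hy hyx
    rw [h2]
    refine ⟨by rwa [Finset.insert_eq_of_mem hy], Or.inl rfl, fun z hz hzx => ?_⟩
    obtain ⟨h3, h4⟩ := hval' hpw z hz hzx
    rw [h4]
    exact cover_inj (eeK T) hs hz hy (h3.trans h1.symm)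

/-- closedness of the cochain -/
theorem ch_closed (hA : ∀ v ∈ A, T.ℓ v ≠ 0) {x : V × GQ T A} (hpx : T.p x.1 ∉ A)
    (u : V × GQ T A) {s : Finset (V × GQ T A)} (hs : s ∈ CC T A) {y z t : V × GQ T A}
    (hy : y ∈ s) (hz : z ∈ s) (ht : t ∈ s) :
    ch T A x u y z + ch T A x u z t = ch T A x u y t := by
  classical
  have hsK := hs.2.1
  have hmem : ∀ z ∈ s, z.1 ∈ s.image Prod.fst := fun z hz => Finset.mem_image_of_mem _ hz
  obtain ⟨v', w', h0, hvw, hM⟩ := normal_form T hA hsK
  have hinA : ∀ z ∈ s, z.1 ∈ A := fun z hz => hsK.2.1 _ (hmem z hz)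
  have h0w : T.ℓ v' = T.ℓ w' := by
    rcases hvw with rfl | hvw
    · rfl
    · exact T.level_adj _ _ hvw
  have hlv := T.level_p v' h0
  have hlw := T.level_p w' (by rwa [← h0w])
  by_cases hn : T.ℓ x.1 < T.ℓ v'
  · -- two columns
    have hcol : ∀ c, T.ℓ c = T.ℓ v' → ∀ a ∈ s, ∀ b ∈ s, a.1 = c → b.1 = T.p c →
        DD T A (T.ℓ a.1 - T.ℓ x.1) a = DD T A (T.ℓ b.1 - T.ℓ x.1) b := by
      intro c hc a ha b hb hac hbc
      have hlc := T.level_p c (by omega)
      obtain ⟨k, hk⟩ : ∃ k, T.ℓ a.1 - T.ℓ x.1 = k + 1 := ⟨T.ℓ a.1 - T.ℓ x.1 - 1, by rw [hac]; omega⟩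
      have hk' : T.ℓ b.1 - T.ℓ x.1 = k := by rw [hac] at hk; rw [hbc]; omega
      rw [hk, hk', DD, if_pos (by rw [hac, ← hbc]; exact hinA b hb)]
      congr 1
      have h2 := hs.2.2 a ha b hb
      refine Prod.ext ?_ ?_
      · rw [up, hac, hbc]
      · rw [up, h2, hbc, hac]
    have hsame : ∀ c, T.ℓ c = T.ℓ v' → ∀ a ∈ s, ∀ b ∈ s, (a.1 = c ∨ a.1 = T.p c) →
        (b.1 = c ∨ b.1 = T.p c) →
        DD T A (T.ℓ a.1 - T.ℓ x.1) a = DD T A (T.ℓ b.1 - T.ℓ x.1) b := by
      intro c hc a ha b hb hac hbc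
      rcases hac with hac | hac <;> rcases hbc with hbc | hbc
      · rw [cover_inj (eeK T) hs ha hb (hac.trans hbc.symm)]
      · exact hcol c hc a ha b hb hac hbc
      · exact (hcol c hc b hb a ha hbc hac).symm
      · rw [cover_inj (eeK T) hs ha hb (hac.trans hbc.symm)]
    have hcc : ∀ a ∈ s, (a.1 = v' ∨ a.1 = T.p v') ∨ (a.1 = w' ∨ a.1 = T.p w') := by
      intro a ha
      rcases hM _ (hmem a ha) with h | h | h | h
      · exact Or.inl (Or.inl h)
      · exact Or.inr (Or.inl h)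
      · exact Or.inl (Or.inr h)
      · exact Or.inr (Or.inr h)
    have hpig : DD T A (T.ℓ y.1 - T.ℓ x.1) y = DD T A (T.ℓ z.1 - T.ℓ x.1) z ∨
        DD T A (T.ℓ z.1 - T.ℓ x.1) z = DD T A (T.ℓ t.1 - T.ℓ x.1) t ∨
        DD T A (T.ℓ y.1 - T.ℓ x.1) y = DD T A (T.ℓ t.1 - T.ℓ x.1) t := by
      rcases hcc y hy with h1 | h1 <;> rcases hcc z hz with h2 | h2 <;> rcases hcc t ht with h3 | h3
      · exact Or.inl (hsame v' rfl y hy z hz h1 h2)
      · exact Or.inl (hsame v' rfl y hy z hz h1 h2)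
      · exact Or.inr (Or.inr (hsame v' rfl y hy t ht h1 h3))
      · exact Or.inr (Or.inl (hsame w' h0w.symm z hz t ht h2 h3))
      · exact Or.inr (Or.inl (hsame v' rfl z hz t ht h2 h3))
      · exact Or.inr (Or.inr (hsame w' h0w.symm y hy t ht h1 h3))
      · exact Or.inl (hsame w' h0w.symm y hy z hz h1 h2)
      · exact Or.inl (hsame w' h0w.symm y hy z hz h1 h2)
    unfold ch
    rcases hpig with h | h | h
    · rw [h, ch1_self, zero_add]
    · rw [h, ch1_self, add_zero]
    · rw [← h, ch1_self, ch1_anti]; ring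
  · -- everything at level at most `ℓ x`
    have hle : ∀ a ∈ s, T.ℓ a.1 ≤ T.ℓ x.1 := by
      intro a ha
      rcases hM _ (hmem a ha) with h | h | h | h <;> rw [h] <;> omega
    have hDD : ∀ a ∈ s, ∀ b ∈ s, ch T A x u a b = ch0 T A x u a b := by
      intro a ha b hb
      unfold ch
      rw [Nat.sub_eq_zero_of_le (hle a ha), Nat.sub_eq_zero_of_le (hle b hb)]
      rfl
    rw [hDD y hy z hz, hDD z hz t ht, hDD y hy t ht]
    by_cases hxs : x ∈ s
    · obtain ⟨c, hc⟩ : ∃ c : ℤ, ∀ a ∈ s, a ≠ x → (if Nb T A x u a then (1 : ℤ) else 0) = c := by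
        by_cases hex : ∃ a ∈ s, a ≠ x
        · obtain ⟨a, ha, hax⟩ := hex
          refine ⟨if Nb T A x u a then (1 : ℤ) else 0, fun b hb hbx => ?_⟩
          have h1 := (kap_facts T hA hpx hs hxs hle ha hax).2.2 b hb hbx
          have h2 : Nb T A x u b ↔ Nb T A x u a := by
            unfold Nb
            rw [h1]
            constructor
            · rintro ⟨_, _, _, h⟩
              exact ⟨hax, hle a ha, ⟨s, hs, hxs, ha⟩, h⟩
            · rintro ⟨_, _, _, h⟩
              exact ⟨hbx, hle b hb, ⟨s, hs, hxs, hb⟩, h⟩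
          simp only [h2]
        · push Not at hex
          exact ⟨0, fun a ha hax => absurd (hex a ha) hax⟩
      have hcob : ∀ a ∈ s, ∀ b ∈ s, ch0 T A x u a b =
          c * ((if a = x then 1 else 0) - (if b = x then 1 else 0)) := by
        intro a ha b hb
        unfold ch0
        by_cases hax : a = x <;> by_cases hbx : b = x
        · rw [hax, hbx]; simp
        · have := hc b hb hbx
          simp only [hax, hbx, true_and, false_and, if_false, if_true, sub_zero, mul_one]
          exact this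
        · have := hc a ha hax
          simp only [hax, hbx, true_and, false_and, if_false, if_true, zero_sub, mul_neg, mul_one]
          rw [this]
        · simp [hax, hbx]
      rw [hcob y hy z hz, hcob z hz t ht, hcob y hy t ht]
      ring
    · have hzero : ∀ a ∈ s, ∀ b ∈ s, ch0 T A x u a b = 0 := by
        intro a ha b hb
        unfold ch0
        have h1 : a ≠ x := fun h => hxs (h ▸ ha)
        have h2 : b ≠ x := fun h => hxs (h ▸ hb)
        simp [h1, h2]
      rw [hzero y hy z hz, hzero z hz t ht, hzero y hy t ht, add_zero]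

theorem exists_sep (hA : ∀ v ∈ A, T.ℓ v ≠ 0) {x : V × GQ T A} (hpx : T.p x.1 ∉ A)
    (u : V × GQ T A) : ∃ F : V × GQ T A → ℤ, ∀ y z, Adjc (CC T A) y z →
      F z = F y + ch T A x u y z := by
  classical
  obtain ⟨F, hF⟩ := exists_pot (T.cplx A) (fun a b g =>
    if ∃ s ∈ T.cplx A, a ∈ s ∧ b ∈ s then
      ch T A x u (a, g) (b, g * ee (T.cplx A) a b) else 0) (by
    intro s hs a ha b hb c hc g
    rw [if_pos ⟨s, hs, ha, hb⟩, if_pos ⟨s, hs, hb, hc⟩, if_pos ⟨s, hs, ha, hc⟩, mul_assoc,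
      ee_mul hs ha hb hc]
    -- the lifted simplex
    have hlift : s.image (fun v => (v, g * ee (T.cplx A) a v)) ∈ CC T A := by
      refine ⟨hs.1.image _, ?_, ?_⟩
      · rw [Finset.image_image]
        have : (Prod.fst ∘ fun v => (v, g * ee (T.cplx A) a v)) = (id : V → V) := rfl
        rw [this, Finset.image_id]
        exact hs
      · intro y hy z hz
        obtain ⟨v, hv, rfl⟩ := Finset.mem_image.mp hy
        obtain ⟨w, hw, rfl⟩ := Finset.mem_image.mp hz
        simp only
        rw [mul_assoc, ee_mul hs ha hv hw]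
    have ha' : (a, g) ∈ s.image (fun v => (v, g * ee (T.cplx A) a v)) :=
      Finset.mem_image.mpr ⟨a, ha, by rw [ee_self hs ha, mul_one]⟩
    exact ch_closed T hA hpx u hlift ha' (Finset.mem_image_of_mem _ hb)
      (Finset.mem_image_of_mem _ hc))
  refine ⟨fun y => F y.2, fun y z hyz => ?_⟩
  obtain ⟨s, hs, hy, hz⟩ := hyz
  have h1 := hs.2.2 y hy z hz
  have h2 := hF y.1 z.1 y.2
  rw [← h1, if_pos ⟨_, hs.2.1, Finset.mem_image_of_mem _ hy, Finset.mem_image_of_mem _ hz⟩] at h2
  exact h2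

end Main

end UC

open UC in
theorem exists_cover {V : Type u} (T : Tower V) (A : Set V) (hA : ∀ v ∈ A, T.ℓ v ≠ 0) :
    ∃ (Q : Type u) (_ : Group Q) (e : V → V → Q),
      (∀ s ∈ T.cplx A, ∀ a ∈ s, ∀ b ∈ s, ∀ c ∈ s, e a b * e b c = e a c) ∧
      ∀ x : V × Q, {x} ∈ coverCplx (T.cplx A) e →
        GoodAt (coverCplx (T.cplx A) e) (fun y => T.ℓ y.1) x := by
  classical
  refine ⟨GQ T A, inferInstance, ee (T.cplx A), eeK T, ?_⟩
  intro x hx
  have hxA : x.1 ∈ A := hx.2.1.2.1 _ (by simp)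
  have hx0 := hA _ hxA
  have hlp := T.level_p _ hx0
  by_cases hp : T.p x.1 ∈ A
  · left
    refine ⟨up T A x, ?_, ?_⟩
    · simp only [up]; omega
    · intro s hs hxs hmax
      have hmem : ∀ z ∈ s, z.1 ∈ s.image Prod.fst := fun z hz => Finset.mem_image_of_mem _ hz
      obtain ⟨w, hw, hmw⟩ := top_form T hA hs.2.1 (hmem x hxs) (by
        intro v hv
        obtain ⟨z, hz, rfl⟩ := Finset.mem_image.mp hv
        exact hmax z hz)
      have hK : insert (T.p x.1) (s.image Prod.fst) ∈ T.cplx A := by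
        refine ⟨Finset.insert_nonempty _ _, ?_, x.1, w, hw, ?_⟩
        · intro v hv
          rcases Finset.mem_insert.mp hv with rfl | hv
          · exact hp
          · exact hs.2.1.2.1 _ hv
        · intro v hv
          rcases Finset.mem_insert.mp hv with rfl | hv
          · exact Or.inr (Or.inr (Or.inl rfl))
          · exact hmw _ hv
      have h := insert_cover (eeK T) hs hxs hK
      exact (congrArg (· ∈ coverCplx (T.cplx A) (ee (T.cplx A))) (insert_inst _ _ _ _)).mpr h
  · right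
    refine ⟨kap T A (T.ℓ x.1), ?_, ?_⟩
    · intro s hs hxs hmax y hy hyx
      obtain ⟨h1, h2, h3⟩ := kap_facts T hA hp hs hxs hmax hy hyx
      refine ⟨?_, h2, fun z hz hzx => h3 z hz hzx⟩
      exact (congrArg (· ∈ coverCplx (T.cplx A) (ee (T.cplx A))) (insert_inst _ _ _ _)).mpr h1
    · intro u
      obtain ⟨F, hF⟩ := exists_sep T hA hp u
      refine ⟨F, ?_, ?_⟩
      · intro y z hyx hzx hy hz hyz
        have h1 := hF y z hyz
        have h2 : ch T A x u y z = 0 := by
          unfold ch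
          rw [Nat.sub_eq_zero_of_le hy, Nat.sub_eq_zero_of_le hz]
          show ch0 T A x u y z = 0
          unfold ch0
          simp [hyx, hzx]
        rw [h1, h2, add_zero]
      · intro y hyx hy hxy
        have h1 := hF x y hxy
        have h2 : ch T A x u x y = if kap T A (T.ℓ x.1) y = u then 1 else 0 := by
          unfold ch
          rw [Nat.sub_self, Nat.sub_eq_zero_of_le hy]
          show ch0 T A x u x y = _
          unfold ch0
          have h3 : Nb T A x u y ↔ kap T A (T.ℓ x.1) y = u := by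
            unfold Nb
            constructor
            · rintro ⟨_, _, _, h⟩; exact h
            · intro h; exact ⟨hyx, hy, hxy, h⟩
          simp only [true_and, h3, hyx, false_and, if_false, sub_zero]
        rw [h1, h2]
        congr

end Pool.Agent.Lib.MP_944cb0_gt
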