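import Pool.Agent.Lib.MP_944cb0_gt.Fin
import Pool.Agent.Lib.MP_944cb0_gt.UC

/-!
The final topological argument combined with the universal cover.
-/

set_option autoImplicit false

namespace Pool.Agent.Lib.MP_944cb0_gt

open scoped unitInterval

universe u

theorem tower_null {Y V : Type u} (d : Y → Y → ℕ) (R E : ℝ) (hRE : R ≤ E) (T : Tower V)
    (L : Y → V) (hL : ∀ y, T.ℓ (L y) ≠ 0)
    (h1 : ∀ B : Finset Y, RipsSimplex d R B →
      ∃ v w, (v = w ∨ T.Adj v w) ∧ ∀ b ∈ B, T.Mem4 v w (L b))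
    (h2 : ∀ v w, (v = w ∨ T.Adj v w) → ∀ x y, T.Mem4 v w (L x) → T.Mem4 v w (L y) →
      (d x y : ℝ) ≤ E) (m : ℕ) (hm : 2 ≤ m) (x : Rips d R)
    (f : GenLoop (Fin m) (Rips d R) x) :
    ((Rips.incl hRE).comp f.1).HomotopicRel
      (ContinuousMap.const (Fin m → I) (Rips.incl hRE x)) (Cube.boundary (Fin m)) := by
  obtain ⟨Q, _, e, he, hgood⟩ := exists_cover T (Set.range L) (by rintro v ⟨y, rfl⟩; exact hL y)
  exact tower_null_of_cover d R E hRE T L h1 h2 m hm x f e he hgood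

end Pool.Agent.Lib.MP_944cb0_gt
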