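import Pool.Agent.Lib.MP_944cb0_gt.Tow2
import Pool.Agent.Lib.MP_944cb0_gt.Null
import Pool.Agent.Lib.MP_944cb0_gt.Group

/-!
Assembly of the main theorem.
-/

set_option autoImplicit false

namespace Pool.Agent.Lib.MP_944cb0_gt

open scoped unitInterval

theorem coarsely_of {Z : Type*} (d : Z → Z → ℕ) (m : ℕ)
    (h : ∀ R : ℝ, 0 ≤ R → ∃ E : ℝ, ∃ hE : R ≤ E, ∀ (x : Rips d R)
      (f : GenLoop (Fin m) (Rips d R) x), ((Rips.incl hE).comp f.1).HomotopicRel
      (ContinuousMap.const (Fin m → I) (Rips.incl hE x)) (Cube.boundary (Fin m))) :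
    CoarselyTrivialPi d m := by
  choose E hE h' using h
  classical
  refine ⟨fun R => if hR : 0 ≤ R then E R hR else R, fun R hR => ?_, fun R hR x f => ?_⟩
  · simp only [dif_pos hR]; exact hE R hR
  · have key : ∀ (E' : ℝ) (hE' : R ≤ E'), E' = E R hR →
        ((Rips.incl hE').comp f.1).HomotopicRel
      (ContinuousMap.const (Fin m → I) (Rips.incl hE' x)) (Cube.boundary (Fin m)) := by
      rintro E' hE' rfl
      exact h' R hR x f
    exact key _ _ (by simp only [dif_pos hR])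

universe u

/-- The main theorem for a set `Y` with a map to the hyperbolic space. -/
theorem main_map {G : Type u} (H : HS G) (hCE : H.CircleExt) {Y : Type u} (d : Y → Y → ℕ)
    (c : Y → G) (h1 : ∀ R, ∃ R', ∀ x y, d x y ≤ R → H.d (c x) (c y) ≤ R')
    (h2 : ∀ R, ∃ R', ∀ x y, H.d (c x) (c y) ≤ R → d x y ≤ R') (m : ℕ) (hm : 2 ≤ m) :
    CoarselyTrivialPi d m := by
  classical
  apply coarsely_of
  intro R hR
  obtain ⟨R1, hR1⟩ := h1 ⌊R⌋₊
  obtain ⟨T, L, E, hL, hs, hE⟩ := H.exists_tower hCE R1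
  obtain ⟨R2, hR2⟩ := h2 E
  refine ⟨max R R2, le_max_left _ _, fun x f => ?_⟩
  refine tower_null d R (max R R2) (le_max_left _ _) T (fun y => L (c y)) (fun y => hL _) ?_ ?_
    m hm x f
  · intro B hB
    obtain ⟨v, w, hvw, h⟩ := hs (B.image c) (hB.1.image c) (by
      intro x hx y hy
      obtain ⟨a, ha, rfl⟩ := Finset.mem_image.1 hx
      obtain ⟨b, hb, rfl⟩ := Finset.mem_image.1 hy
      exact hR1 a b (Nat.le_floor (hB.2 a ha b hb)))
    exact ⟨v, w, hvw, fun b hb => h _ (Finset.mem_image_of_mem c hb)⟩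
  · intro v w hvw x y hx hy
    have := hR2 x y (hE v w hvw _ _ hx hy)
    exact le_trans (by exact_mod_cast this) (le_max_right _ _)

end Pool.Agent.Lib.MP_944cb0_gt
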