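import Pool.Agent.Lib.MP_944cb0_gt.Stmt
import Pool.Agent.Lib.MP_944cb0_gt.Main

/-!
Bridge between the definitions of the statement and those used in the proof.
-/

set_option autoImplicit false

namespace Pool.Agent.Lib.MP_944cb0_gt

open scoped unitInterval

theorem stmt_foldl {G : Type*} [Group G] {α : Type*} (ι : α → G) (L : List (α × Bool)) :
    ∀ (g : G) (c : G × α →₀ ℤ),
      (L.foldl (Stmt.pathStep ι) (g, c)).2 = c + pathChain ι g L := by
  induction L with
  | nil => intro g c; simp [pathChain]
  | cons x L ih =>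
    intro g c
    obtain ⟨a, b⟩ := x
    cases b
    · rw [List.foldl_cons]
      simp only [Stmt.pathStep, Bool.false_eq_true, if_false]
      rw [ih, pathChain]
      abel
    · rw [List.foldl_cons]
      simp only [Stmt.pathStep, if_true]
      rw [ih, pathChain]
      abel

theorem stmt_boundary₂ {G : Type*} [Group G] {α : Type*} [DecidableEq α] (ι : α → G)
    (rels : Set (FreeGroup α)) : Stmt.boundary₂ ι rels = boundary₂ ι rels := by
  unfold Stmt.boundary₂ boundary₂ Stmt.pathChain
  congr 1
  funext p
  rw [stmt_foldl, zero_add]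

/-- change of presentation of the points of the Rips complex -/
def toR {Z : Type*} {d : Z → Z → ℕ} {R : ℝ} : C(Stmt.Rips d R, Rips d R) :=
  ⟨fun p => ⟨p.1, p.2⟩, by exact Continuous.subtype_mk continuous_subtype_val _⟩

/-- change of presentation of the points of the Rips complex -/
def ofR {Z : Type*} {d : Z → Z → ℕ} {R : ℝ} : C(Rips d R, Stmt.Rips d R) :=
  ⟨fun p => ⟨p.1, p.2⟩, by exact Continuous.subtype_mk continuous_subtype_val _⟩

theorem stmt_coarsely {Z : Type*} {d : Z → Z → ℕ} {m : ℕ} (h : CoarselyTrivialPi d m) :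
    Stmt.CoarselyTrivialPi d m := by
  obtain ⟨φ, hφ, h⟩ := h
  refine ⟨φ, hφ, fun R hR x f hf => ?_⟩
  let g : GenLoop (Fin m) (Rips d R) (toR x) := ⟨toR.comp f, fun y hy => by
    show toR (f y) = toR x
    rw [hf y hy]⟩
  obtain ⟨F⟩ := h R hR (toR x) g
  refine ⟨ofR.comp F.toContinuousMap, fun s => ?_, fun s => ?_, fun t s hs => ?_⟩
  · exact congrArg Subtype.val (F.map_zero_left s)
  · exact congrArg Subtype.val (F.map_one_left s)
  · refine (congrArg Subtype.val (F.eq_fst t hs)).trans ?_
    show (toR (f s)).1 = x.1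
    rw [hf s hs]; rfl

end Pool.Agent.Lib.MP_944cb0_gt
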