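import Pool.Agent.Lib.MP_944cb0_gt.Defs

/-!
# Circle extension in the Cayley complex (module CE of MP_944cb0_gt)

The first half of the file collects elementary facts on edge paths and 2-chains of the Cayley
complex: a closed edge path bounds a 2-chain, with uniform bounds on size and support.
-/

set_option autoImplicit false

namespace Pool.Agent.Lib.MP_944cb0_gt

/-- ancestor at level `k` -/
noncomputable def anc {G : Type*} (len : G → ℕ) (par : G → G) (k : ℕ) (x : G) : G :=
  par^[len x - k] x

/-- coordinate on the arc from `i+1` to `i+2` -/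
def arc (i e : ZMod 3) : ℤ := if e = i + 2 then 1 else 0

namespace CE

section Paths

variable {G : Type*} [Group G] {α : Type*}

/-- the group element spelled by a word -/
def wprod (ι : α → G) (L : List (α × Bool)) : G :=
  (L.map fun x => cond x.2 (ι x.1) (ι x.1)⁻¹).prod

@[simp] theorem wprod_nil (ι : α → G) : wprod ι [] = 1 := rfl

theorem wprod_cons (ι : α → G) (x : α × Bool) (L : List (α × Bool)) :
    wprod ι (x :: L) = cond x.2 (ι x.1) (ι x.1)⁻¹ * wprod ι L := by
  simp [wprod]

theorem wprod_append (ι : α → G) (L₁ L₂ : List (α × Bool)) :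
    wprod ι (L₁ ++ L₂) = wprod ι L₁ * wprod ι L₂ := by
  simp [wprod]

theorem lift_mk_eq (ι : α → G) (L : List (α × Bool)) :
    FreeGroup.lift ι (FreeGroup.mk L) = wprod ι L := FreeGroup.lift_mk

theorem pathChain_append (ι : α → G) (g : G) (L₁ L₂ : List (α × Bool)) :
    pathChain ι g (L₁ ++ L₂) = pathChain ι g L₁ + pathChain ι (g * wprod ι L₁) L₂ := by
  induction L₁ generalizing g with
  | nil => simp [pathChain]
  | cons x L ih =>
    obtain ⟨a, b⟩ := x
    cases b
    · simp [pathChain, ih, wprod_cons, mul_assoc, add_assoc]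
    · simp [pathChain, ih, wprod_cons, mul_assoc, add_assoc]

theorem pathChain_pair (ι : α → G) (g : G) (a : α) (b : Bool) :
    pathChain ι g [(a, b), (a, !b)] = 0 := by
  cases b <;> simp [pathChain]

theorem wprod_pair (ι : α → G) (a : α) (b : Bool) : wprod ι [(a, b), (a, !b)] = 1 := by
  cases b <;> simp [wprod]

theorem pathChain_step (ι : α → G) (g : G) {L₁ L₂ : List (α × Bool)}
    (h : FreeGroup.Red.Step L₁ L₂) : pathChain ι g L₁ = pathChain ι g L₂ := by
  cases h with
  | @not A B x b =>
    have h1 : A ++ (x, b) :: (x, !b) :: B = A ++ ([(x, b), (x, !b)] ++ B) := by simp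
    rw [h1, pathChain_append, pathChain_append, pathChain_append, pathChain_pair, wprod_pair]
    simp

/-- the chain of an element of the free group -/
noncomputable def fchain (ι : α → G) (g : G) (w : FreeGroup α) : G × α →₀ ℤ :=
  Quot.lift (pathChain ι g) (fun _ _ h => pathChain_step ι g h) w

theorem fchain_mk (ι : α → G) (g : G) (L : List (α × Bool)) :
    fchain ι g (FreeGroup.mk L) = pathChain ι g L := rfl

theorem fchain_one (ι : α → G) (g : G) : fchain ι g 1 = 0 := rfl

theorem fchain_mul (ι : α → G) (g : G) (u v : FreeGroup α) :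
    fchain ι g (u * v) = fchain ι g u + fchain ι (g * FreeGroup.lift ι u) v := by
  induction u using Quot.inductionOn with
  | _ L₁ =>
    induction v using Quot.inductionOn with
    | _ L₂ =>
      have h1 : (Quot.mk FreeGroup.Red.Step L₁ : FreeGroup α) = FreeGroup.mk L₁ := rfl
      have h2 : (Quot.mk FreeGroup.Red.Step L₂ : FreeGroup α) = FreeGroup.mk L₂ := rfl
      rw [h1, h2, FreeGroup.mul_mk, fchain_mk, fchain_mk, fchain_mk, pathChain_append, lift_mk_eq]

theorem fchain_inv (ι : α → G) (g : G) (u : FreeGroup α) :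
    fchain ι g u⁻¹ = - fchain ι (g * (FreeGroup.lift ι u)⁻¹) u := by
  have h := fchain_mul ι g u⁻¹ u
  rw [inv_mul_cancel, fchain_one, map_inv] at h
  exact eq_neg_of_add_eq_zero_left h.symm

theorem fchain_toWord [DecidableEq α] (ι : α → G) (g : G) (u : FreeGroup α) :
    pathChain ι g u.toWord = fchain ι g u := by
  rw [← fchain_mk, FreeGroup.mk_toWord]

end Paths

section Fill

variable {G : Type*} [Group G] {α : Type*} [DecidableEq α]

theorem boundary₂_single (ι : α → G) (rels : Set (FreeGroup α)) (g : G) (r : rels) (c : ℤ) :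
    boundary₂ ι rels (Finsupp.single (g, r) c) = c • fchain ι g (r : FreeGroup α) := by
  rw [boundary₂, Finsupp.linearCombination_single, fchain_toWord]

/-- the subgroup of relators whose translates bound -/
def bSub (ι : α → G) (rels : Set (FreeGroup α)) : Subgroup (FreeGroup α) where
  carrier := {w | FreeGroup.lift ι w = 1 ∧ ∀ g, fchain ι g w ∈ LinearMap.range (boundary₂ ι rels)}
  one_mem' := by
    refine ⟨map_one _, fun g => ?_⟩
    rw [fchain_one]; exact zero_mem _
  mul_mem' := by
    rintro u v ⟨hu1, hu2⟩ ⟨hv1, hv2⟩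
    refine ⟨by rw [map_mul, hu1, hv1, one_mul], fun g => ?_⟩
    rw [fchain_mul, hu1, mul_one]
    exact add_mem (hu2 g) (hv2 g)
  inv_mem' := by
    rintro u ⟨hu1, hu2⟩
    refine ⟨by rw [map_inv, hu1, inv_one], fun g => ?_⟩
    rw [fchain_inv, hu1, inv_one, mul_one]
    exact neg_mem (hu2 g)

theorem bSub_normal (ι : α → G) (rels : Set (FreeGroup α)) : (bSub ι rels).Normal := by
  refine ⟨?_⟩
  rintro w ⟨hw1, hw2⟩ u
  refine ⟨by rw [map_mul, map_mul, map_inv, hw1, mul_one, mul_inv_cancel], fun g => ?_⟩
  have h : fchain ι g (u * w * u⁻¹) = fchain ι (g * FreeGroup.lift ι u) w := by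
    rw [fchain_mul, fchain_mul, map_mul, hw1, mul_one, fchain_inv, mul_assoc, mul_inv_cancel,
      mul_one]
    abel
  rw [h]
  exact hw2 _

theorem mem_range_of_lift_eq_one {ι : α → G} {rels : Set (FreeGroup α)} (hp : Presents ι rels)
    (w : FreeGroup α) (hw : FreeGroup.lift ι w = 1) (g : G) :
    fchain ι g w ∈ LinearMap.range (boundary₂ ι rels) := by
  have h1 : Subgroup.normalClosure rels ≤ bSub ι rels := by
    have := bSub_normal ι rels
    refine Subgroup.normalClosure_le_normal ?_
    intro r hr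
    refine ⟨?_, fun g => ?_⟩
    · have : r ∈ (FreeGroup.lift ι).ker := by
        rw [hp.2]; exact Subgroup.subset_normalClosure hr
      exact this
    · refine ⟨Finsupp.single (g, ⟨r, hr⟩) 1, ?_⟩
      rw [boundary₂_single, one_smul]
  have h2 : w ∈ (FreeGroup.lift ι).ker := hw
  rw [hp.2] at h2
  exact (h1 h2).2 g

/-- left translation of chains -/
noncomputable def tr {β : Type*} (g : G) : (G × β →₀ ℤ) →ₗ[ℤ] (G × β →₀ ℤ) :=
  Finsupp.lmapDomain ℤ ℤ (fun p => (g * p.1, p.2))

theorem tr_single {β : Type*} (g h : G) (b : β) (c : ℤ) :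
    tr g (Finsupp.single (h, b) c) = Finsupp.single (g * h, b) c := by
  simp [tr, Finsupp.lmapDomain_apply, Finsupp.mapDomain_single]

omit [DecidableEq α] in
theorem tr_pathChain (ι : α → G) (g h : G) (L : List (α × Bool)) :
    tr g (pathChain ι h L) = pathChain ι (g * h) L := by
  induction L generalizing h with
  | nil => simp [pathChain]
  | cons x L ih =>
    obtain ⟨a, b⟩ := x
    cases b
    · simp only [pathChain, map_add, map_neg, tr_single, ih, mul_assoc]
    · simp only [pathChain, map_add, tr_single, ih, mul_assoc]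

theorem boundary₂_tr (ι : α → G) (rels : Set (FreeGroup α)) (g : G) (c : G × rels →₀ ℤ) :
    boundary₂ ι rels (tr g c) = tr g (boundary₂ ι rels c) := by
  induction c using Finsupp.induction_linear with
  | zero => simp
  | add a b ha hb => simp [map_add, ha, hb]
  | single p v =>
    obtain ⟨h, r⟩ := p
    rw [tr_single, boundary₂_single, boundary₂_single, map_zsmul, ← fchain_toWord, ← fchain_toWord,
      tr_pathChain]

end Fill

section Metric

variable {G : Type*} [Group G] {α : Type*}

theorem exists_letters (ι : α → G) (l : List G)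
    (hl : ∀ x ∈ l, x ∈ Set.range ι ∨ x⁻¹ ∈ Set.range ι) :
    ∃ L : List (α × Bool), L.length = l.length ∧ wprod ι L = l.prod := by
  induction l with
  | nil => exact ⟨[], rfl, by simp⟩
  | cons x l ih =>
    obtain ⟨L, h1, h2⟩ := ih (fun y hy => hl y (List.mem_cons_of_mem _ hy))
    rcases hl x List.mem_cons_self with ⟨a, ha⟩ | ⟨a, ha⟩
    · exact ⟨(a, true) :: L, by simp [h1], by simp [wprod_cons, h2, ha]⟩
    · exact ⟨(a, false) :: L, by simp [h1], by simp [wprod_cons, h2, ha]⟩

theorem wlen_wprod_le (ι : α → G) (L : List (α × Bool)) :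
    wlen (Set.range ι) (wprod ι L) ≤ L.length := by
  refine Nat.sInf_le ⟨L.map fun x => cond x.2 (ι x.1) (ι x.1)⁻¹, by simp, ?_, rfl⟩
  intro x hx
  rw [List.mem_map] at hx
  obtain ⟨⟨a, b⟩, _, rfl⟩ := hx
  cases b
  · right; simp
  · left; simp

theorem exists_word {ι : α → G} (hs : Function.Surjective (FreeGroup.lift ι)) (g : G) :
    ∃ L : List (α × Bool), L.length = wlen (Set.range ι) g ∧ wprod ι L = g := by
  classical
  have hne : {n | ∃ l : List G, l.length = n ∧ (∀ x ∈ l, x ∈ Set.range ι ∨ x⁻¹ ∈ Set.range ι) ∧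
      l.prod = g}.Nonempty := by
    obtain ⟨w, hw⟩ := hs g
    refine ⟨_, (w.toWord.map fun x => cond x.2 (ι x.1) (ι x.1)⁻¹), rfl, ?_, ?_⟩
    · intro x hx
      rw [List.mem_map] at hx
      obtain ⟨⟨a, b⟩, _, rfl⟩ := hx
      cases b
      · right; simp
      · left; simp
    · rw [← hw, ← FreeGroup.lift_mk, FreeGroup.mk_toWord]
  obtain ⟨l, h1, h2, h3⟩ := Nat.sInf_mem hne
  obtain ⟨L, h4, h5⟩ := exists_letters ι l h2
  exact ⟨L, h4.trans h1, h5.trans h3⟩

theorem wprod_invRev (ι : α → G) (L : List (α × Bool)) :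
    wprod ι (FreeGroup.invRev L) = (wprod ι L)⁻¹ := by
  rw [← lift_mk_eq, ← lift_mk_eq, ← FreeGroup.inv_mk, map_inv]

theorem wlen_one (ι : α → G) : wlen (Set.range ι) (1 : G) = 0 :=
  Nat.le_zero.mp (by simpa using wlen_wprod_le ι [])

theorem wlen_inv {ι : α → G} (hs : Function.Surjective (FreeGroup.lift ι)) (g : G) :
    wlen (Set.range ι) g⁻¹ = wlen (Set.range ι) g := by
  have h : ∀ g : G, wlen (Set.range ι) g⁻¹ ≤ wlen (Set.range ι) g := by
    intro g
    obtain ⟨L, h1, h2⟩ := exists_word hs g
    have := wlen_wprod_le ι (FreeGroup.invRev L)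
    rw [wprod_invRev, h2, FreeGroup.invRev_length, h1] at this
    exact this
  refine le_antisymm (h g) ?_
  have := h g⁻¹
  rwa [inv_inv] at this

theorem wlen_mul_le {ι : α → G} (hs : Function.Surjective (FreeGroup.lift ι)) (g h : G) :
    wlen (Set.range ι) (g * h) ≤ wlen (Set.range ι) g + wlen (Set.range ι) h := by
  obtain ⟨L, h1, h2⟩ := exists_word hs g
  obtain ⟨L', h3, h4⟩ := exists_word hs h
  have := wlen_wprod_le ι (L ++ L')
  rwa [wprod_append, h2, h4, List.length_append, h1, h3] at this

theorem wdist_self (ι : α → G) (x : G) : wdist (Set.range ι) x x = 0 := by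
  rw [wdist, inv_mul_cancel, wlen_one]

theorem wdist_comm {ι : α → G} (hs : Function.Surjective (FreeGroup.lift ι)) (x y : G) :
    wdist (Set.range ι) x y = wdist (Set.range ι) y x := by
  rw [wdist, wdist, ← wlen_inv hs]; simp

theorem wdist_tri {ι : α → G} (hs : Function.Surjective (FreeGroup.lift ι)) (x y z : G) :
    wdist (Set.range ι) x z ≤ wdist (Set.range ι) x y + wdist (Set.range ι) y z := by
  have := wlen_mul_le hs (x⁻¹ * y) (y⁻¹ * z)
  rwa [show x⁻¹ * y * (y⁻¹ * z) = x⁻¹ * z by group] at this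

theorem wlen_le_add {ι : α → G} (hs : Function.Surjective (FreeGroup.lift ι)) (x y : G) :
    wlen (Set.range ι) y ≤ wlen (Set.range ι) x + wdist (Set.range ι) x y := by
  have := wlen_mul_le hs x (x⁻¹ * y)
  rwa [mul_inv_cancel_left] at this

theorem ball_finite [Finite α] {ι : α → G} (hs : Function.Surjective (FreeGroup.lift ι)) (R : ℕ) :
    {u : G | wlen (Set.range ι) u ≤ R}.Finite := by
  refine ((List.finite_length_le (α × Bool) R).image (wprod ι)).subset ?_
  intro u hu
  obtain ⟨L, h1, h2⟩ := exists_word hs u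
  exact ⟨L, by simpa [h1] using hu, h2⟩

theorem wdist_mul_right_le (ι : α → G) (g : G) (L : List (α × Bool)) :
    wdist (Set.range ι) g (g * wprod ι L) ≤ L.length := by
  rw [wdist, inv_mul_cancel_left]
  exact wlen_wprod_le ι L

end Metric

section Eval

variable {G : Type*} [Group G] {α : Type*}

/-- evaluation of a cochain -/
noncomputable def ev {β : Type*} (φ : β → ℤ) : (β →₀ ℤ) →ₗ[ℤ] ℤ := Finsupp.linearCombination ℤ φ

theorem ev_single {β : Type*} (φ : β → ℤ) (b : β) (c : ℤ) :
    ev φ (Finsupp.single b c) = c * φ b := by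
  rw [ev, Finsupp.linearCombination_single, smul_eq_mul]

theorem ev_path (ι : α → G) (φ : G × α → ℤ) (f : G → ℤ) (V : G → Prop)
    (hφ : ∀ g a, V g → V (g * ι a) → φ (g, a) = f (g * ι a) - f g) (L : List (α × Bool)) :
    ∀ g, (∀ j ≤ L.length, V (g * wprod ι (L.take j))) →
      ev φ (pathChain ι g L) = f (g * wprod ι L) - f g := by
  induction L with
  | nil => intro g _; simp [pathChain]
  | cons x L ih =>
    obtain ⟨a, b⟩ := x
    intro g hV
    have h0 : V g := by simpa using hV 0 (Nat.zero_le _)
    have h1 : ∀ h : G, h = g * cond b (ι a) (ι a)⁻¹ → ∀ j ≤ L.length,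
        V (h * wprod ι (L.take j)) := by
      rintro h rfl j hj
      have := hV (j + 1) (by simpa using hj)
      rwa [List.take_succ_cons, wprod_cons, ← mul_assoc] at this
    have h2 : V (g * cond b (ι a) (ι a)⁻¹) := by simpa using h1 _ rfl 0 (Nat.zero_le _)
    cases b
    · simp only [cond_false] at h1 h2
      have h3 := ih _ (h1 _ rfl)
      have h4 := hφ (g * (ι a)⁻¹) a h2 (by simpa using h0)
      rw [inv_mul_cancel_right] at h4
      simp only [pathChain, map_add, map_neg, ev_single, h3, wprod_cons, cond_false, h4, mul_assoc]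
      ring
    · simp only [cond_true] at h1 h2
      have h3 := ih _ (h1 _ rfl)
      have h4 := hφ g a h0 h2
      simp only [pathChain, map_add, ev_single, h3, wprod_cons, cond_true, h4, mul_assoc]
      ring

/-- the integral cochain of a labelling -/
def dd (ι : α → G) (e : G → ZMod 3) (p : G × α) : ℤ := (e (p.1 * ι p.2) - e p.1).valMinAbs

theorem dd_cast (ι : α → G) (e : G → ZMod 3) (p : G × α) :
    ((dd ι e p : ℤ) : ZMod 3) = e (p.1 * ι p.2) - e p.1 := ZMod.coe_valMinAbs _

theorem dd_abs (ι : α → G) (e : G → ZMod 3) (p : G × α) : |dd ι e p| ≤ 1 := by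
  have h : ∀ z : ZMod 3, |z.valMinAbs| ≤ 1 := by decide
  exact h _

theorem dd_arc (ι : α → G) (e : G → ZMod 3) (i : ZMod 3) (g : G) (a : α) (h1 : e g ≠ i)
    (h2 : e (g * ι a) ≠ i) : dd ι e (g, a) = arc i (e (g * ι a)) - arc i (e g) := by
  have h : ∀ i p q : ZMod 3, p ≠ i → q ≠ i → (q - p).valMinAbs = arc i q - arc i p := by
    unfold arc; decide
  exact h _ _ _ h1 h2

theorem ev_path_cast (ι : α → G) (e : G → ZMod 3) (L : List (α × Bool)) (g : G) :
    ((ev (dd ι e) (pathChain ι g L) : ℤ) : ZMod 3) = e (g * wprod ι L) - e g := by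
  induction L generalizing g with
  | nil => simp [pathChain]
  | cons x L ih =>
    obtain ⟨a, b⟩ := x
    cases b
    · simp only [pathChain, map_add, map_neg, ev_single, Int.cast_add, Int.cast_neg,
        one_mul, dd_cast, ih, wprod_cons, cond_false, mul_assoc, inv_mul_cancel, mul_one]
      ring
    · simp only [pathChain, map_add, ev_single, Int.cast_add, one_mul, dd_cast, ih, wprod_cons,
        cond_true, mul_assoc]
      ring

theorem ev_path_abs (ι : α → G) (φ : G × α → ℤ) (hφ : ∀ p, |φ p| ≤ 1) (L : List (α × Bool))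
    (g : G) : |ev φ (pathChain ι g L)| ≤ L.length := by
  induction L generalizing g with
  | nil => simp [pathChain]
  | cons x L ih =>
    obtain ⟨a, b⟩ := x
    cases b
    · simp only [pathChain, map_add, map_neg, ev_single, List.length_cons, one_mul]
      have h1 := ih (g * (ι a)⁻¹)
      have h2 := hφ (g * (ι a)⁻¹, a)
      have h3 := abs_add_le (-φ (g * (ι a)⁻¹, a)) (ev φ (pathChain ι (g * (ι a)⁻¹) L))
      rw [abs_neg] at h3
      push_cast
      linarith
    · simp only [pathChain, map_add, ev_single, List.length_cons, one_mul]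
      have h1 := ih (g * ι a)
      have h2 := hφ (g, a)
      have h3 := abs_add_le (φ (g, a)) (ev φ (pathChain ι (g * ι a) L))
      push_cast
      linarith

theorem ev_cast_zero {β : Type*} (φ : β → ℤ) (h : ∀ b, ((φ b : ℤ) : ZMod 3) = 0) (c : β →₀ ℤ) :
    ((ev φ c : ℤ) : ZMod 3) = 0 := by
  induction c using Finsupp.induction_linear with
  | zero => simp
  | add a b ha hb => simp [map_add, ha, hb]
  | single p v => simp [ev_single, h]

/-- the `ℓ¹` norm of a chain -/
def nrm {β : Type*} (c : β →₀ ℤ) : ℤ := ∑ p ∈ c.support, |c p|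

theorem ev_abs_le {β : Type*} (φ : β → ℤ) (M : ℤ) (hφ : ∀ p, |φ p| ≤ M) (c : β →₀ ℤ) :
    |ev φ c| ≤ M * nrm c := by
  rw [ev, Finsupp.linearCombination_apply, Finsupp.sum, nrm, Finset.mul_sum]
  refine (Finset.abs_sum_le_sum_abs _ _).trans (Finset.sum_le_sum fun p _ => ?_)
  rw [smul_eq_mul, abs_mul, mul_comm]
  exact mul_le_mul_of_nonneg_right (hφ p) (abs_nonneg _)

theorem ev_congr {β : Type*} (φ ψ : β → ℤ) (c : β →₀ ℤ) (h : ∀ p ∈ c.support, φ p = ψ p) :
    ev φ c = ev ψ c := by
  rw [ev, ev, Finsupp.linearCombination_apply, Finsupp.linearCombination_apply]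
  exact Finsupp.sum_congr fun p hp => by rw [h p hp]

theorem ev_eq_zero {β : Type*} (φ : β → ℤ) (c : β →₀ ℤ) (h : ∀ p ∈ c.support, φ p = 0) :
    ev φ c = 0 := by
  rw [ev_congr φ (fun _ => 0) c h, ev, Finsupp.linearCombination_apply]
  simp

theorem ev_tr {β : Type*} (φ : G × β → ℤ) (g : G) (c : G × β →₀ ℤ) :
    ev φ (tr g c) = ev (fun p => φ (g * p.1, p.2)) c := by
  rw [ev, ev, tr, Finsupp.lmapDomain_apply, Finsupp.linearCombination_mapDomain]
  rfl

theorem mem_support_tr {β : Type*} (g : G) (c : G × β →₀ ℤ) (p : G × β)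
    (hp : p ∈ (tr g c).support) : ∃ q ∈ c.support, p = (g * q.1, q.2) := by
  classical
  have h := Finsupp.mapDomain_support (f := fun p : G × β => (g * p.1, p.2)) (s := c) hp
  rw [Finset.mem_image] at h
  obtain ⟨q, hq, rfl⟩ := h
  exact ⟨q, hq, rfl⟩

end Eval

section Ladder

variable {G : Type*} [Group G] {α : Type*} [DecidableEq α]

/-- chosen path from `a` to `b` -/
noncomputable def gam (ι : α → G) (W : G → List (α × Bool)) (a b : G) : G × α →₀ ℤ :=
  pathChain ι a (W (a⁻¹ * b))

theorem exists_fill {ι : α → G} {rels : Set (FreeGroup α)} (hp : Presents ι rels)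
    (W : G → List (α × Bool)) (hW : ∀ g, wprod ι (W g) = g) (u v : G) :
    ∃ t : G × rels →₀ ℤ, boundary₂ ι rels t = gam ι W 1 u + gam ι W u v - gam ι W 1 v := by
  have h1 : FreeGroup.lift ι (FreeGroup.mk (W u) * FreeGroup.mk (W (u⁻¹ * v)) *
      (FreeGroup.mk (W v))⁻¹) = 1 := by
    rw [map_mul, map_mul, map_inv, lift_mk_eq, lift_mk_eq, lift_mk_eq, hW, hW, hW]
    group
  obtain ⟨t, ht⟩ := mem_range_of_lift_eq_one hp _ h1 1
  refine ⟨t, ht.trans ?_⟩
  rw [fchain_mul, fchain_mul, fchain_inv, map_mul, lift_mk_eq, lift_mk_eq, lift_mk_eq, hW, hW, hW,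
    fchain_mk, fchain_mk, fchain_mk, gam, gam, gam]
  simp only [one_mul, inv_one, mul_inv_cancel_left, mul_inv_cancel]
  abel

/-- filling of the triangle `a, b, c` -/
noncomputable def fil {rels : Set (FreeGroup α)} (T : G → G → (G × rels →₀ ℤ)) (a b c : G) :
    G × rels →₀ ℤ := tr a (T (a⁻¹ * b) (a⁻¹ * c))

theorem boundary₂_fil {ι : α → G} {rels : Set (FreeGroup α)} (W : G → List (α × Bool))
    (T : G → G → (G × rels →₀ ℤ))
    (hT : ∀ u v, boundary₂ ι rels (T u v) = gam ι W 1 u + gam ι W u v - gam ι W 1 v) (a b c : G) :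
    boundary₂ ι rels (fil T a b c) = gam ι W a b + gam ι W b c - gam ι W a c := by
  rw [fil, boundary₂_tr, hT, map_sub, map_add, gam, gam, gam, tr_pathChain, tr_pathChain,
    tr_pathChain, gam, gam, gam]
  simp [mul_assoc]

/-- the ladder 2-chain between the descending paths of `x` and `y`, of height `m` -/
noncomputable def lad {rels : Set (FreeGroup α)} (T : G → G → (G × rels →₀ ℤ)) (par : G → G)
    (m : ℕ) (x y : G) : G × rels →₀ ℤ :=
  ∑ j ∈ Finset.range m, (fil T (par^[j] x) (par^[j] y) (par^[j+1] y) -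
    fil T (par^[j] x) (par^[j+1] x) (par^[j+1] y))

/-- descending path -/
noncomputable def dsc (ι : α → G) (W : G → List (α × Bool)) (par : G → G) (m : ℕ) (x : G) :
    G × α →₀ ℤ := ∑ j ∈ Finset.range m, gam ι W (par^[j] x) (par^[j+1] x)

theorem boundary₂_lad {ι : α → G} {rels : Set (FreeGroup α)} (W : G → List (α × Bool))
    (T : G → G → (G × rels →₀ ℤ))
    (hT : ∀ u v, boundary₂ ι rels (T u v) = gam ι W 1 u + gam ι W u v - gam ι W 1 v)
    (par : G → G) (m : ℕ) (x y : G) :
    boundary₂ ι rels (lad T par m x y) =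
      gam ι W x y - gam ι W (par^[m] x) (par^[m] y) + dsc ι W par m y - dsc ι W par m x := by
  have h1 : boundary₂ ι rels (lad T par m x y) =
      ∑ j ∈ Finset.range m, ((gam ι W (par^[j] x) (par^[j] y) -
        gam ι W (par^[j+1] x) (par^[j+1] y)) + (gam ι W (par^[j] y) (par^[j+1] y) -
        gam ι W (par^[j] x) (par^[j+1] x))) := by
    rw [lad, map_sum]
    refine Finset.sum_congr rfl fun j _ => ?_
    rw [map_sub, boundary₂_fil W T hT, boundary₂_fil W T hT]
    abel
  rw [h1, Finset.sum_add_distrib, Finset.sum_range_sub', Finset.sum_sub_distrib, dsc, dsc]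
  simp only [Function.iterate_zero, id_eq]
  abel

omit [DecidableEq α] in
theorem iter_len {ι : α → G} (par : G → G)
    (hpar : ∀ x, x ≠ 1 → wlen (Set.range ι) (par x) + 1 = wlen (Set.range ι) x ∧
      wdist (Set.range ι) x (par x) = 1) (x : G) (j : ℕ) (hj : j ≤ wlen (Set.range ι) x) :
    wlen (Set.range ι) (par^[j] x) + j = wlen (Set.range ι) x := by
  induction j with
  | zero => simp
  | succ j ih =>
    have h1 := ih (by omega)
    have h2 : par^[j] x ≠ 1 := by
      intro h
      rw [h, wlen_one] at h1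
      omega
    have h3 := (hpar _ h2).1
    rw [Function.iterate_succ_apply']
    omega

omit [DecidableEq α] in
theorem iter_dist {ι : α → G} (hs : Function.Surjective (FreeGroup.lift ι)) (par : G → G)
    (hpar : ∀ x, x ≠ 1 → wlen (Set.range ι) (par x) + 1 = wlen (Set.range ι) x ∧
      wdist (Set.range ι) x (par x) = 1) (x : G) (j : ℕ) (hj : j ≤ wlen (Set.range ι) x) :
    wdist (Set.range ι) x (par^[j] x) ≤ j := by
  induction j with
  | zero => simp [wdist_self]
  | succ j ih =>
    have h1 := ih (by omega)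
    have h0 := iter_len par hpar x j (by omega)
    have h2 : par^[j] x ≠ 1 := by
      intro h
      rw [h, wlen_one] at h0
      omega
    have h3 := (hpar _ h2).2
    rw [Function.iterate_succ_apply']
    have h4 := wdist_tri hs x (par^[j] x) (par (par^[j] x))
    omega

theorem ev_boundary₂ (ι : α → G) (rels : Set (FreeGroup α)) (φ : G × α → ℤ)
    (c : G × rels →₀ ℤ) :
    ev φ (boundary₂ ι rels c) = ev (fun p : G × rels => ev φ (fchain ι p.1 (p.2 : FreeGroup α))) c := by
  induction c using Finsupp.induction_linear with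
  | zero => simp
  | add a b ha hb => simp [map_add, ha, hb]
  | single p v =>
    obtain ⟨g, r⟩ := p
    rw [boundary₂_single, ev_single, map_zsmul, smul_eq_mul]

end Ladder

end CE

open CE in
theorem circle_extension {G : Type*} [Group G] {α : Type*} [Finite α] [DecidableEq α]
    (ι : α → G) (rels : Set (FreeGroup α)) (hfin : rels.Finite) (hpres : Presents ι rels)
    (hinj : Function.Injective (boundary₂ ι rels))
    (par : G → G)
    (hpar : ∀ x, x ≠ 1 → wlen (Set.range ι) (par x) + 1 = wlen (Set.range ι) x ∧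
      wdist (Set.range ι) x (par x) = 1)
    (ρ₀ : ℕ)
    -- ladders stay close
    (hlad : ∀ x y k, k ≤ wlen (Set.range ι) x → k ≤ wlen (Set.range ι) y →
      wdist (Set.range ι) (anc (wlen (Set.range ι)) par k x) (anc (wlen (Set.range ι)) par k y)
        ≤ wdist (Set.range ι) x y + ρ₀) (ρ : ℕ) :
    ∃ c C B : ℕ, ∀ n, c ≤ n → ∀ e : G → ZMod 3, ∃ Δ : G → G → ℤ,
      (∀ x y, wlen (Set.range ι) x = n → wlen (Set.range ι) y = n →
        wdist (Set.range ι) x y ≤ ρ → ((Δ x y : ℤ) : ZMod 3) = e y - e x ∧ |Δ x y| ≤ B) ∧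
      (∀ x y z, wlen (Set.range ι) x = n → wlen (Set.range ι) y = n → wlen (Set.range ι) z = n →
        wdist (Set.range ι) x y ≤ ρ → wdist (Set.range ι) y z ≤ ρ → wdist (Set.range ι) x z ≤ ρ →
        Δ x y + Δ y z = Δ x z) ∧
      (∀ (i : ZMod 3) (x : G), wlen (Set.range ι) x = n →
        (∀ v, n ≤ wlen (Set.range ι) v + c → wdist (Set.range ι) x v ≤ C → e v ≠ i) →
        ∀ y, wlen (Set.range ι) y = n → wdist (Set.range ι) x y ≤ ρ →
          Δ x y = arc i (e y) - arc i (e x)) := by
  classical
  have hs := hpres.1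
  -- chosen words
  choose W hWl hW using fun g => exists_word hs g
  choose T hT using fun u v => exists_fill hpres W hW u v
  -- constants
  set R : ℕ := ρ + ρ₀ + 1 with hR
  have hball := ball_finite hs R
  obtain ⟨K, hK⟩ : ∃ K : ℕ, ∀ u v, wlen (Set.range ι) u ≤ R → wlen (Set.range ι) v ≤ R →
      ∀ p ∈ (T u v).support, wlen (Set.range ι) p.1 ≤ K := by
    have := ((hball.prod hball).image
      (fun q : G × G => (T q.1 q.2).support.sup (fun p => wlen (Set.range ι) p.1))).bddAbove
    obtain ⟨K, hK⟩ := this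
    refine ⟨K, fun u v hu hv p hp => ?_⟩
    have h1 := hK ⟨(u, v), ⟨hu, hv⟩, rfl⟩
    exact (Finset.le_sup (f := fun p : G × rels => wlen (Set.range ι) p.1) hp).trans h1
  obtain ⟨N, hN⟩ : ∃ N : ℤ, ∀ u v, wlen (Set.range ι) u ≤ R → wlen (Set.range ι) v ≤ R →
      nrm (T u v) ≤ N := by
    have := ((hball.prod hball).image (fun q : G × G => nrm (T q.1 q.2))).bddAbove
    obtain ⟨N, hN⟩ := this
    exact ⟨N, fun u v hu hv => hN ⟨(u, v), ⟨hu, hv⟩, rfl⟩⟩
  obtain ⟨M, hM⟩ : ∃ M : ℕ, ∀ r ∈ rels, r.toWord.length ≤ M := by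
    obtain ⟨M, hM⟩ := (hfin.image (fun r : FreeGroup α => r.toWord.length)).bddAbove
    exact ⟨M, fun r hr => hM ⟨r, hr, rfl⟩⟩
  have hN0 : 0 ≤ N := by
    have h := hN 1 1 (by rw [wlen_one]; omega) (by rw [wlen_one]; omega)
    have h2 : 0 ≤ nrm (T 1 1) := Finset.sum_nonneg fun _ _ => abs_nonneg _
    omega
  set m : ℕ := 2 * K + 1 with hm
  refine ⟨m + K + M + ρ, m + K + M + ρ, (ρ + m * (2 * (M * N))).toNat, fun n hn e => ?_⟩
  set D := dd ι e with hD
  set w : G × rels → ℤ := fun p => ev D (fchain ι p.1 (p.2 : FreeGroup α)) with hw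
  set wh : G × rels → ℤ := fun p => if n ≤ wlen (Set.range ι) p.1 + K then w p else 0 with hwh
  have hlift : ∀ r ∈ rels, FreeGroup.lift ι r = 1 := by
    intro r hr
    have : r ∈ (FreeGroup.lift ι).ker := by
      rw [hpres.2]; exact Subgroup.subset_normalClosure hr
    exact this
  have hw3 : ∀ p, ((w p : ℤ) : ZMod 3) = 0 := by
    intro p
    rw [hw]
    simp only
    rw [← fchain_toWord, hD, ev_path_cast, ← lift_mk_eq, FreeGroup.mk_toWord, hlift _ p.2.2]
    simp
  have hwh3 : ∀ p, ((wh p : ℤ) : ZMod 3) = 0 := by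
    intro p
    rw [hwh]
    simp only
    split_ifs
    · exact hw3 p
    · simp
  have hwM : ∀ p, |w p| ≤ M := by
    intro p
    rw [hw]
    simp only
    rw [← fchain_toWord]
    refine (ev_path_abs ι D (dd_abs ι e) _ _).trans ?_
    exact_mod_cast hM _ p.2.2
  have hwhM : ∀ p, |wh p| ≤ M := by
    intro p
    rw [hwh]
    simp only
    split_ifs
    · exact hwM p
    · simp
  -- distance facts
  have hd : ∀ x y j, wlen (Set.range ι) x = n → wlen (Set.range ι) y = n → j ≤ n →
      wdist (Set.range ι) x y ≤ ρ →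
      wdist (Set.range ι) (par^[j] x) (par^[j] y) ≤ ρ + ρ₀ := by
    intro x y j hx hy hj hxy
    have := hlad x y (n - j) (by omega) (by omega)
    rw [anc, anc, hx, hy, Nat.sub_sub_self hj] at this
    omega
  have hp1 : ∀ x j, wlen (Set.range ι) x = n → j < n →
      wdist (Set.range ι) (par^[j] x) (par^[j+1] x) ≤ 1 := by
    intro x j hx hj
    have h0 := iter_len par hpar x j (by omega)
    have h2 : par^[j] x ≠ 1 := by
      intro h
      rw [h, wlen_one] at h0
      omega
    rw [Function.iterate_succ_apply']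
    exact (hpar _ h2).2.le
  have hd1 : ∀ x y j, wlen (Set.range ι) x = n → wlen (Set.range ι) y = n → j < n →
      wdist (Set.range ι) x y ≤ ρ →
      wdist (Set.range ι) (par^[j] x) (par^[j+1] y) ≤ R := by
    intro x y j hx hy hj hxy
    have h1 := hd x y j hx hy hj.le hxy
    have h2 := hp1 y j hy hj
    have h3 := wdist_tri hs (par^[j] x) (par^[j] y) (par^[j+1] y)
    omega
  -- support of the fillings
  have hsup : ∀ a b c, wdist (Set.range ι) a b ≤ R → wdist (Set.range ι) a c ≤ R →
      ∀ p ∈ (fil T a b c).support, wdist (Set.range ι) a p.1 ≤ K := by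
    intro a b c hab hac p hp
    obtain ⟨q, hq, rfl⟩ := mem_support_tr a _ p hp
    rw [wdist, inv_mul_cancel_left]
    exact hK _ _ hab hac q hq
  have hevfil : ∀ a b c, wdist (Set.range ι) a b ≤ R → wdist (Set.range ι) a c ≤ R →
      |ev wh (fil T a b c)| ≤ M * N := by
    intro a b c hab hac
    rw [fil, ev_tr]
    refine (ev_abs_le _ M (fun p => hwhM _) _).trans ?_
    exact mul_le_mul_of_nonneg_left (hN _ _ hab hac) (by positivity)
  refine ⟨fun x y => ev D (gam ι W x y) - ev wh (lad T par m x y), ?_, ?_, ?_⟩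
  · intro x y hx hy hxy
    constructor
    · rw [Int.cast_sub, ev_cast_zero wh hwh3, gam, hD, ev_path_cast, hW, mul_inv_cancel_left,
        sub_zero]
    · have h1 : |ev D (gam ι W x y)| ≤ ρ := by
        refine (ev_path_abs ι D (dd_abs ι e) _ _).trans ?_
        rw [hWl]
        exact_mod_cast hxy
      have h2 : |ev wh (lad T par m x y)| ≤ m * (2 * (M * N)) := by
        rw [lad, map_sum]
        refine (Finset.abs_sum_le_sum_abs _ _).trans ?_
        have h3 : ∀ j ∈ Finset.range m, |ev wh (fil T (par^[j] x) (par^[j] y) (par^[j+1] y) -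
            fil T (par^[j] x) (par^[j+1] x) (par^[j+1] y))| ≤ 2 * (M * N) := by
          intro j hj
          rw [Finset.mem_range] at hj
          have hjn : j < n := by omega
          have hA := hd x y j hx hy hjn.le hxy
          have hB := hd1 x y j hx hy hjn hxy
          have hC := hp1 x j hx hjn
          rw [map_sub]
          refine (abs_sub _ _).trans ?_
          have h4 := hevfil (par^[j] x) (par^[j] y) (par^[j+1] y) (by omega) hB
          have h5 := hevfil (par^[j] x) (par^[j+1] x) (par^[j+1] y) (by omega) hB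
          linarith
        refine (Finset.sum_le_sum h3).trans ?_
        rw [Finset.sum_const, Finset.card_range, nsmul_eq_mul]
      have h6 : (0 : ℤ) ≤ ρ + m * (2 * (M * N)) := by positivity
      rw [Int.toNat_of_nonneg h6]
      exact (abs_sub _ _).trans (add_le_add h1 h2)
  · intro x y z hx hy hz hxy hyz hxz
    have key : lad T par m x y + lad T par m y z - lad T par m x z =
        fil T x y z - fil T (par^[m] x) (par^[m] y) (par^[m] z) := by
      apply hinj
      rw [map_sub, map_add, map_sub, boundary₂_lad W T hT, boundary₂_lad W T hT,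
        boundary₂_lad W T hT, boundary₂_fil W T hT, boundary₂_fil W T hT]
      abel
    have hmn : m ≤ n := by omega
    have htop : ev wh (fil T x y z) = ev w (fil T x y z) := by
      refine ev_congr _ _ _ fun p hp => ?_
      have h1 := hsup x y z (by omega) (by omega) p hp
      have h2 := wlen_le_add hs p.1 x
      rw [wdist_comm hs] at h2
      rw [hwh]
      simp only
      rw [if_pos (by omega)]
    have hbot : ev wh (fil T (par^[m] x) (par^[m] y) (par^[m] z)) = 0 := by
      refine ev_eq_zero _ _ fun p hp => ?_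
      have hA := hd x y m hx hy hmn hxy
      have hB := hd x z m hx hz hmn hxz
      have h1 := hsup _ _ _ (by omega) (by omega) p hp
      have h2 := wlen_le_add hs (par^[m] x) p.1
      have h3 := iter_len par hpar x m (by omega)
      rw [hwh]
      simp only
      rw [if_neg (by omega)]
    have hev : ev wh (lad T par m x y) + ev wh (lad T par m y z) - ev wh (lad T par m x z) =
        ev w (fil T x y z) := by
      rw [← map_add, ← map_sub, key, map_sub, htop, hbot, sub_zero]
    have hev2 : ev D (gam ι W x y) + ev D (gam ι W y z) - ev D (gam ι W x z) =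
        ev w (fil T x y z) := by
      rw [← map_add, ← map_sub, ← boundary₂_fil W T hT, ev_boundary₂]
    linarith
  · intro i x hx hv y hy hxy
    -- all relevant vertices avoid the label `i`
    have hpath : ev D (gam ι W x y) = arc i (e y) - arc i (e x) := by
      have h1 := ev_path ι D (fun v => arc i (e v)) (fun v => e v ≠ i)
        (fun g a h1 h2 => dd_arc ι e i g a h1 h2) (W (x⁻¹ * y)) x ?_
      · rw [gam, h1, hW, mul_inv_cancel_left]
      · intro j hj
        have h2 := wdist_mul_right_le ι x ((W (x⁻¹ * y)).take j)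
        have h3 : (List.take j (W (x⁻¹ * y))).length ≤ ρ := by
          rw [List.length_take]
          have : (W (x⁻¹ * y)).length ≤ ρ := by rw [hWl]; exact hxy
          omega
        have h4 := wlen_le_add hs (x * wprod ι ((W (x⁻¹ * y)).take j)) x
        rw [wdist_comm hs] at h4
        exact hv _ (by omega) (by omega)
    have hcell : ∀ p : G × rels, wdist (Set.range ι) x p.1 ≤ m + K → wh p = 0 := by
      intro p hp
      rw [hwh]
      simp only
      split_ifs with hnp
      · rw [hw]
        simp only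
        rw [← fchain_toWord]
        have h1 := ev_path ι D (fun v => arc i (e v)) (fun v => e v ≠ i)
          (fun g a h1 h2 => dd_arc ι e i g a h1 h2) (p.2 : FreeGroup α).toWord p.1 ?_
        · rw [h1, ← lift_mk_eq, FreeGroup.mk_toWord, hlift _ p.2.2, mul_one, sub_self]
        · intro j hj
          have h2 := wdist_mul_right_le ι p.1 ((p.2 : FreeGroup α).toWord.take j)
          have h3 : (List.take j (p.2 : FreeGroup α).toWord).length ≤ M := by
            rw [List.length_take]
            have := hM _ p.2.2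
            omega
          have h4 := wlen_le_add hs (p.1 * wprod ι ((p.2 : FreeGroup α).toWord.take j)) p.1
          rw [wdist_comm hs] at h4
          have h5 := wdist_tri hs x p.1 (p.1 * wprod ι ((p.2 : FreeGroup α).toWord.take j))
          exact hv _ (by omega) (by omega)
      · rfl
    have hlad0 : ev wh (lad T par m x y) = 0 := by
      rw [lad, map_sum]
      refine Finset.sum_eq_zero fun j hj => ?_
      rw [Finset.mem_range] at hj
      have hjn : j < n := by omega
      have hA := hd x y j hx hy hjn.le hxy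
      have hB := hd1 x y j hx hy hjn hxy
      have hC := hp1 x j hx hjn
      have hE := iter_dist hs par hpar x j (by omega)
      have h4 : ∀ b c, wdist (Set.range ι) (par^[j] x) b ≤ R →
          wdist (Set.range ι) (par^[j] x) c ≤ R → ev wh (fil T (par^[j] x) b c) = 0 := by
        intro b c hb hc
        refine ev_eq_zero _ _ fun p hp => hcell p ?_
        have h5 := hsup _ _ _ hb hc p hp
        have h6 := wdist_tri hs x (par^[j] x) p.1
        omega
      rw [map_sub, h4 _ _ (by omega) hB, h4 _ _ (by omega) hB, sub_zero]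
    simp only
    rw [hpath, hlad0, sub_zero]

end Pool.Agent.Lib.MP_944cb0_gt
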