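import Pool.Agent.Lib.MP_944cb0_gt.Wedge3

/-!
The contraction theorem: finite connected pieces of a complex with a suitable level function are
null-homotopic.
-/

set_option autoImplicit false

namespace Pool.Agent.Lib.MP_944cb0_gt

open Finset

variable {V V' : Type*}

/-- adjacency in a complex -/
def Adjc (K : Set (Finset V)) (x y : V) : Prop := ∃ s ∈ K, x ∈ s ∧ y ∈ s

theorem Adjc.symm {K : Set (Finset V)} {x y : V} (h : Adjc K x y) : Adjc K y x := by
  obtain ⟨s, hs, hx, hy⟩ := h
  exact ⟨s, hs, hy, hx⟩

/-- connectedness of a finite set of vertices -/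
def Conn (K : Set (Finset V)) (F : Finset V) : Prop :=
  ∀ A ⊆ F, A.Nonempty → (∀ x ∈ A, ∀ y ∈ F, Adjc K x y → y ∈ A) → A = F

open Classical in
/-- local structure of the complex at a vertex -/
def GoodAt (K : Set (Finset V)) (ℓ : V → ℕ) (v : V) : Prop :=
  (∃ u, ℓ u < ℓ v ∧ ∀ s ∈ K, v ∈ s → (∀ x ∈ s, ℓ x ≤ ℓ v) → insert u s ∈ K) ∨
  (∃ κ : V → V, (∀ s ∈ K, v ∈ s → (∀ x ∈ s, ℓ x ≤ ℓ v) → ∀ x ∈ s, x ≠ v →
      insert (κ x) s ∈ K ∧ (κ x = x ∨ ℓ (κ x) < ℓ v) ∧ ∀ y ∈ s, y ≠ v → κ y = κ x) ∧
    ∀ u, ∃ f : V → ℤ, (∀ x y, x ≠ v → y ≠ v → ℓ x ≤ ℓ v → ℓ y ≤ ℓ v → Adjc K x y → f x = f y) ∧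
      (∀ x, x ≠ v → ℓ x ≤ ℓ v → Adjc K v x → f x = f v + if κ x = u then 1 else 0))

open Classical in
theorem Conn.move {K : Set (Finset V)} (hdown : ∀ s ∈ K, ∀ t ⊆ s, t.Nonempty → t ∈ K)
    {F : Finset V} {v u : V} (hv : v ∈ F)
    (h1 : ∀ s ∈ K, v ∈ s → s ⊆ F → insert u s ∈ K) (hF : Conn K F) :
    Conn K (insert u (F.erase v)) := by
  intro A hA hne hcl
  set r : V → V := fun x => if x = v then u else x with hrdef
  have hrF : ∀ x ∈ F, r x ∈ insert u (F.erase v) := by
    intro x hx
    simp only [hrdef]
    split_ifs with h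
    · exact mem_insert_self _ _
    · exact mem_insert_of_mem (mem_erase.2 ⟨h, hx⟩)
  have hadj : ∀ x ∈ F, ∀ y ∈ F, Adjc K x y → Adjc K (r x) (r y) := by
    intro x hx y hy hxy
    obtain ⟨s, hs, hxs, hys⟩ := hxy
    have hp : ({x, y} : Finset V) ∈ K := hdown s hs _ (by
      intro z hz; rw [mem_insert, mem_singleton] at hz
      rcases hz with rfl | rfl <;> assumption) ⟨x, mem_insert_self _ _⟩
    have hpF : ({x, y} : Finset V) ⊆ F := by
      intro z hz; rw [mem_insert, mem_singleton] at hz
      rcases hz with rfl | rfl <;> assumption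
    by_cases hvs : v ∈ ({x, y} : Finset V)
    · refine ⟨_, h1 _ hp hvs hpF, ?_, ?_⟩
      · simp only [hrdef]; split_ifs <;> simp
      · simp only [hrdef]; split_ifs <;> simp
    · have hxv : x ≠ v := by rintro rfl; exact hvs (mem_insert_self _ _)
      have hyv : y ≠ v := by rintro rfl; exact hvs (by simp)
      simp only [hrdef, if_neg hxv, if_neg hyv]
      exact ⟨s, hs, hxs, hys⟩
  have hB : F.filter (fun x => r x ∈ A) = F := by
    apply hF _ (filter_subset _ _)
    · obtain ⟨y, hy⟩ := hne
      rcases mem_insert.1 (hA hy) with rfl | hy'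
      · exact ⟨v, mem_filter.2 ⟨hv, by simpa [hrdef] using hy⟩⟩
      · rw [mem_erase] at hy'
        exact ⟨y, mem_filter.2 ⟨hy'.2, by simpa [hrdef, hy'.1] using hy⟩⟩
    · intro x hx y hy hxy
      rw [mem_filter] at hx ⊢
      exact ⟨hy, hcl _ hx.2 _ (hrF y hy) (hadj x hx.1 y hy hxy)⟩
  apply Subset.antisymm hA
  intro y hy
  rcases mem_insert.1 hy with rfl | hy'
  · have : v ∈ F.filter (fun x => r x ∈ A) := by rw [hB]; exact hv
    simpa [hrdef] using (mem_filter.1 this).2
  · rw [mem_erase] at hy'
    have : y ∈ F.filter (fun x => r x ∈ A) := by rw [hB]; exact hy'.2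
    simpa [hrdef, hy'.1] using (mem_filter.1 this).2

open Classical in
theorem Conn.wedge {K : Set (Finset V)} {F A B : Finset V} {v : V}
    (hF : F = insert v (A ∪ B)) (hdisj : Disjoint A B) (hAB : ∀ x ∈ A, ∀ y ∈ B, ¬ Adjc K x y)
    (hC : Conn K F) : Conn K (insert v A) := by
  intro D hD hne hcl
  by_cases hvD : v ∈ D
  · have h1 : D ∪ B = F := by
      apply hC
      · rw [hF]
        intro x hx
        rcases mem_union.1 hx with h | h
        · rcases mem_insert.1 (hD h) with h | h
          · rw [h]; exact mem_insert_self _ _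
          · exact mem_insert_of_mem (mem_union_left _ h)
        · exact mem_insert_of_mem (mem_union_right _ h)
      · exact hne.mono subset_union_left
      · intro x hx y hy hxy
        rw [hF] at hy
        rcases mem_insert.1 hy with rfl | hy
        · exact mem_union_left _ hvD
        · rcases mem_union.1 hy with hyA | hyB
          · rcases mem_union.1 hx with hxD | hxB
            · exact mem_union_left _ (hcl x hxD y (mem_insert_of_mem hyA) hxy)
            · exact absurd hxy.symm (hAB y hyA x hxB)
          · exact mem_union_right _ hyB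
    apply Subset.antisymm hD
    intro x hx
    rcases mem_insert.1 hx with rfl | hxA
    · exact hvD
    · have : x ∈ D ∪ B := by rw [h1, hF]; exact mem_insert_of_mem (mem_union_left _ hxA)
      rcases mem_union.1 this with h | h
      · exact h
      · exact absurd h (Finset.disjoint_left.1 hdisj hxA)
  · exfalso
    have h1 : D = F := by
      apply hC
      · rw [hF]
        intro x hx
        rcases mem_insert.1 (hD hx) with h | h
        · rw [h]; exact mem_insert_self _ _
        · exact mem_insert_of_mem (mem_union_left _ h)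
      · exact hne
      · intro x hx y hy hxy
        have hxA : x ∈ A := by
          rcases mem_insert.1 (hD hx) with h | h
          · rw [h] at hx; exact absurd hx hvD
          · exact h
        rw [hF] at hy
        rcases mem_insert.1 hy with rfl | hy
        · exact hcl x hx _ (mem_insert_self _ _) hxy
        · rcases mem_union.1 hy with hyA | hyB
          · exact hcl x hx y (mem_insert_of_mem hyA) hxy
          · exact absurd hxy (hAB x hxA y hyB)
    apply hvD
    rw [h1, hF]
    exact mem_insert_self _ _

open Classical in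
theorem contract (K : Set (Finset V)) (hdown : ∀ s ∈ K, ∀ t ⊆ s, t.Nonempty → t ∈ K)
    (hne : ∀ s ∈ K, s.Nonempty) (K' : Set (Finset V')) (θ : V → V')
    (hθ : ∀ s ∈ K, ∃ s' ∈ K', ∀ x ∈ s, θ x ∈ s') (ℓ : V → ℕ)
    (hgood : ∀ v, {v} ∈ K → GoodAt K ℓ v) :
    ∀ F : Finset V, F.Nonempty → Conn K F → (∀ v ∈ F, {v} ∈ K) →
      (jmap K F K' θ (fun s hs _ => hθ s hs)).Nullhomotopic := by
  suffices H : ∀ n : ℕ, ∀ F : Finset V, ∑ v ∈ F, (ℓ v + 1) = n → F.Nonempty → Conn K F →
      (∀ v ∈ F, {v} ∈ K) → (jmap K F K' θ (fun s hs _ => hθ s hs)).Nullhomotopic from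
    fun F => H _ F rfl
  intro n
  induction n using Nat.strong_induction_on with
  | _ n ih =>
  intro F hn hFne hC hsing
  obtain ⟨v, hvF, hmax⟩ := exists_max_image F ℓ hFne
  -- the elementary move
  have hmove : ∀ u, (u ∈ F.erase v ∨ ℓ u < ℓ v) →
      (∀ s ∈ K, v ∈ s → s ⊆ F → insert u s ∈ K) →
      (jmap K F K' θ (fun s hs _ => hθ s hs)).Nullhomotopic := by
    intro u hu h1
    apply step_move K hdown hne K' θ hθ F v u h1
    have hu' : {u} ∈ K := hdown _ (h1 {v} (hsing v hvF) (mem_singleton_self _)
      (singleton_subset_iff.2 hvF)) _ (by simp) (singleton_nonempty u)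
    have hlt : ∑ x ∈ insert u (F.erase v), (ℓ x + 1) < n := by
      have h2 := Finset.add_sum_erase F (fun x => ℓ x + 1) hvF
      by_cases h3 : u ∈ F.erase v
      · rw [insert_eq_of_mem h3]; omega
      · rw [sum_insert h3]
        have h4 : ℓ u < ℓ v := by tauto
        omega
    refine ih _ hlt _ rfl (insert_nonempty _ _) (hC.move hdown hvF h1) ?_
    intro x hx
    rcases mem_insert.1 hx with rfl | hx
    · exact hu'
    · exact hsing x (mem_of_mem_erase hx)
  rcases hgood v (hsing v hvF) with ⟨u, hu, hu'⟩ | ⟨κ, hκ, hf⟩
  · exact hmove u (Or.inr hu) fun s hs hvs hsF => hu' s hs hvs fun x hx => hmax x (hsF hx)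
  · by_cases hFv : F = {v}
    · -- a single vertex
      subst hFv
      have : jmap K {v} K' θ (fun s hs _ => hθ s hs) = ContinuousMap.const _
          (jmap K {v} K' θ (fun s hs _ => hθ s hs) (vtx K {v} v (hsing v hvF) hvF)) := by
        ext1 p
        apply Rl.ext
        intro w
        rw [ContinuousMap.const_apply, jmap_apply, jmap_apply, sum_singleton, sum_singleton]
        have hp : p.1 v = 1 := by
          have := Rl.sum_of_subset p {v} fun w hw => p.eq_zero_of_KF hw
          rwa [sum_singleton] at this
        rw [hp]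
        simp [vtx]
      rw [this]
      exact ContinuousMap.nullhomotopic_of_constant _
    · obtain ⟨w1, hw1F, hw1v, hw1⟩ : ∃ w1 ∈ F, w1 ≠ v ∧ Adjc K v w1 := by
        by_contra hcon
        push Not at hcon
        apply hFv
        symm
        apply hC _ (singleton_subset_iff.2 hvF) (singleton_nonempty v)
        intro x hx y hy hxy
        rw [mem_singleton] at hx ⊢
        subst hx
        by_contra hne'
        exact hcon y hy hne' hxy
      have hpair : ∀ w ∈ F, Adjc K v w → ({v, w} : Finset V) ∈ K := by
        intro w hw ⟨s, hs, hvs, hws⟩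
        exact hdown s hs _ (by
          intro z hz; rw [mem_insert, mem_singleton] at hz
          rcases hz with rfl | rfl <;> assumption) ⟨v, mem_insert_self _ _⟩
      by_cases hall : ∀ w ∈ F, w ≠ v → Adjc K v w → κ w = κ w1
      · have hκ1 := hκ _ (hpair w1 hw1F hw1) (mem_insert_self _ _) (by
          intro x hx; rw [mem_insert, mem_singleton] at hx
          rcases hx with rfl | rfl
          · exact le_rfl
          · exact hmax _ hw1F) w1 (by simp) hw1v
        apply hmove (κ w1)
        · rcases hκ1.2.1 with h | h
          · left; rw [h]; exact mem_erase.2 ⟨hw1v, hw1F⟩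
          · right; exact h
        · intro s hs hvs hsF
          by_cases hsv : ∃ x ∈ s, x ≠ v
          · obtain ⟨x, hx, hxv⟩ := hsv
            have h2 := hκ s hs hvs (fun x hx => hmax x (hsF hx)) x hx hxv
            rw [← hall x (hsF hx) hxv ⟨s, hs, hvs, hx⟩]
            exact h2.1
          · push Not at hsv
            have hs' : s = {v} := by
              apply Subset.antisymm
              · intro x hx; rw [mem_singleton]; exact hsv x hx
              · exact singleton_subset_iff.2 hvs
            subst hs'
            refine hdown _ hκ1.1 _ ?_ (insert_nonempty _ _)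
            intro x hx
            rw [mem_insert, mem_singleton] at hx
            rcases hx with rfl | rfl <;> simp
      · push Not at hall
        obtain ⟨w2, hw2F, hw2v, hw2, hκ2⟩ := hall
        obtain ⟨f, hf1, hf2⟩ := hf (κ w1)
        set A := F.filter (fun x => x ≠ v ∧ f x = f v + 1) with hA
        set B := F.filter (fun x => x ≠ v ∧ f x ≠ f v + 1) with hB
        have hFAB : F = insert v (A ∪ B) := by
          ext x
          rw [mem_insert, mem_union, hA, hB, mem_filter, mem_filter]
          constructor
          · intro hx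
            by_cases h1 : x = v
            · left; exact h1
            · right
              by_cases h2 : f x = f v + 1
              · left; exact ⟨hx, h1, h2⟩
              · right; exact ⟨hx, h1, h2⟩
          · rintro (rfl | h | h)
            · exact hvF
            · exact h.1
            · exact h.1
        have hvA : v ∉ A := by rw [hA, mem_filter]; tauto
        have hvB : v ∉ B := by rw [hB, mem_filter]; tauto
        have hdisj : Disjoint A B := by
          rw [Finset.disjoint_left]
          intro x hxA hxB
          rw [hA, mem_filter] at hxA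
          rw [hB, mem_filter] at hxB
          exact hxB.2.2 hxA.2.2
        have hnoadj : ∀ x ∈ A, ∀ y ∈ B, ¬ Adjc K x y := by
          intro x hxA y hyB hxy
          rw [hA, mem_filter] at hxA
          rw [hB, mem_filter] at hyB
          apply hyB.2.2
          rw [← hf1 x y hxA.2.1 hyB.2.1 (hmax x hxA.1) (hmax y hyB.1) hxy]
          exact hxA.2.2
        have hsplit : ∀ s ∈ K, s ⊆ F → s ⊆ insert v A ∨ s ⊆ insert v B := by
          intro s hs hsF
          by_cases hex : ∃ x ∈ s, x ∈ A
          · left
            obtain ⟨x, hx, hxA⟩ := hex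
            intro y hy
            have hyF := hsF hy
            rw [hFAB, mem_insert, mem_union] at hyF
            rcases hyF with rfl | h | h
            · exact mem_insert_self _ _
            · exact mem_insert_of_mem h
            · exact absurd ⟨s, hs, hx, hy⟩ (hnoadj x hxA y h)
          · right
            push Not at hex
            intro y hy
            have hyF := hsF hy
            rw [hFAB, mem_insert, mem_union] at hyF
            rcases hyF with rfl | h | h
            · exact mem_insert_self _ _
            · exact absurd h (hex y hy)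
            · exact mem_insert_of_mem h
        have hw1A : w1 ∈ A := by
          rw [hA, mem_filter]
          refine ⟨hw1F, hw1v, ?_⟩
          rw [hf2 w1 hw1v (hmax w1 hw1F) hw1, if_pos rfl]
        have hw2B : w2 ∈ B := by
          rw [hB, mem_filter]
          refine ⟨hw2F, hw2v, ?_⟩
          rw [hf2 w2 hw2v (hmax w2 hw2F) hw2, if_neg hκ2]
          omega
        have hlt : ∀ D : Finset V, D ⊆ F → (∃ x ∈ F, x ∉ D) → ∑ x ∈ D, (ℓ x + 1) < n := by
          intro D hD ⟨x, hx, hxD⟩
          rw [← hn]
          exact Finset.sum_lt_sum_of_subset hD hx hxD (Nat.succ_pos _) fun _ _ _ => Nat.zero_le _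
        have hAF : insert v A ⊆ F := by
          rw [hFAB]; exact insert_subset_insert _ subset_union_left
        have hBF : insert v B ⊆ F := by
          rw [hFAB]; exact insert_subset_insert _ subset_union_right
        refine step_wedge K K' θ hθ F A B v hFAB hvA hvB hdisj (hsing v hvF) hsplit ?_ ?_
        · refine ih _ (hlt _ hAF ⟨w2, hw2F, ?_⟩) _ rfl (insert_nonempty _ _)
            (hC.wedge hFAB hdisj hnoadj) fun x hx => hsing x (hAF hx)
          rw [mem_insert]
          rintro (h | h)
          · exact hw2v h
          · exact Finset.disjoint_left.1 hdisj h hw2B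
        · refine ih _ (hlt _ hBF ⟨w1, hw1F, ?_⟩) _ rfl (insert_nonempty _ _)
            (hC.wedge (by rw [hFAB, union_comm]) hdisj.symm (fun x hx y hy h =>
              hnoadj y hy x hx h.symm)) fun x hx => hsing x (hBF hx)
          rw [mem_insert]
          rintro (h | h)
          · exact hw1v h
          · exact Finset.disjoint_left.1 hdisj hw1A h

end Pool.Agent.Lib.MP_944cb0_gt
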