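import Pool.Agent.Lib.MP_944cb0_gt.Hyp

/-!
Smoothing and the shrinking of three-element covers.
-/

set_option autoImplicit false

namespace Pool.Agent.Lib.MP_944cb0_gt

namespace HS

variable {G : Type*} (H : HS G)

theorem sphere_finite (n : ℕ) : {z | H.len z = n}.Finite := by
  obtain ⟨M, hM⟩ := H.ball n
  refine (hM H.o).1.subset fun z hz => ?_
  have hz' : H.len z = n := hz
  show H.d H.o z ≤ n
  rw [← H.len_eq, hz']

/-- sphere of radius `n` -/
noncomputable def sph (n : ℕ) : Finset G := (H.sphere_finite n).toFinset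

theorem mem_sph {n : ℕ} {z : G} : z ∈ H.sph n ↔ H.len z = n := by
  unfold sph; rw [Set.Finite.mem_toFinset]; rfl

/-- truncated distance to the shadow of `z` (a point of level `n`) at level `n + k` -/
noncomputable def shd (n k : ℕ) (z x : G) : ℕ :=
  sInf ({k} ∪ {t | ∃ y, H.len y = n + k ∧ H.anc n y = z ∧ H.d x y = t})

/-- weight of `z` at `x` -/
noncomputable def wt (n k : ℕ) (z x : G) : ℕ := k - H.shd n k z x

theorem shd_le (n k : ℕ) (z x : G) : H.shd n k z x ≤ k :=
  Nat.sInf_le (Or.inl rfl)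

theorem shd_mem (n k : ℕ) (z x : G) : H.shd n k z x = k ∨
    ∃ y, H.len y = n + k ∧ H.anc n y = z ∧ H.d x y = H.shd n k z x := by
  have h : H.shd n k z x ∈ ({k} ∪ {t | ∃ y, H.len y = n + k ∧ H.anc n y = z ∧ H.d x y = t} : Set ℕ) :=
    Nat.sInf_mem ⟨k, Or.inl rfl⟩
  rcases h with h | h
  · left; exact h
  · right; exact h

theorem shd_le_of {n k : ℕ} {z x y : G} (h1 : H.len y = n + k) (h2 : H.anc n y = z) :
    H.shd n k z x ≤ H.d x y := Nat.sInf_le (Or.inr ⟨y, h1, h2, rfl⟩)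

theorem wt_ne {n k : ℕ} {z x : G} (h : H.wt n k z x ≠ 0) :
    ∃ y, H.len y = n + k ∧ H.anc n y = z ∧ H.d x y < k := by
  unfold wt at h
  rcases H.shd_mem n k z x with h1 | ⟨y, h1, h2, h3⟩
  · omega
  · exact ⟨y, h1, h2, by omega⟩

theorem wt_self {n k : ℕ} {x : G} (hx : H.len x = n + k) : H.wt n k (H.anc n x) x = k := by
  have := H.shd_le_of (x := x) hx rfl
  rw [H.d_self] at this
  unfold wt; omega

theorem wt_lip (n k : ℕ) (z x y : G) : H.wt n k z x ≤ H.wt n k z y + H.d x y := by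
  have hy := H.shd_le n k z y
  have hx := H.shd_le n k z x
  unfold wt
  rcases H.shd_mem n k z x with h1 | ⟨w, h1, h2, h3⟩
  · omega
  · have h4 := H.shd_le_of (x := y) h1 h2
    have h5 := H.d_tri y x w
    rw [H.d_comm y x] at h5
    omega

/-- total weight -/
noncomputable def tw (n k : ℕ) (x : G) : ℕ := ∑ z ∈ H.sph n, H.wt n k z x

theorem le_tw {n k : ℕ} {x : G} (hx : H.len x = n + k) : k ≤ H.tw n k x := by
  have h1 : H.anc n x ∈ H.sph n := by rw [mem_sph, H.anc_len (by omega)]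
  have := Finset.single_le_sum (f := fun z => H.wt n k z x) (fun _ _ => Nat.zero_le _) h1
  simp only [H.wt_self hx] at this
  exact this

theorem wt_ne_close {n k : ℕ} {z x : G} (hx : H.len x = n + k) (h : H.wt n k z x ≠ 0) :
    H.len z = n ∧ H.d (H.anc n x) z ≤ 2 * H.δ := by
  obtain ⟨y, h1, h2, h3⟩ := H.wt_ne h
  have h4 : H.len z = n := by rw [← h2, H.anc_len (by omega)]
  refine ⟨h4, ?_⟩
  rw [← h2]
  apply H.ladder_le (by omega) (by omega)
  omega

open Classical in
/-- comparison of weighted sums at nearby points -/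
theorem sum_compare {n k : ℕ} {x y z1 : G} {M B r : ℕ}
    (hM : ∀ x, {y | H.d x y ≤ 4 * H.δ}.Finite ∧ {y | H.d x y ≤ 4 * H.δ}.ncard ≤ M)
    (hx : H.len x = n + k) (hy : H.len y = n + k) (hz1 : z1 = H.anc n y)
    (hxy : H.d x y ≤ r) (hr : r ≤ 2 * k) (a : G → ℝ)
    (ha : ∀ z, H.len z = n → H.d z1 z ≤ 4 * H.δ → |a z| ≤ B) :
    |∑ z ∈ H.sph n, (H.wt n k z x : ℝ) * a z - ∑ z ∈ H.sph n, (H.wt n k z y : ℝ) * a z|
      ≤ M * r * B := by
  have hclose : H.d (H.anc n x) z1 ≤ 2 * H.δ := by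
    rw [hz1]; apply H.ladder_le (by omega) (by omega); omega
  have hnear : ∀ z, (H.wt n k z x ≠ 0 ∨ H.wt n k z y ≠ 0) → H.d z1 z ≤ 4 * H.δ := by
    rintro z (h | h)
    · have h1 := (H.wt_ne_close hx h).2
      have h2 := H.d_tri z1 (H.anc n x) z
      rw [H.d_comm z1 (H.anc n x)] at h2
      omega
    · have h1 := (H.wt_ne_close hy h).2
      rw [← hz1] at h1
      omega
  rw [← Finset.sum_sub_distrib]
  set S := (H.sph n).filter (fun z => H.d z1 z ≤ 4 * H.δ) with hS
  have hcard : S.card ≤ M := by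
    have h1 := hM z1
    refine le_trans ?_ h1.2
    rw [Set.ncard_eq_toFinset_card _ h1.1]
    apply Finset.card_le_card
    intro z hz
    rw [hS, Finset.mem_filter] at hz
    rw [Set.Finite.mem_toFinset]
    exact hz.2
  have e1 : ∑ z ∈ H.sph n, ((H.wt n k z x : ℝ) * a z - (H.wt n k z y : ℝ) * a z)
      = ∑ z ∈ S, ((H.wt n k z x : ℝ) * a z - (H.wt n k z y : ℝ) * a z) := by
    symm
    apply Finset.sum_subset (Finset.filter_subset _ _)
    intro z hz hzS
    have h1 : ¬ (H.wt n k z x ≠ 0 ∨ H.wt n k z y ≠ 0) := by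
      intro h
      exact hzS (Finset.mem_filter.2 ⟨hz, hnear z h⟩)
    push Not at h1
    rw [h1.1, h1.2]; simp
  rw [e1]
  refine (Finset.abs_sum_le_sum_abs _ _).trans ?_
  have e2 : ∀ z ∈ S, |(H.wt n k z x : ℝ) * a z - (H.wt n k z y : ℝ) * a z| ≤ r * B := by
    intro z hz
    rw [hS, Finset.mem_filter, mem_sph] at hz
    rw [← sub_mul, abs_mul]
    have h1 : |(H.wt n k z x : ℝ) - H.wt n k z y| ≤ r := by
      have h2 := H.wt_lip n k z x y
      have h3 := H.wt_lip n k z y x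
      rw [H.d_comm y x] at h3
      have h2' : (H.wt n k z x : ℝ) ≤ H.wt n k z y + r := by
        exact_mod_cast h2.trans (by omega)
      have h3' : (H.wt n k z y : ℝ) ≤ H.wt n k z x + r := by
        exact_mod_cast h3.trans (by omega)
      rw [abs_le]; constructor <;> linarith
    exact mul_le_mul h1 (ha z hz.1 hz.2) (abs_nonneg _) (Nat.cast_nonneg _)
  refine (Finset.sum_le_sum e2).trans ?_
  rw [Finset.sum_const, nsmul_eq_mul, mul_assoc]
  have : (S.card : ℝ) ≤ M := by exact_mod_cast hcard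
  exact mul_le_mul_of_nonneg_right this (by positivity)

end HS

end Pool.Agent.Lib.MP_944cb0_gt
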