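import Pool.Agent.Lib.MP_944cb0_gt.Cov1

/-!
The three-element cover lemma.
-/

set_option autoImplicit false

namespace Pool.Agent.Lib.MP_944cb0_gt

namespace HS

variable {G : Type*} (H : HS G)

/-- averaged angle at `x` (in units of a third of a turn) -/
noncomputable def ang (n k : ℕ) (e : G → ZMod 3) (Δ : G → G → ℤ) (x : G) : ℝ :=
  ((e (H.anc n x)).val : ℝ) +
    (∑ z ∈ H.sph n, (H.wt n k z x : ℝ) * (Δ (H.anc n x) z : ℝ)) / (H.tw n k x : ℝ)

theorem arc_val (i e : ZMod 3) (h : e ≠ i) :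
    (((e.val : ℤ) - arc i e : ℤ) : ZMod 3) = i + 1 := by
  revert i e; decide

theorem ang_close {n k : ℕ} {e : G → ZMod 3} {Δ : G → G → ℤ} {x y : G} {M B r : ℕ}
    (hM : ∀ x, {y | H.d x y ≤ 4 * H.δ}.Finite ∧ {y | H.d x y ≤ 4 * H.δ}.ncard ≤ M)
    (h1 : ∀ x y, H.len x = n → H.len y = n →
        H.d x y ≤ 4 * H.δ → ((Δ x y : ℤ) : ZMod 3) = e y - e x ∧ |Δ x y| ≤ B)
    (h2 : ∀ x y z, H.len x = n → H.len y = n → H.len z = n →
        H.d x y ≤ 4 * H.δ → H.d y z ≤ 4 * H.δ → H.d x z ≤ 4 * H.δ →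
        Δ x y + Δ y z = Δ x z)
    (hx : H.len x = n + k) (hy : H.len y = n + k) (hxy : H.d x y ≤ r) (hr : r ≤ 2 * k)
    (hk : 4 * (M * r * B) < k) :
    ∃ s : ℤ, |H.ang n k e Δ x - H.ang n k e Δ y - 3 * s| < 1 / 2 := by
  set z0 := H.anc n x with hz0
  set z1 := H.anc n y with hz1
  have l0 : H.len z0 = n := H.anc_len (by omega)
  have l1 : H.len z1 = n := H.anc_len (by omega)
  have hclose : H.d z0 z1 ≤ 2 * H.δ := by
    apply H.ladder_le (by omega) (by omega); omega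
  have hWx := H.le_tw hx
  have hWy := H.le_tw hy
  have hkpos : (0:ℝ) < k := by exact_mod_cast (by omega : 0 < k)
  have hWx' : (k:ℝ) ≤ H.tw n k x := by exact_mod_cast hWx
  have hWy' : (k:ℝ) ≤ H.tw n k y := by exact_mod_cast hWy
  have hWx0 : (0:ℝ) < H.tw n k x := lt_of_lt_of_le hkpos hWx'
  have hWy0 : (0:ℝ) < H.tw n k y := lt_of_lt_of_le hkpos hWy'
  -- integer part
  have hd01 := h1 z0 z1 l0 l1 (by omega)
  obtain ⟨s, hs⟩ : ∃ s : ℤ, ((e z0).val : ℤ) + Δ z0 z1 - (e z1).val = 3 * s := by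
    have : ((((e z0).val : ℤ) + Δ z0 z1 - (e z1).val : ℤ) : ZMod 3) = 0 := by
      push_cast
      rw [hd01.1]
      simp
    have h3 := (ZMod.intCast_zmod_eq_zero_iff_dvd _ 3).1 this
    obtain ⟨s, hs⟩ := h3
    exact ⟨s, by exact_mod_cast hs⟩
  have hs' : ((e z0).val : ℝ) + Δ z0 z1 - (e z1).val = 3 * s := by exact_mod_cast hs
  refine ⟨s, ?_⟩
  set a : G → ℝ := fun z => (Δ z1 z : ℝ) with ha
  have ex : ∑ z ∈ H.sph n, (H.wt n k z x : ℝ) * (Δ z0 z : ℝ)
      = (Δ z0 z1 : ℝ) * H.tw n k x + ∑ z ∈ H.sph n, (H.wt n k z x : ℝ) * a z := by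
    unfold tw
    push_cast
    rw [Finset.mul_sum, ← Finset.sum_add_distrib]
    refine Finset.sum_congr rfl fun z hz => ?_
    rw [mem_sph] at hz
    by_cases hw : H.wt n k z x = 0
    · rw [hw]; simp
    · have h3 := (H.wt_ne_close hx hw).2
      have h4 := H.d_tri z1 z0 z
      rw [H.d_comm z1 z0] at h4
      have h5 := h2 z0 z1 z l0 l1 hz (by omega) (by rw [← hz0] at h3; omega) (by rw [← hz0] at h3; omega)
      have h6 : (Δ z0 z : ℝ) = Δ z0 z1 + Δ z1 z := by rw [← h5]; push_cast; ring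
      rw [h6]; simp only [ha]; ring
  have hcmp := H.sum_compare hM hx hy hz1 hxy hr a (B := B) (by
    intro z hz hdz
    have := (h1 z1 z l1 hz hdz).2
    simp only [ha]
    have h3 : ((|Δ z1 z| : ℤ) : ℝ) ≤ (B : ℝ) := by exact_mod_cast this
    rwa [Int.cast_abs] at h3)
  have hcmpW := H.sum_compare hM hx hy hz1 hxy hr (fun _ => 1) (B := 1) (by
    intro z _ _; simp)
  set Sx := ∑ z ∈ H.sph n, (H.wt n k z x : ℝ) * a z
  set Sy := ∑ z ∈ H.sph n, (H.wt n k z y : ℝ) * a z with hSy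
  have hW1 : ∑ z ∈ H.sph n, (H.wt n k z x : ℝ) * 1 = H.tw n k x := by
    unfold tw; push_cast; simp
  have hW2 : ∑ z ∈ H.sph n, (H.wt n k z y : ℝ) * 1 = H.tw n k y := by
    unfold tw; push_cast; simp
  rw [hW1, hW2] at hcmpW
  have hSyB : |Sy| ≤ B * H.tw n k y := by
    rw [← hW2, Finset.mul_sum]
    refine (Finset.abs_sum_le_sum_abs _ _).trans (Finset.sum_le_sum fun z hz => ?_)
    rw [mem_sph] at hz
    rw [abs_mul, abs_of_nonneg (Nat.cast_nonneg _ : (0:ℝ) ≤ (H.wt n k z y : ℝ))]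
    by_cases hw : H.wt n k z y = 0
    · rw [hw]; simp
    · have h3 := (H.wt_ne_close hy hw).2
      have h4 := (h1 z1 z l1 hz (by rw [← hz1] at h3; omega)).2
      have h5 : ((|Δ z1 z| : ℤ) : ℝ) ≤ (B : ℝ) := by exact_mod_cast h4
      rw [Int.cast_abs] at h5
      have h6 : (0:ℝ) ≤ (H.wt n k z y : ℝ) := Nat.cast_nonneg _
      calc (H.wt n k z y : ℝ) * |a z| ≤ (H.wt n k z y : ℝ) * B := mul_le_mul_of_nonneg_left h5 h6
        _ = B * ((H.wt n k z y : ℝ) * 1) := by ring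
  have hdiff : H.ang n k e Δ x - H.ang n k e Δ y - 3 * s = Sx / H.tw n k x - Sy / H.tw n k y := by
    unfold ang
    rw [← hz0, ← hz1, ex, ← hs', add_div, mul_div_assoc, div_self hWx0.ne']
    ring
  rw [hdiff]
  have hdiff2 : Sx / H.tw n k x - Sy / H.tw n k y = (Sx - Sy) / H.tw n k x
      + Sy * (H.tw n k y - H.tw n k x) / (H.tw n k x * H.tw n k y) := by
    field_simp
    ring
  rw [hdiff2]
  have b1 : |(Sx - Sy) / H.tw n k x| ≤ M * r * B / k := by
    rw [abs_div, abs_of_pos hWx0]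
    exact div_le_div₀ (by positivity) hcmp hkpos hWx'
  have b2 : |Sy * (H.tw n k y - H.tw n k x) / (H.tw n k x * H.tw n k y)| ≤ M * r * B / k := by
    rw [abs_div, abs_mul, abs_of_pos (mul_pos hWx0 hWy0)]
    have h3 : |(H.tw n k y : ℝ) - H.tw n k x| ≤ M * r := by
      rw [abs_sub_comm]; simpa using hcmpW
    have h4 : |Sy| * |(H.tw n k y : ℝ) - H.tw n k x| ≤ B * H.tw n k y * (M * r) :=
      mul_le_mul hSyB h3 (abs_nonneg _) (by positivity)
    calc |Sy| * |(H.tw n k y : ℝ) - H.tw n k x| / (H.tw n k x * H.tw n k y)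
        ≤ B * H.tw n k y * (M * r) / (H.tw n k x * H.tw n k y) := by gcongr
      _ = M * r * B / H.tw n k x := by field_simp
      _ ≤ M * r * B / k := by gcongr
  refine (abs_add_le _ _).trans_lt ?_
  have h5 : (M * r * B : ℝ) / k < 1 / 4 := by
    rw [div_lt_iff₀ hkpos]
    have : (4 * (M * r * B) : ℝ) < k := by exact_mod_cast hk
    linarith
  linarith

end HS

end Pool.Agent.Lib.MP_944cb0_gt
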