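import Pool.Agent.Lib.MP_944cb0_gt.Cov2

/-!
The three-element cover lemma, continued.
-/

set_option autoImplicit false

namespace Pool.Agent.Lib.MP_944cb0_gt

namespace HS

variable {G : Type*} (H : HS G)

/-- Lebesgue number condition for a cover of the sphere of radius `m` -/
def Leb {Q : Type*} (r m : ℕ) (U : Q → G → Prop) : Prop :=
  ∀ x, H.len x = m → ∃ i, ∀ y, H.len y = m → H.d x y ≤ r → U i y

theorem three_cover (hCE : H.CircleExt) (ρ1 : ℕ) :
    ∃ K : ℕ, ρ1 ≤ K ∧ ∀ (m : ℕ) (U : ZMod 3 → G → Prop), H.Leb (2 * H.δ) m U →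
      ∃ W : ZMod 3 → G → Prop, H.Leb ρ1 (m + K) W ∧
        (∀ i x, H.len x = m + K → W i x → U i (H.anc m x)) ∧
        (∀ x, H.len x = m + K → ∃ i, ¬ W i x) := by
  classical
  obtain ⟨c, C, B, hc⟩ := hCE (4 * H.δ)
  obtain ⟨M, hM⟩ := H.ball (4 * H.δ)
  set k := 4 * (M * ρ1 * B) + ρ1 + 1 with hk
  set C' := C + 2 * H.δ with hC'
  refine ⟨(c + C') + k, by omega, fun m U hU => ?_⟩
  set n := m + (c + C') with hn
  choose! idx hidx using hU
  set e : G → ZMod 3 := fun v => idx (H.anc m v) with he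
  obtain ⟨Δ, h1, h2, h3⟩ := hc n (by omega) e
  have hmk : m + ((c + C') + k) = n + k := by omega
  rw [hmk]
  refine ⟨fun i x => ∃ t : ℤ, |H.ang n k e Δ x - (i.val + 3 * t)| < 1, ?_, ?_, ?_⟩
  · -- Lebesgue number
    intro x hx
    set N : ℤ := round (H.ang n k e Δ x) with hN
    have hNr : |H.ang n k e Δ x - N| ≤ 1 / 2 := abs_sub_round _
    have hNt : ∃ t : ℤ, N = ((N : ZMod 3).val : ℤ) + 3 * t := by
      refine ⟨N / 3, ?_⟩
      rw [ZMod.val_intCast]
      have := Int.emod_add_mul_ediv N 3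
      push_cast
      linarith
    obtain ⟨t, ht⟩ := hNt
    refine ⟨(N : ZMod 3), fun y hy hxy => ?_⟩
    obtain ⟨s, hs⟩ := H.ang_close hM h1 h2 hx hy hxy (by omega) (by omega) (e := e)
    refine ⟨t - s, ?_⟩
    have ht' : (N : ℝ) = ((N : ZMod 3).val : ℝ) + 3 * t := by exact_mod_cast ht
    have e1 : H.ang n k e Δ y - (((N : ZMod 3).val : ℝ) + 3 * ((t - s : ℤ) : ℝ))
        = (H.ang n k e Δ x - N) - (H.ang n k e Δ x - H.ang n k e Δ y - 3 * s) := by
      push_cast
      rw [ht']
      ring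
    rw [e1]
    refine (abs_sub _ _).trans_lt ?_
    linarith
  · -- W i ⊆ U i
    rintro i x hx ⟨t, ht⟩
    by_contra hcon
    set z0 := H.anc n x with hz0
    have l0 : H.len z0 = n := H.anc_len (by omega)
    have hanc : H.anc m z0 = H.anc m x := H.anc_anc (by omega) (by omega)
    have hno : ∀ v, n ≤ H.len v + c → H.d z0 v ≤ C' → e v ≠ i := by
      intro v hv hdv hei
      apply hcon
      have hlv : m ≤ H.len v := by omega
      have h4 : H.len (H.anc m v) = m := H.anc_len hlv
      have h5 := hidx (H.anc m v) h4 (H.anc m x) (H.anc_len (by omega)) (by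
        rw [← hanc]
        apply H.ladder_le hlv (by omega)
        rw [H.d_comm]
        omega)
      have h6 : idx (H.anc m v) = i := hei
      rwa [h6] at h5
    have h3' := h3 i z0 l0 (fun v hv hdv => hno v hv (by omega))
    have he0 : e z0 ≠ i := hno z0 (by omega) (by rw [H.d_self]; omega)
    have hkpos : (0:ℝ) < k := by exact_mod_cast (by omega : 0 < k)
    have hW := H.le_tw hx
    have hW0 : (0:ℝ) < H.tw n k x := lt_of_lt_of_le hkpos (by exact_mod_cast hW)
    -- value of the angle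
    have hval := arc_val i (e z0) he0
    obtain ⟨s, hs⟩ : ∃ s : ℤ, ((e z0).val : ℤ) - arc i (e z0) = i.val + 1 + 3 * s := by
      have : ((((e z0).val : ℤ) - arc i (e z0) - (i.val + 1) : ℤ) : ZMod 3) = 0 := by
        rw [Int.cast_sub, hval]
        push_cast
        simp
      obtain ⟨s, hs⟩ := (ZMod.intCast_zmod_eq_zero_iff_dvd _ 3).1 this
      exact ⟨s, by push_cast at hs; linarith⟩
    have hs' : ((e z0).val : ℝ) - arc i (e z0) = i.val + 1 + 3 * s := by exact_mod_cast hs
    set A := ∑ z ∈ H.sph n, (H.wt n k z x : ℝ) * (arc i (e z) : ℝ) with hA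
    have hsum : ∑ z ∈ H.sph n, (H.wt n k z x : ℝ) * (Δ z0 z : ℝ)
        = A - (arc i (e z0) : ℝ) * H.tw n k x := by
      unfold tw
      push_cast
      rw [hA, Finset.mul_sum, ← Finset.sum_sub_distrib]
      refine Finset.sum_congr rfl fun z hz => ?_
      rw [mem_sph] at hz
      by_cases hw : H.wt n k z x = 0
      · rw [hw]; simp
      · have h4 := (H.wt_ne_close hx hw).2
        rw [← hz0] at h4
        rw [h3' z hz (by omega)]
        push_cast; ring
    have hang : H.ang n k e Δ x = i.val + 1 + 3 * s + A / H.tw n k x := by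
      unfold ang
      rw [← hz0, hsum, sub_div, mul_div_assoc, div_self hW0.ne', ← hs']
      ring
    have harc : ∀ z, (0:ℝ) ≤ arc i (e z) ∧ (arc i (e z) : ℝ) ≤ 1 := by
      intro z
      unfold arc
      split_ifs <;> simp
    have hA0 : 0 ≤ A := Finset.sum_nonneg fun z _ => mul_nonneg (Nat.cast_nonneg _) (harc z).1
    have hA1 : A ≤ H.tw n k x := by
      unfold tw
      push_cast
      exact Finset.sum_le_sum fun z _ => mul_le_of_le_one_right (Nat.cast_nonneg _) (harc z).2
    have hq0 : 0 ≤ A / H.tw n k x := div_nonneg hA0 hW0.le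
    have hq1 : A / H.tw n k x ≤ 1 := by rw [div_le_one hW0]; exact hA1
    rw [hang, abs_lt] at ht
    have h7 : (3:ℝ) * (t - s) < 3 := by linarith [ht.1]
    have h8 : (0:ℝ) < 3 * (t - s) := by linarith [ht.2]
    have h9 : (t - s : ℤ) < 1 := by
      have : ((t - s : ℤ) : ℝ) < 1 := by push_cast; linarith
      exact_mod_cast this
    have h10 : (0 : ℤ) < t - s := by
      have : (0:ℝ) < ((t - s : ℤ) : ℝ) := by push_cast; linarith
      exact_mod_cast this
    omega
  · -- empty triple intersection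
    intro x hx
    by_contra hcon
    push Not at hcon
    obtain ⟨a, ha⟩ := hcon 0
    obtain ⟨b, hb⟩ := hcon 1
    obtain ⟨d, hd⟩ := hcon 2
    have v0 : ((0 : ZMod 3).val : ℝ) = 0 := by simp
    have v1 : ((1 : ZMod 3).val : ℝ) = 1 := by
      have : (1 : ZMod 3).val = 1 := rfl
      rw [this]; simp
    have v2 : ((2 : ZMod 3).val : ℝ) = 2 := by
      have : (2 : ZMod 3).val = 2 := rfl
      rw [this]; simp
    rw [v0, abs_lt] at ha
    rw [v1, abs_lt] at hb
    rw [v2, abs_lt] at hd
    have hab : a = b := by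
      have h4 : (a:ℝ) - b < 1 := by linarith [ha.2, hb.1, ha.1, hb.2]
      have h5 : -1 < (a:ℝ) - b := by linarith [ha.2, hb.1, ha.1, hb.2]
      have h6 : a - b < 1 := by exact_mod_cast h4
      have h7 : -1 < a - b := by exact_mod_cast h5
      omega
    have hbd : b = d := by
      have h4 : (b:ℝ) - d < 1 := by linarith [hd.2, hb.1, hd.1, hb.2]
      have h5 : -1 < (b:ℝ) - d := by linarith [hd.2, hb.1, hd.1, hb.2]
      have h6 : b - d < 1 := by exact_mod_cast h4
      have h7 : -1 < b - d := by exact_mod_cast h5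
      omega
    subst hab
    subst hbd
    linarith [ha.1, ha.2, hd.1, hd.2]

end HS

end Pool.Agent.Lib.MP_944cb0_gt
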