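import Pool.Agent.Lib.MP_944cb0_gt.Cov3

/-!
Partitions of the spheres into bounded pieces such that small sets meet at most two pieces.
-/

set_option autoImplicit false

namespace Pool.Agent.Lib.MP_944cb0_gt

namespace HS

variable {G : Type*} (H : HS G)

open Classical in
theorem cover_step {Q : Type*} (hCE : H.CircleExt) :
    ∃ K : ℕ, ∀ i j l : Q, i ≠ j → i ≠ l → j ≠ l → ∀ (m : ℕ) (U : Q → G → Prop),
      H.Leb (4 * H.δ) m U →
      ∃ U' : Q → G → Prop, H.Leb (4 * H.δ) (m + K) U' ∧
        (∀ c x, H.len x = m + K → U' c x → U c (H.anc m x)) ∧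
        (∀ x, H.len x = m + K → ¬ (U' i x ∧ U' j x ∧ U' l x)) := by
  obtain ⟨K, hK, h3⟩ := H.three_cover hCE (4 * H.δ)
  refine ⟨K, fun i j l hij hil hjl m U hU => ?_⟩
  set Um : Q → G → Prop := fun c x => ∀ y, H.len y = m → H.d x y ≤ 2 * H.δ → U c y with hUm
  set V : ZMod 3 → G → Prop := fun a x => if a = 0 then Um i x else if a = 1 then Um j x else
    ∃ c, c ≠ i ∧ c ≠ j ∧ Um c x with hV
  have hVL : H.Leb (2 * H.δ) m V := by
    intro x hx
    obtain ⟨c, hc⟩ := hU x hx
    have hcm : ∀ y, H.len y = m → H.d x y ≤ 2 * H.δ → Um c y := by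
      intro y hy hxy w hw hyw
      apply hc w hw
      have := H.d_tri x y w
      omega
    by_cases h1 : c = i
    · refine ⟨0, fun y hy hxy => ?_⟩
      simp only [hV, if_true]
      rw [← h1]; exact hcm y hy hxy
    · by_cases h2 : c = j
      · refine ⟨1, fun y hy hxy => ?_⟩
        have h10 : (1 : ZMod 3) ≠ 0 := by decide
        simp only [hV, if_neg h10, if_true]
        rw [← h2]; exact hcm y hy hxy
      · refine ⟨2, fun y hy hxy => ?_⟩
        have h20 : (2 : ZMod 3) ≠ 0 := by decide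
        have h21 : (2 : ZMod 3) ≠ 1 := by decide
        simp only [hV, if_neg h20, if_neg h21]
        exact ⟨c, h1, h2, hcm y hy hxy⟩
  obtain ⟨W, hW1, hW2, hW3⟩ := h3 m V hVL
  refine ⟨fun c x => if c = i then W 0 x else if c = j then W 1 x else
    W 2 x ∧ U c (H.anc m x), ?_, ?_, ?_⟩
  · intro x hx
    obtain ⟨a, ha⟩ := hW1 x hx
    have hcase : ∀ a : ZMod 3, a = 0 ∨ a = 1 ∨ a = 2 := by decide
    rcases hcase a with rfl | rfl | rfl
    · refine ⟨i, fun y hy hxy => ?_⟩
      simp only [if_true]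
      exact ha y hy hxy
    · refine ⟨j, fun y hy hxy => ?_⟩
      simp only [if_neg (Ne.symm hij), if_true]
      exact ha y hy hxy
    · have h4 := hW2 2 x hx (ha x hx (by rw [H.d_self]; omega))
      have h20 : (2 : ZMod 3) ≠ 0 := by decide
      have h21 : (2 : ZMod 3) ≠ 1 := by decide
      simp only [hV, if_neg h20, if_neg h21] at h4
      obtain ⟨c, hci, hcj, hc⟩ := h4
      refine ⟨c, fun y hy hxy => ?_⟩
      simp only [if_neg hci, if_neg hcj]
      refine ⟨ha y hy hxy, hc _ (H.anc_len (by omega)) ?_⟩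
      apply H.ladder_le (by omega) (by omega)
      omega
  · intro c x hx hc
    have hself : ∀ c', Um c' (H.anc m x) → U c' (H.anc m x) := fun c' h =>
      h _ (H.anc_len (by omega)) (by rw [H.d_self]; omega)
    by_cases h1 : c = i
    · subst h1
      simp only [if_true] at hc
      have := hW2 0 x hx hc
      simp only [hV, if_true] at this
      exact hself c this
    · by_cases h2 : c = j
      · subst h2
        simp only [if_neg h1, if_true] at hc
        have := hW2 1 x hx hc
        have h10 : (1 : ZMod 3) ≠ 0 := by decide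
        simp only [hV, if_neg h10, if_true] at this
        exact hself c this
      · simp only [if_neg h1, if_neg h2] at hc
        exact hc.2
  · rintro x hx ⟨hi, hj, hl⟩
    simp only [if_true] at hi
    simp only [if_neg (Ne.symm hij), if_true] at hj
    simp only [if_neg (Ne.symm hil), if_neg (Ne.symm hjl)] at hl
    obtain ⟨a, ha⟩ := hW3 x hx
    have hcase : ∀ a : ZMod 3, a = 0 ∨ a = 1 ∨ a = 2 := by decide
    rcases hcase a with rfl | rfl | rfl
    · exact ha hi
    · exact ha hj
    · exact ha hl.1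

theorem cover_list {Q : Type*} (hCE : H.CircleExt) (L : List (Q × Q × Q)) :
    ∃ K : ℕ, ∀ (m : ℕ) (U : Q → G → Prop), H.Leb (4 * H.δ) m U →
      ∃ U' : Q → G → Prop, H.Leb (4 * H.δ) (m + K) U' ∧
        (∀ c x, H.len x = m + K → U' c x → U c (H.anc m x)) ∧
        (∀ t ∈ L, t.1 ≠ t.2.1 → t.1 ≠ t.2.2 → t.2.1 ≠ t.2.2 →
          ∀ x, H.len x = m + K → ¬ (U' t.1 x ∧ U' t.2.1 x ∧ U' t.2.2 x)) := by
  induction L with
  | nil =>
    refine ⟨0, fun m U hU => ⟨U, hU, fun c x hx hc => ?_, fun t ht => absurd ht (by simp)⟩⟩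
    rw [H.anc_self' (by omega)]; exact hc
  | cons t L ih =>
    obtain ⟨K1, h1⟩ := ih
    obtain ⟨K2, h2⟩ := H.cover_step (Q := Q) hCE
    by_cases ht : t.1 ≠ t.2.1 ∧ t.1 ≠ t.2.2 ∧ t.2.1 ≠ t.2.2
    · refine ⟨K1 + K2, fun m U hU => ?_⟩
      obtain ⟨U1, a1, a2, a3⟩ := h1 m U hU
      obtain ⟨U2, b1, b2, b3⟩ := h2 t.1 t.2.1 t.2.2 ht.1 ht.2.1 ht.2.2 (m + K1) U1 a1
      rw [← add_assoc]
      refine ⟨U2, b1, ?_, ?_⟩
      · intro c x hx hc
        have h4 := a2 c _ (H.anc_len (by omega)) (b2 c x hx hc)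
        rwa [H.anc_anc (by omega) (by omega)] at h4
      · intro s hs hs1 hs2 hs3 x hx
        rcases List.mem_cons.1 hs with rfl | hs'
        · exact b3 x hx
        · rintro ⟨c1, c2, c3⟩
          exact a3 s hs' hs1 hs2 hs3 (H.anc (m + K1) x) (H.anc_len (by omega))
            ⟨b2 _ x hx c1, b2 _ x hx c2, b2 _ x hx c3⟩
    · refine ⟨K1, fun m U hU => ?_⟩
      obtain ⟨U1, a1, a2, a3⟩ := h1 m U hU
      refine ⟨U1, a1, a2, ?_⟩
      intro s hs hs1 hs2 hs3
      rcases List.mem_cons.1 hs with rfl | hs'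
      · exact absurd ⟨hs1, hs2, hs3⟩ ht
      · exact a3 s hs' hs1 hs2 hs3

open Classical in
theorem coloring (r : ℕ) : ∃ M : ℕ, ∀ S : Finset G, ∃ col : G → Fin (M + 1),
    ∀ x ∈ S, ∀ y ∈ S, x ≠ y → H.d x y ≤ r → col x ≠ col y := by
  obtain ⟨M, hM⟩ := H.ball r
  refine ⟨M, fun S => ?_⟩
  induction S using Finset.induction_on with
  | empty => exact ⟨fun _ => 0, by simp⟩
  | insert a S ha ih =>
    obtain ⟨col, hcol⟩ := ih
    set N := (S.filter (fun y => H.d a y ≤ r)).image col with hN
    have hcard : N.card ≤ M := by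
      refine Finset.card_image_le.trans ?_
      refine le_trans ?_ (hM a).2
      rw [Set.ncard_eq_toFinset_card _ (hM a).1]
      apply Finset.card_le_card
      intro z hz
      rw [Finset.mem_filter] at hz
      rw [Set.Finite.mem_toFinset]
      exact hz.2
    obtain ⟨c, hc⟩ : ∃ c, c ∉ N := by
      by_contra hcon
      push Not at hcon
      have : (Finset.univ : Finset (Fin (M+1))) ⊆ N := fun c _ => hcon c
      have h1 := Finset.card_le_card this
      rw [Finset.card_univ, Fintype.card_fin] at h1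
      omega
    refine ⟨Function.update col a c, ?_⟩
    have hother : ∀ x ∈ S, Function.update col a c x = col x := by
      intro x hx
      rw [Function.update_of_ne]
      rintro rfl; exact ha hx
    intro x hx y hy hxy hd
    rcases Finset.mem_insert.1 hx with rfl | hx' <;> rcases Finset.mem_insert.1 hy with rfl | hy'
    · exact absurd rfl hxy
    · rw [Function.update_self, hother y hy']
      rintro rfl
      exact hc (Finset.mem_image.2 ⟨y, Finset.mem_filter.2 ⟨hy', hd⟩, rfl⟩)
    · rw [Function.update_self, hother x hx']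
      rintro rfl
      rw [H.d_comm] at hd
      exact hc (Finset.mem_image.2 ⟨x, Finset.mem_filter.2 ⟨hx', hd⟩, rfl⟩)
    · rw [hother x hx', hother y hy']
      exact hcol x hx' y hy' hxy hd

/-- labels on the spheres -/
theorem labels (hCE : H.CircleExt) (r : ℕ) : ∃ D : ℕ, ∀ n, ∃ lab : G → G,
    (∀ x y, H.len x = n → H.len y = n → lab x = lab y → H.d x y ≤ D) ∧
    (∀ x y z, H.len x = n → H.len y = n → H.len z = n → H.d x y ≤ r → H.d y z ≤ r →
      H.d x z ≤ r → lab x = lab y ∨ lab y = lab z ∨ lab x = lab z) := by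
  classical
  obtain ⟨M, hcol⟩ := H.coloring (14 * H.δ)
  obtain ⟨K, hK⟩ := H.cover_list (Q := Fin (M + 1)) hCE Finset.univ.toList
  refine ⟨2 * (K + r) + 8 * H.δ, fun n => ?_⟩
  by_cases hn : n < K + r
  · refine ⟨fun _ => H.o, fun x y hx hy _ => ?_, fun x y z _ _ _ _ _ _ => Or.inl rfl⟩
    have := H.d_le_len x y
    omega
  · push Not at hn
    obtain ⟨m, rfl⟩ : ∃ m, n = m + K + r := ⟨n - K - r, by omega⟩
    obtain ⟨col, hc⟩ := hcol (H.sph m)
    set U : Fin (M + 1) → G → Prop := fun c y => ∃ z, H.len z = m ∧ col z = c ∧ H.d z y ≤ 4 * H.δ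
      with hU
    have hUL : H.Leb (4 * H.δ) m U := fun x hx => ⟨col x, fun y _ hxy => ⟨x, hx, rfl, hxy⟩⟩
    obtain ⟨U', a1, a2, a3⟩ := hK m U hUL
    choose! g hg using a1
    have hz : ∀ x, H.len x = m + K → ∃ z, H.len z = m ∧ col z = g x ∧
        H.d z (H.anc m x) ≤ 4 * H.δ := fun x hx =>
      a2 (g x) x hx (hg x hx x hx (by rw [H.d_self]; omega))
    choose! pc hpc using hz
    refine ⟨fun x => pc (H.anc (m + K) x), ?_, ?_⟩
    · intro x y hx hy hxy
      have hx' : H.len (H.anc (m + K) x) = m + K := H.anc_len (by omega)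
      have hy' : H.len (H.anc (m + K) y) = m + K := H.anc_len (by omega)
      have p1 := (hpc _ hx').2.2
      have p2 := (hpc _ hy').2.2
      rw [H.anc_anc (by omega) (by omega)] at p1 p2
      have hxy' : pc (H.anc (m + K) x) = pc (H.anc (m + K) y) := hxy
      rw [hxy'] at p1
      have q1 : H.d x (H.anc m x) ≤ H.len x - m := H.anc_dist (by omega)
      have q2 : H.d y (H.anc m y) ≤ H.len y - m := H.anc_dist (by omega)
      have t1 := H.d_tri x (H.anc m x) y
      have t2 := H.d_tri (H.anc m x) (pc (H.anc (m + K) y)) y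
      have t3 := H.d_tri (pc (H.anc (m + K) y)) (H.anc m y) y
      rw [H.d_comm (pc (H.anc (m + K) y)) (H.anc m x)] at p1
      rw [H.d_comm y (H.anc m y)] at q2
      omega
    · intro x y z hx hy hz' hxy hyz hxz
      have hx' : H.len (H.anc (m + K) x) = m + K := H.anc_len (by omega)
      have hy' : H.len (H.anc (m + K) y) = m + K := H.anc_len (by omega)
      have hz'' : H.len (H.anc (m + K) z) = m + K := H.anc_len (by omega)
      have dxy : H.d (H.anc (m + K) x) (H.anc (m + K) y) ≤ 2 * H.δ :=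
        H.ladder_le (by omega) (by omega) (by omega)
      have dyz : H.d (H.anc (m + K) y) (H.anc (m + K) z) ≤ 2 * H.δ :=
        H.ladder_le (by omega) (by omega) (by omega)
      have dxz : H.d (H.anc (m + K) x) (H.anc (m + K) z) ≤ 2 * H.δ :=
        H.ladder_le (by omega) (by omega) (by omega)
      set x1 := H.anc (m + K) x
      set y1 := H.anc (m + K) y
      set z1 := H.anc (m + K) z
      -- equal colours give equal pieces
      have key : ∀ u v, H.len u = m + K → H.len v = m + K → H.d u v ≤ 2 * H.δ →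
          g u = g v → pc u = pc v := by
        intro u v hu hv huv hguv
        by_contra hne
        obtain ⟨u1, u2, u3⟩ := hpc u hu
        obtain ⟨v1, v2, v3⟩ := hpc v hv
        refine hc (pc u) (H.mem_sph.2 u1) (pc v) (H.mem_sph.2 v1) hne ?_ (by rw [u2, v2, hguv])
        have l1 := H.ladder (k := m) (x := u) (y := v) (by omega) (by omega)
        have t1 := H.d_tri (pc u) (H.anc m u) (pc v)
        have t2 := H.d_tri (H.anc m u) (H.anc m v) (pc v)
        rw [H.d_comm (pc v)] at v3
        omega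
      by_contra hcon
      push Not at hcon
      obtain ⟨n1, n2, n3⟩ := hcon
      have g1 : g x1 ≠ g y1 := fun h => n1 (key _ _ hx' hy' dxy h)
      have g2 : g y1 ≠ g z1 := fun h => n2 (key _ _ hy' hz'' dyz h)
      have g3 : g x1 ≠ g z1 := fun h => n3 (key _ _ hx' hz'' dxz h)
      refine a3 (g x1, g y1, g z1) (by simp) g1 g3 g2 x1 hx' ⟨?_, ?_, ?_⟩
      · exact hg x1 hx' x1 hx' (by rw [H.d_self]; omega)
      · exact hg y1 hy' x1 hx' (by rw [H.d_comm]; omega)
      · exact hg z1 hz'' x1 hx' (by rw [H.d_comm]; omega)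

/-- **Partition theorem.** -/
theorem partition (hCE : H.CircleExt) (r : ℕ) : ∃ D : ℕ, ∀ n, ∃ q : G → G,
    (∀ x, H.len x = n → H.len (q x) = n ∧ q (q x) = q x ∧ H.d x (q x) ≤ D) ∧
    (∀ x y z, H.len x = n → H.len y = n → H.len z = n → H.d x y ≤ r → H.d y z ≤ r →
      H.d x z ≤ r → q x = q y ∨ q y = q z ∨ q x = q z) := by
  classical
  obtain ⟨D, hD⟩ := H.labels hCE r
  refine ⟨D, fun n => ?_⟩
  obtain ⟨lab, h1, h2⟩ := hD n
  set rep : G → G := fun l => if h : ∃ y, H.len y = n ∧ lab y = l then h.choose else H.o with hrep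
  have hr : ∀ x, H.len x = n → H.len (rep (lab x)) = n ∧ lab (rep (lab x)) = lab x := by
    intro x hx
    have h : ∃ y, H.len y = n ∧ lab y = lab x := ⟨x, hx, rfl⟩
    simp only [hrep, dif_pos h]
    exact h.choose_spec
  refine ⟨fun x => rep (lab x), ?_, ?_⟩
  · intro x hx
    obtain ⟨a, b⟩ := hr x hx
    refine ⟨a, ?_, ?_⟩
    · show rep (lab (rep (lab x))) = rep (lab x)
      rw [b]
    · exact h1 _ _ hx a b.symm
  · intro x y z hx hy hz hxy hyz hxz
    show rep (lab x) = rep (lab y) ∨ rep (lab y) = rep (lab z) ∨ rep (lab x) = rep (lab z)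
    rcases h2 x y z hx hy hz hxy hyz hxz with h | h | h
    · left; rw [h]
    · right; left; rw [h]
    · right; right; rw [h]

end HS

end Pool.Agent.Lib.MP_944cb0_gt
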