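import Mathlib

/-!
# Coarse Whitehead conjecture for subgroups of hyperbolic groups: definitions

Word metrics, word hyperbolicity (four point condition), presentations, the second cellular
boundary map of the Cayley complex, Rips complexes (geometric realisation) and the coarse
triviality of the homotopy groups `π_m`.
-/

set_option autoImplicit false

namespace Pool.Agent.Lib.MP_944cb0_gt

open scoped unitInterval

/-! ## Word metrics -/

section Word

variable {Γ : Type*} [Group Γ]

/-- Word length of `g` with respect to `S`: the least length of a product of elements of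
`S ∪ S⁻¹` equal to `g` (it is `0` by convention if there is no such product). -/
noncomputable def wlen (S : Set Γ) (g : Γ) : ℕ :=
  sInf {n | ∃ l : List Γ, l.length = n ∧ (∀ x ∈ l, x ∈ S ∨ x⁻¹ ∈ S) ∧ l.prod = g}

/-- The (left invariant) word metric with respect to `S`. -/
noncomputable def wdist (S : Set Γ) (x y : Γ) : ℕ := wlen S (x⁻¹ * y)

/-- Gromov hyperbolicity of the word metric with respect to `S`: the four point condition
`d(x,y) + d(z,w) ≤ max (d(x,z) + d(y,w)) (d(x,w) + d(y,z)) + δ`. -/
def WordHyperbolic (S : Set Γ) : Prop :=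
  ∃ δ : ℕ, ∀ x y z w : Γ,
    wdist S x y + wdist S z w ≤ max (wdist S x z + wdist S y w) (wdist S x w + wdist S y z) + δ

end Word

/-! ## Presentations and Cayley complexes -/

section Presentation

variable {G : Type*} [Group G] {α : Type*} [DecidableEq α]

/-- `ι : α → G` and the set `rels` of relators present the group `G`. -/
def Presents (ι : α → G) (rels : Set (FreeGroup α)) : Prop :=
  Function.Surjective (FreeGroup.lift ι) ∧
    (FreeGroup.lift ι).ker = Subgroup.normalClosure rels

/-- The cellular 1-chain of the Cayley complex given by the edge path which starts at the vertex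
`g` and spells the word `L`.  The edge `(g, a)` goes from `g` to `g * ι a`. -/
noncomputable def pathChain (ι : α → G) : G → List (α × Bool) → (G × α →₀ ℤ)
  | _, [] => 0
  | g, (a, true) :: L => Finsupp.single (g, a) 1 + pathChain ι (g * ι a) L
  | g, (a, false) :: L => - Finsupp.single (g * (ι a)⁻¹, a) 1 + pathChain ι (g * (ι a)⁻¹) L

/-- The cellular boundary map `C_2(X) → C_1(X)` of the Cayley complex `X` of the presentation:
`X` has one 2-cell `(g, r)` for every vertex `g` and every relator `r`, glued along the edge path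
starting at `g` and spelling `r`. -/
noncomputable def boundary₂ (ι : α → G) (rels : Set (FreeGroup α)) :
    (G × rels →₀ ℤ) →ₗ[ℤ] (G × α →₀ ℤ) :=
  Finsupp.linearCombination ℤ (fun p => pathChain ι p.1 ((p.2 : FreeGroup α).toWord))

end Presentation

/-! ## Rips complexes and coarse homotopy -/

section Rips

variable {Z : Type*}

/-- `s` is a simplex of the Rips complex: nonempty, finite and of diameter at most `R`. -/
def RipsSimplex (d : Z → Z → ℕ) (R : ℝ) (s : Finset Z) : Prop :=
  s.Nonempty ∧ ∀ x ∈ s, ∀ y ∈ s, (d x y : ℝ) ≤ R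

/-- The geometric realisation of the Rips complex `Rips_R(Z)` in barycentric coordinates:
functions `p : Z → ℝ`, nonnegative, of sum `1`, vanishing outside of a simplex.  It carries the
topology of pointwise convergence of the barycentric coordinates (for locally finite complexes
this is the usual topology). -/
abbrev Rips (d : Z → Z → ℕ) (R : ℝ) : Type _ :=
  {p : Z → ℝ // (∀ z, 0 ≤ p z) ∧
    ∃ s : Finset Z, RipsSimplex d R s ∧ (∀ z, z ∉ s → p z = 0) ∧ ∑ z ∈ s, p z = 1}

/-- The inclusion `Rips_R(Z) → Rips_R'(Z)` for `R ≤ R'`. -/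
def Rips.incl {d : Z → Z → ℕ} {R R' : ℝ} (h : R ≤ R') : C(Rips d R, Rips d R') where
  toFun p := ⟨p.1, p.2.1, by
    obtain ⟨s, hs, h0, h1⟩ := p.2.2
    exact ⟨s, ⟨hs.1, fun x hx y hy => (hs.2 x hx y hy).trans h⟩, h0, h1⟩⟩
  continuous_toFun := by
    exact Continuous.subtype_mk continuous_subtype_val _

/-- `Z` has coarsely trivial `π_m`: there is `φ` with `φ(R) ≥ R` such that for all `R ≥ 0` and
every base point, every `m`-dimensional loop in `Rips_R(Z)` is null-homotopic (relative to the
boundary of the cube) in `Rips_{φ(R)}(Z)`; that is, `Rips_R(Z) → Rips_{φ(R)}(Z)` induces the zero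
map on `π_m`. -/
def CoarselyTrivialPi (d : Z → Z → ℕ) (m : ℕ) : Prop :=
  ∃ φ : ℝ → ℝ, ∃ hφ : ∀ R, 0 ≤ R → R ≤ φ R, ∀ (R : ℝ) (hR : 0 ≤ R) (x : Rips d R)
    (f : GenLoop (Fin m) (Rips d R) x),
    ((Rips.incl (hφ R hR)).comp f.1).HomotopicRel
      (ContinuousMap.const (Fin m → I) (Rips.incl (hφ R hR) x)) (Cube.boundary (Fin m))

end Rips

end Pool.Agent.Lib.MP_944cb0_gt
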