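import Pool.Agent.Lib.MP_944cb0_gt.Defs

/-!
# Elementary topology of the cube `I^m`

* a free null-homotopy which is constant on the boundary at each time gives a null-homotopy
  relative to the boundary;
* grid approximation of maps from the cube to a Rips complex;
* the (unnormalised) partition of unity `gw` subordinate to the grid.
-/

set_option autoImplicit false

namespace Pool.Agent.Lib.MP_944cb0_gt

open scoped unitInterval

/-! ## Free null-homotopies -/

section Free

variable {m : ℕ}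

/-- The expansion of the cube: linear expansion around the centre, clamped to the cube. -/
noncomputable def eMap (t : I) (s : Fin m → I) : Fin m → I :=
  fun i => Set.projIcc (0 : ℝ) 1 zero_le_one (((s i : ℝ) - t / 4) / (1 - t / 2))

theorem eMap_continuous : Continuous (fun p : I × (Fin m → I) => eMap p.1 p.2) := by
  refine continuous_pi fun i => continuous_projIcc.comp ?_
  refine Continuous.div (by fun_prop) (by fun_prop) ?_
  rintro ⟨t, s⟩
  have := t.2.2
  have h : (0 : ℝ) < 1 - (t : ℝ) / 2 := by linarith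
  exact h.ne'

theorem eMap_zero (s : Fin m → I) : eMap 0 s = s := by
  funext i
  apply Subtype.ext
  have h : (((s i : ℝ) - ((0 : I) : ℝ) / 4) / (1 - ((0 : I) : ℝ) / 2)) = s i := by
    simp
  simp only [eMap]
  rw [h, Set.projIcc_val]

theorem eMap_of_le (t : I) (s : Fin m → I) (i : Fin m) (h : (s i : ℝ) ≤ t / 4) :
    eMap t s i = 0 := by
  have h2 := t.2.2
  have : Set.projIcc (0 : ℝ) 1 zero_le_one (((s i : ℝ) - t / 4) / (1 - t / 2)) =
      ⟨0, Set.left_mem_Icc.2 zero_le_one⟩ := by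
    apply Set.projIcc_of_le_left
    exact div_nonpos_of_nonpos_of_nonneg (by linarith) (by linarith)
  exact this

theorem eMap_of_ge (t : I) (s : Fin m → I) (i : Fin m) (h : 1 - (t : ℝ) / 4 ≤ s i) :
    eMap t s i = 1 := by
  have h2 := t.2.2
  have : Set.projIcc (0 : ℝ) 1 zero_le_one (((s i : ℝ) - t / 4) / (1 - t / 2)) =
      ⟨1, Set.right_mem_Icc.2 zero_le_one⟩ := by
    apply Set.projIcc_of_right_le
    rw [le_div_iff₀ (by linarith)]
    linarith
  exact this

theorem eMap_boundary (t : I) {s : Fin m → I} (hs : s ∈ Cube.boundary (Fin m)) :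
    eMap t s ∈ Cube.boundary (Fin m) := by
  obtain ⟨i, hi⟩ := hs
  have h1 := t.2.1
  refine ⟨i, ?_⟩
  rcases hi with hi | hi
  · left
    apply eMap_of_le
    rw [hi]
    simp only [Set.Icc.coe_zero]
    linarith
  · right
    apply eMap_of_ge
    rw [hi]
    simp only [Set.Icc.coe_one]
    linarith

/-- The collar function: `0` on the boundary, `1` at distance at least `1/4` of it. -/
noncomputable def muR (s : Fin m → I) : ℝ :=
  min 1 (2 - 4 * ‖(fun i => (s i : ℝ) - 1 / 2 : Fin m → ℝ)‖)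

theorem muR_norm_le (s : Fin m → I) : ‖(fun i => (s i : ℝ) - 1 / 2 : Fin m → ℝ)‖ ≤ 1 / 2 := by
  rw [pi_norm_le_iff_of_nonneg (by norm_num)]
  intro i
  have h1 := (s i).2.1
  have h2 := (s i).2.2
  rw [Real.norm_eq_abs, abs_le]
  constructor <;> linarith

/-- The collar function with values in `I`. -/
noncomputable def mu (s : Fin m → I) : I :=
  ⟨muR s, le_min zero_le_one (by have := muR_norm_le s; linarith), min_le_left _ _⟩

theorem mu_continuous : Continuous (mu : (Fin m → I) → I) := by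
  refine Continuous.subtype_mk ?_ _
  unfold muR
  refine continuous_const.min (continuous_const.sub (continuous_const.mul ?_))
  exact Continuous.norm (continuous_pi fun i => by fun_prop)

theorem mu_boundary {s : Fin m → I} (hs : s ∈ Cube.boundary (Fin m)) : mu s = 0 := by
  obtain ⟨i, hi⟩ := hs
  apply Subtype.ext
  have h0 := muR_norm_le s
  have h1 : 1 / 2 ≤ ‖(fun i => (s i : ℝ) - 1 / 2 : Fin m → ℝ)‖ := by
    have h2 := norm_le_pi_norm (fun i => (s i : ℝ) - 1 / 2 : Fin m → ℝ) i
    have h3 : ‖(s i : ℝ) - 1 / 2‖ = 1 / 2 := by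
      rcases hi with hi | hi <;> rw [hi] <;> norm_num
    exact h3.symm.le.trans h2
  have h4 : ‖(fun i => (s i : ℝ) - 1 / 2 : Fin m → ℝ)‖ = 1 / 2 := le_antisymm h0 h1
  change muR s = 0
  unfold muR
  rw [h4]
  norm_num

theorem mu_collar (s : Fin m → I) : mu s = 1 ∨ eMap 1 s ∈ Cube.boundary (Fin m) := by
  by_cases h : ∃ i, (s i : ℝ) ≤ 1 / 4 ∨ 3 / 4 ≤ (s i : ℝ)
  · right
    obtain ⟨i, hi⟩ := h
    refine ⟨i, ?_⟩
    rcases hi with hi | hi
    · left
      apply eMap_of_le
      simpa using hi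
    · right
      apply eMap_of_ge
      simp only [Set.Icc.coe_one]
      linarith
  · left
    push Not at h
    apply Subtype.ext
    have h4 : ‖(fun i => (s i : ℝ) - 1 / 2 : Fin m → ℝ)‖ ≤ 1 / 4 := by
      rw [pi_norm_le_iff_of_nonneg (by norm_num)]
      intro i
      have h1 := (h i).1
      have h2 := (h i).2
      rw [Real.norm_eq_abs, abs_le]
      constructor <;> linarith
    change muR s = 1
    unfold muR
    apply min_eq_left
    linarith

/-- A free null-homotopy which is constant on the boundary of the cube at each time gives a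
null-homotopy relative to the boundary. -/
theorem homotopicRel_const_of_free {m : ℕ} {X : Type*} [TopologicalSpace X]
    (f : C(Fin m → I, X)) (F : C((Fin m → I) × I, X)) (γ : C(I, X)) (c : X)
    (h0 : ∀ s, F (s, 0) = f s) (h1 : ∀ s, F (s, 1) = c)
    (hb : ∀ s ∈ Cube.boundary (Fin m), ∀ t, F (s, t) = γ t) (hc : γ 1 = c) :
    f.HomotopicRel (ContinuousMap.const _ (γ 0)) (Cube.boundary (Fin m)) := by
  have hfb : ∀ s ∈ Cube.boundary (Fin m), f s = γ 0 := fun s hs => by
    rw [← h0, hb s hs]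
  -- the three intermediate maps
  have he1 : Continuous (fun s : Fin m → I => eMap 1 s) :=
    eMap_continuous.comp (Continuous.prodMk continuous_const continuous_id)
  let f1 : C(Fin m → I, X) := ⟨fun s => f (eMap 1 s), f.continuous.comp he1⟩
  let f2 : C(Fin m → I, X) := ⟨fun s => γ (mu s), γ.continuous.comp mu_continuous⟩
  -- stage 1
  have s1 : f.HomotopicRel f1 (Cube.boundary (Fin m)) := by
    refine ⟨⟨⟨⟨fun p => f (eMap p.1 p.2), f.continuous.comp eMap_continuous⟩, ?_, ?_⟩, ?_⟩⟩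
    · intro s
      change f (eMap 0 s) = f s
      rw [eMap_zero]
    · intro s
      rfl
    · intro t s hs
      change f (eMap t s) = f s
      rw [hfb _ (eMap_boundary t hs), hfb _ hs]
  -- stage 2
  have s2 : f1.HomotopicRel f2 (Cube.boundary (Fin m)) := by
    have hcont : Continuous (fun p : I × (Fin m → I) => F (eMap 1 p.2, p.1 * mu p.2)) := by
      refine F.continuous.comp (Continuous.prodMk (he1.comp continuous_snd) ?_)
      exact continuous_fst.mul (mu_continuous.comp continuous_snd)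
    refine ⟨⟨⟨⟨fun p => F (eMap 1 p.2, p.1 * mu p.2), hcont⟩, ?_, ?_⟩, ?_⟩⟩
    · intro s
      change F (eMap 1 s, 0 * mu s) = f (eMap 1 s)
      rw [zero_mul, h0]
    · intro s
      change F (eMap 1 s, 1 * mu s) = γ (mu s)
      rw [one_mul]
      rcases mu_collar s with h | h
      · rw [h, h1, hc]
      · rw [hb _ h]
    · intro t s hs
      change F (eMap 1 s, t * mu s) = f (eMap 1 s)
      rw [mu_boundary hs, mul_zero, h0]
  -- stage 3
  have s3 : f2.HomotopicRel (ContinuousMap.const _ (γ 0)) (Cube.boundary (Fin m)) := by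
    have hcont : Continuous (fun p : I × (Fin m → I) => γ (unitInterval.symm p.1 * mu p.2)) := by
      refine γ.continuous.comp ?_
      exact (unitInterval.continuous_symm.comp continuous_fst).mul
        (mu_continuous.comp continuous_snd)
    refine ⟨⟨⟨⟨fun p => γ (unitInterval.symm p.1 * mu p.2), hcont⟩, ?_, ?_⟩, ?_⟩⟩
    · intro s
      change γ (unitInterval.symm 0 * mu s) = γ (mu s)
      rw [unitInterval.symm_zero, one_mul]
    · intro s
      change γ (unitInterval.symm 1 * mu s) = γ 0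
      rw [unitInterval.symm_one, zero_mul]
    · intro t s hs
      change γ (unitInterval.symm t * mu s) = γ (mu s)
      rw [mu_boundary hs, mul_zero]
  exact (s1.trans s2).trans s3

end Free

/-! ## The grid -/

section Grid

variable {m : ℕ}

/-- weight of the grid point `g` at the point `s` of the cube (not normalised) -/
noncomputable def gw {m : ℕ} (N : ℕ) (g : Fin m → Fin (N + 1)) (s : Fin m → I) : ℝ :=
  max 0 (1 - N * ‖(fun i => (s i : ℝ) - (g i : ℕ) / N : Fin m → ℝ)‖)

theorem gw_pos_iff (N : ℕ) (hN : 1 ≤ N) (g : Fin m → Fin (N + 1)) (s : Fin m → I) :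
    0 < gw N g s ↔ ∀ i, |(N : ℝ) * (s i : ℝ) - (g i : ℕ)| < 1 := by
  have hN' : (0 : ℝ) < N := by exact_mod_cast hN
  unfold gw
  rw [lt_max_iff]
  constructor
  · intro h i
    rcases h with h | h
    · exact absurd h (lt_irrefl _)
    · have h2 := norm_le_pi_norm (fun i => (s i : ℝ) - (g i : ℕ) / N : Fin m → ℝ) i
      have h3 : |(N : ℝ) * (s i : ℝ) - (g i : ℕ)| = N * ‖(s i : ℝ) - (g i : ℕ) / N‖ := by
        rw [Real.norm_eq_abs, ← abs_of_pos hN', ← abs_mul, abs_of_pos hN', mul_sub,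
          mul_div_cancel₀ _ hN'.ne']
      rw [h3]
      have h4 : (N : ℝ) * ‖(s i : ℝ) - (g i : ℕ) / N‖ ≤
          N * ‖(fun i => (s i : ℝ) - (g i : ℕ) / N : Fin m → ℝ)‖ :=
        mul_le_mul_of_nonneg_left h2 hN'.le
      linarith
  · intro h
    right
    have h1 : ‖(fun i => (s i : ℝ) - (g i : ℕ) / N : Fin m → ℝ)‖ < 1 / N := by
      rw [pi_norm_lt_iff (by positivity)]
      intro i
      have h3 : |(N : ℝ) * (s i : ℝ) - (g i : ℕ)| = N * ‖(s i : ℝ) - (g i : ℕ) / N‖ := by
        rw [Real.norm_eq_abs, ← abs_of_pos hN', ← abs_mul, abs_of_pos hN', mul_sub,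
          mul_div_cancel₀ _ hN'.ne']
      rw [lt_div_iff₀ hN', mul_comm, ← h3]
      exact h i
    rw [lt_div_iff₀ hN', mul_comm] at h1
    linarith

theorem gw_nonneg (N : ℕ) (g : Fin m → Fin (N + 1)) (s : Fin m → I) : 0 ≤ gw N g s :=
  le_max_left _ _

/-- the sum of the weights is positive -/
theorem gw_sum_pos {m : ℕ} (N : ℕ) (hN : 1 ≤ N) (s : Fin m → I) :
    0 < ∑ g : Fin m → Fin (N + 1), gw N g s := by
  have hN' : (0 : ℝ) < N := by exact_mod_cast hN
  have hfl : ∀ i, ⌊(N : ℝ) * (s i : ℝ)⌋₊ < N + 1 := by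
    intro i
    have h1 : (N : ℝ) * (s i : ℝ) ≤ N := by
      have := (s i).2.2
      nlinarith
    have h2 : ⌊(N : ℝ) * (s i : ℝ)⌋₊ ≤ N := by
      have h3 := Nat.floor_le_floor h1
      rwa [Nat.floor_natCast] at h3
    omega
  have hpos : 0 < gw N (fun i => ⟨⌊(N : ℝ) * (s i : ℝ)⌋₊, hfl i⟩ : Fin m → Fin (N + 1)) s := by
    rw [gw_pos_iff N hN]
    intro i
    have h0 : 0 ≤ (N : ℝ) * (s i : ℝ) := mul_nonneg hN'.le (s i).2.1
    have h1 := Nat.floor_le h0
    have h2 := Nat.lt_floor_add_one ((N : ℝ) * (s i : ℝ))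
    rw [abs_lt]
    constructor
    · change -1 < (N : ℝ) * (s i : ℝ) - (⌊(N : ℝ) * (s i : ℝ)⌋₊ : ℝ)
      linarith
    · change (N : ℝ) * (s i : ℝ) - (⌊(N : ℝ) * (s i : ℝ)⌋₊ : ℝ) < 1
      linarith
  exact Finset.sum_pos' (fun g _ => gw_nonneg N g s) ⟨_, Finset.mem_univ _, hpos⟩

theorem gw_continuous {m : ℕ} (N : ℕ) (g : Fin m → Fin (N + 1)) : Continuous (gw N g) := by
  unfold gw
  refine continuous_const.max (continuous_const.sub (continuous_const.mul ?_))
  exact Continuous.norm (continuous_pi fun i => by fun_prop)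

/-- the grid points of positive weight at `s` lie in a common small cube -/
theorem gw_cube {m : ℕ} (N : ℕ) (hN : 1 ≤ N) (s : Fin m → I) :
    ∃ b : Fin m → ℕ, ∀ g : Fin m → Fin (N + 1), 0 < gw N g s →
      ∀ i, (g i : ℕ) = b i ∨ (g i : ℕ) = b i + 1 := by
  have hN' : (0 : ℝ) < N := by exact_mod_cast hN
  refine ⟨fun i => ⌊(N : ℝ) * (s i : ℝ)⌋₊, fun g hg i => ?_⟩
  have h := (gw_pos_iff N hN g s).1 hg i
  have h0 : 0 ≤ (N : ℝ) * (s i : ℝ) := mul_nonneg hN'.le (s i).2.1
  have h1 := Nat.floor_le h0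
  have h2 := Nat.lt_floor_add_one ((N : ℝ) * (s i : ℝ))
  rw [abs_lt] at h
  have h3 : ((g i : ℕ) : ℝ) < (⌊(N : ℝ) * (s i : ℝ)⌋₊ : ℝ) + 2 := by linarith [h.1]
  have h4 : (⌊(N : ℝ) * (s i : ℝ)⌋₊ : ℝ) < ((g i : ℕ) : ℝ) + 1 := by linarith [h.2]
  have h5 : (g i : ℕ) < ⌊(N : ℝ) * (s i : ℝ)⌋₊ + 2 := by exact_mod_cast h3
  have h6 : ⌊(N : ℝ) * (s i : ℝ)⌋₊ < (g i : ℕ) + 1 := by exact_mod_cast h4
  change (g i : ℕ) = ⌊(N : ℝ) * (s i : ℝ)⌋₊ ∨ (g i : ℕ) = ⌊(N : ℝ) * (s i : ℝ)⌋₊ + 1
  omega

/-- at boundary points of the cube only boundary grid points have positive weight -/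
theorem gw_boundary {m : ℕ} (N : ℕ) (hN : 1 ≤ N) (s : Fin m → I)
    (hs : s ∈ Cube.boundary (Fin m)) (g : Fin m → Fin (N + 1)) (hg : 0 < gw N g s) :
    ∃ i, g i = 0 ∨ g i = Fin.last N := by
  obtain ⟨i, hi⟩ := hs
  have h := (gw_pos_iff N hN g s).1 hg i
  rw [abs_lt] at h
  refine ⟨i, ?_⟩
  rcases hi with hi | hi
  · left
    rw [hi] at h
    have h3 : ((g i : ℕ) : ℝ) < 1 := by
      have := h.1
      rw [Set.Icc.coe_zero, mul_zero] at this
      linarith
    have h5 : (g i : ℕ) < 1 := by exact_mod_cast h3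
    apply Fin.ext
    simp only [Fin.val_zero]
    omega
  · right
    rw [hi] at h
    have h3 : (N : ℝ) < ((g i : ℕ) : ℝ) + 1 := by
      have := h.2
      rw [Set.Icc.coe_one, mul_one] at this
      linarith
    have h5 : N < (g i : ℕ) + 1 := by exact_mod_cast h3
    have h6 := (g i).2
    apply Fin.ext
    simp only [Fin.val_last]
    omega

/-- Grid approximation of a map to a Rips complex which is constant on the boundary. -/
theorem grid_approx {m : ℕ} {Z : Type*} {d : Z → Z → ℕ} {R : ℝ} (x : Rips d R)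
    (f : C(Fin m → I, Rips d R)) (hf : ∀ s ∈ Cube.boundary (Fin m), f s = x) :
    ∃ N : ℕ, 1 ≤ N ∧ ∃ φ : (Fin m → Fin (N + 1)) → Z, ∃ z₀ : Z, 0 < x.1 z₀ ∧
      (∀ g s, 0 < gw N g s → 0 < (f s).1 (φ g)) ∧
      (∀ g, (∃ i, g i = 0 ∨ g i = Fin.last N) → φ g = z₀) := by
  classical
  -- every point of the Rips complex has a positive coordinate
  have hex : ∀ p : Rips d R, ∃ z, 0 < p.1 z := by
    intro p
    obtain ⟨hp0, s, hs, hout, hsum⟩ := p.2
    by_contra hcon
    push Not at hcon
    have : ∑ z ∈ s, p.1 z ≤ 0 := Finset.sum_nonpos fun z _ => hcon z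
    linarith
  obtain ⟨z₀, hz₀⟩ := hex x
  -- open sets
  let U : Z → Set (Fin m → I) := fun z => {s | 0 < (f s).1 z}
  have hUo : ∀ z, IsOpen (U z) := by
    intro z
    have hc : Continuous (fun s : Fin m → I => (f s).1 z) :=
      (continuous_apply z).comp (continuous_subtype_val.comp f.continuous)
    exact isOpen_lt continuous_const hc
  have hUc : (Set.univ : Set (Fin m → I)) ⊆ ⋃ z, U z := by
    intro s _
    obtain ⟨z, hz⟩ := hex (f s)
    exact Set.mem_iUnion.2 ⟨z, hz⟩
  obtain ⟨δ₁, hδ₁, hL₁⟩ := lebesgue_number_lemma_of_metric isCompact_univ hUo hUc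
  -- boundary
  have hBc : IsCompact (Cube.boundary (Fin m)) := by
    have hcl : IsClosed (Cube.boundary (Fin m)) := by
      have : Cube.boundary (Fin m) = ⋃ i : Fin m, ({s : Fin m → I | s i = 0} ∪ {s | s i = 1}) := by
        ext s
        simp [Cube.boundary]
      rw [this]
      refine isClosed_iUnion_of_finite fun i => IsClosed.union ?_ ?_
      · exact isClosed_eq (continuous_apply i) continuous_const
      · exact isClosed_eq (continuous_apply i) continuous_const
    exact hcl.isCompact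
  have hBU : Cube.boundary (Fin m) ⊆ U z₀ := by
    intro s hs
    change 0 < (f s).1 z₀
    rw [hf s hs]
    exact hz₀
  obtain ⟨δ₂, hδ₂, hL₂⟩ := hBc.exists_thickening_subset_open (hUo z₀) hBU
  obtain ⟨N, hN⟩ := exists_nat_gt (1 / min δ₁ δ₂)
  have hmin : 0 < min δ₁ δ₂ := lt_min hδ₁ hδ₂
  have hN0 : (0 : ℝ) < N := lt_trans (by positivity) hN
  have hN1 : 1 ≤ N := by exact_mod_cast hN0
  have hNδ : 1 / (N : ℝ) < min δ₁ δ₂ := by
    rw [div_lt_iff₀ hN0]
    rw [div_lt_iff₀ hmin] at hN
    linarith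
  -- grid points as points of the cube
  let pt : (Fin m → Fin (N + 1)) → (Fin m → I) := fun g i =>
    ⟨(g i : ℕ) / N, by positivity, by
      rw [div_le_one hN0]
      have := (g i).2
      exact_mod_cast (by omega : (g i : ℕ) ≤ N)⟩
  have hdist : ∀ g s, 0 < gw N g s → dist s (pt g) < 1 / N := by
    intro g s hg
    rw [dist_pi_lt_iff (by positivity)]
    intro i
    have h := (gw_pos_iff N hN1 g s).1 hg i
    rw [Subtype.dist_eq, Real.dist_eq]
    change |(s i : ℝ) - (g i : ℕ) / N| < 1 / N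
    have h3 : |(N : ℝ) * (s i : ℝ) - (g i : ℕ)| = N * |(s i : ℝ) - (g i : ℕ) / N| := by
      rw [← abs_of_pos hN0, ← abs_mul, abs_of_pos hN0, mul_sub,
        mul_div_cancel₀ _ hN0.ne']
    rw [lt_div_iff₀ hN0, mul_comm, ← h3]
    exact h
  have hch : ∀ g : Fin m → Fin (N + 1), ∃ z, Metric.ball (pt g) δ₁ ⊆ U z :=
    fun g => hL₁ (pt g) (Set.mem_univ _)
  choose ψ hψ using hch
  refine ⟨N, hN1, fun g => if (∃ i, g i = 0 ∨ g i = Fin.last N) then z₀ else ψ g, z₀, hz₀,
    ?_, ?_⟩
  · intro g s hg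
    have hd := hdist g s hg
    by_cases hgb : ∃ i, g i = 0 ∨ g i = Fin.last N
    · simp only [if_pos hgb]
      have hb : pt g ∈ Cube.boundary (Fin m) := by
        obtain ⟨i, hi⟩ := hgb
        refine ⟨i, ?_⟩
        rcases hi with hi | hi
        · left
          apply Subtype.ext
          change ((g i : ℕ) : ℝ) / N = 0
          rw [hi]
          simp
        · right
          apply Subtype.ext
          change ((g i : ℕ) : ℝ) / N = 1
          rw [hi]
          simp [hN0.ne']
      have : s ∈ Metric.thickening δ₂ (Cube.boundary (Fin m)) := by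
        rw [Metric.mem_thickening_iff]
        exact ⟨pt g, hb, lt_trans hd (lt_of_lt_of_le hNδ (min_le_right _ _))⟩
      exact hL₂ this
    · simp only [if_neg hgb]
      have : s ∈ Metric.ball (pt g) δ₁ := by
        rw [Metric.mem_ball]
        exact lt_trans hd (lt_of_lt_of_le hNδ (min_le_left _ _))
      exact hψ g this
  · intro g hg
    simp only [if_pos hg]

end Grid

end Pool.Agent.Lib.MP_944cb0_gt
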