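import Pool.Agent.Lib.MP_944cb0_gt.Tower
import Pool.Agent.Lib.MP_944cb0_gt.Top

/-!
The final topological argument: from the tower data to the null-homotopy in the Rips complex.
-/

set_option autoImplicit false

namespace Pool.Agent.Lib.MP_944cb0_gt

open scoped unitInterval

universe u

/-! ### Homotopies constant on a set at each time -/

section ConstOn

variable {X Y : Type*} [TopologicalSpace X] [TopologicalSpace Y]

/-- the homotopy is constant on `S` at each time -/
def ConstOn {f g : C(X, Y)} (H : f.Homotopy g) (S : Set X) : Prop :=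
  ∀ t, ∀ s ∈ S, ∀ s' ∈ S, H (t, s) = H (t, s')

theorem ConstOn.trans {f g h : C(X, Y)} {H : f.Homotopy g} {H' : g.Homotopy h} {S : Set X}
    (h1 : ConstOn H S) (h2 : ConstOn H' S) : ConstOn (H.trans H') S := by
  intro t s hs s' hs'
  rw [ContinuousMap.Homotopy.trans_apply, ContinuousMap.Homotopy.trans_apply]
  split_ifs with h
  · exact h1 _ s hs s' hs'
  · exact h2 _ s hs s' hs'

end ConstOn

/-! ### Weights -/

section Weights

variable {m : ℕ}

/-- normalised weights -/
noncomputable def nw (N : ℕ) (g : Fin m → Fin (N + 1)) (s : Fin m → I) : ℝ :=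
  gw N g s / ∑ g' : Fin m → Fin (N + 1), gw N g' s

theorem nw_continuous (N : ℕ) (hN : 1 ≤ N) (g : Fin m → Fin (N + 1)) : Continuous (nw N g) :=
  (gw_continuous N g).div (continuous_finsetSum _ fun g' _ => gw_continuous N g')
    fun s => (gw_sum_pos N hN s).ne'

theorem nw_nonneg (N : ℕ) (hN : 1 ≤ N) (g : Fin m → Fin (N + 1)) (s : Fin m → I) :
    0 ≤ nw N g s :=
  div_nonneg (gw_nonneg N g s) (gw_sum_pos N hN s).le

theorem nw_sum (N : ℕ) (hN : 1 ≤ N) (s : Fin m → I) :
    ∑ g : Fin m → Fin (N + 1), nw N g s = 1 := by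
  unfold nw
  rw [← Finset.sum_div, div_self (gw_sum_pos N hN s).ne']

theorem nw_pos (N : ℕ) (_hN : 1 ≤ N) {g : Fin m → Fin (N + 1)} {s : Fin m → I}
    (h : 0 < nw N g s) : 0 < gw N g s := by
  by_contra hcon
  have h0 : gw N g s = 0 := le_antisymm (not_lt.1 hcon) (gw_nonneg N g s)
  unfold nw at h
  rw [h0, zero_div] at h
  exact lt_irrefl _ h

theorem nw_exists_pos (N : ℕ) (hN : 1 ≤ N) (s : Fin m → I) :
    ∃ g : Fin m → Fin (N + 1), 0 < nw N g s := by
  by_contra hcon
  push Not at hcon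
  have h1 := nw_sum N hN s
  have h2 : ∑ g : Fin m → Fin (N + 1), nw N g s ≤ 0 := Finset.sum_nonpos fun g _ => hcon g
  linarith

/-- the grid points of the small cube with base `b` -/
def InCube {N : ℕ} (b : Fin m → ℕ) (g : Fin m → Fin (N + 1)) : Prop :=
  ∀ i, (g i : ℕ) = b i ∨ (g i : ℕ) = b i + 1

/-- a point of the cube at which all grid points of a small cube have positive weight -/
theorem gw_center (N : ℕ) (hN : 1 ≤ N) (b : Fin m → ℕ) :
    ∃ s : Fin m → I, ∀ g : Fin m → Fin (N + 1), InCube b g → 0 < gw N g s := by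
  have hN' : (0 : ℝ) < N := by exact_mod_cast hN
  refine ⟨fun i => ⟨min 1 (((b i : ℝ) + 1 / 2) / N), le_min zero_le_one (by positivity),
    min_le_left _ _⟩, fun g hg => ?_⟩
  rw [gw_pos_iff N hN]
  intro i
  have hgN : (g i : ℕ) ≤ N := Nat.lt_succ_iff.1 (g i).2
  change |(N : ℝ) * min 1 (((b i : ℝ) + 1 / 2) / N) - (g i : ℕ)| < 1
  by_cases hb : b i < N
  · have hb' : ((b i : ℝ) + 1 / 2) / N ≤ 1 := by
      rw [div_le_one hN']
      have : (b i : ℝ) + 1 ≤ N := by exact_mod_cast hb
      linarith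
    rw [min_eq_right hb', mul_div_cancel₀ _ hN'.ne']
    rcases hg i with h | h
    · rw [h, abs_lt]; constructor <;> linarith
    · rw [h, abs_lt]; push_cast; constructor <;> linarith
  · have hgi : (g i : ℕ) = N := by
      rcases hg i with h | h <;> omega
    have hb' : 1 ≤ ((b i : ℝ) + 1 / 2) / N := by
      rw [le_div_iff₀ hN', one_mul]
      have : (N : ℝ) ≤ b i := by exact_mod_cast (not_lt.1 hb)
      linarith
    rw [min_eq_left hb', hgi]
    simp

end Weights

/-! ### The lift of the grid -/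

section Lift

variable {m N : ℕ} {Q : Type*} [Group Q]

/-- truncated diagonal step -/
def dn (g : Fin m → Fin (N + 1)) : Fin m → Fin (N + 1) :=
  fun i => ⟨(g i : ℕ) - 1, lt_of_le_of_lt (Nat.sub_le _ _) (g i).2⟩

theorem dn_val (g : Fin m → Fin (N + 1)) (i : Fin m) : ((dn g i : Fin (N + 1)) : ℕ) = (g i : ℕ) - 1 :=
  rfl

theorem dn_iter_val (k : ℕ) (g : Fin m → Fin (N + 1)) (i : Fin m) :
    ((dn^[k] g i : Fin (N + 1)) : ℕ) = (g i : ℕ) - k := by
  induction k generalizing g with
  | zero => simp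
  | succ k ih => rw [Function.iterate_succ_apply, ih, dn_val]; omega

theorem dn_iter_N (g : Fin m → Fin (N + 1)) : dn^[N] g = 0 := by
  funext i
  apply Fin.ext
  rw [dn_iter_val]
  have := (g i).2
  simp only [Pi.zero_apply, Fin.val_zero]
  omega

theorem dn_zero : dn (0 : Fin m → Fin (N + 1)) = 0 := by
  funext i
  apply Fin.ext
  rw [dn_val]
  simp

/-- product of the values of a function on pairs along the diagonal path -/
def lift (c : (Fin m → Fin (N + 1)) → (Fin m → Fin (N + 1)) → Q) :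
    ℕ → (Fin m → Fin (N + 1)) → Q
  | 0, _ => 1
  | k + 1, g => lift c k (dn g) * c (dn g) g

variable (c : (Fin m → Fin (N + 1)) → (Fin m → Fin (N + 1)) → Q)
  (hc : ∀ b : Fin m → ℕ, ∀ g g' g'', InCube b g → InCube b g' → InCube b g'' →
    c g g' * c g' g'' = c g g'')

include hc

theorem c_self (g : Fin m → Fin (N + 1)) : c g g = 1 := by
  have hg : InCube (fun i => (g i : ℕ)) g := fun i => Or.inl rfl
  have := hc _ g g g hg hg hg
  exact mul_eq_left.1 this

theorem lift_stable (k : ℕ) (g : Fin m → Fin (N + 1)) (h : dn^[k] g = 0) :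
    lift c (k + 1) g = lift c k g := by
  induction k generalizing g with
  | zero =>
    have hg : g = 0 := h
    subst hg
    change lift c 0 (dn 0) * c (dn 0) 0 = 1
    rw [dn_zero, c_self c hc]
    change (1 : Q) * 1 = 1
    simp
  | succ k ih =>
    change lift c (k + 1) (dn g) * c (dn g) g = lift c k (dn g) * c (dn g) g
    rw [ih (dn g) (by rw [← Function.iterate_succ_apply]; exact h)]

theorem lift_rec (g : Fin m → Fin (N + 1)) :
    lift c N g = lift c N (dn g) * c (dn g) g := by
  rw [← lift_stable c hc N g (dn_iter_N g)]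
  rfl

theorem lift_zero : lift c N 0 = 1 := by
  have : ∀ k, lift c k 0 = 1 := by
    intro k
    induction k with
    | zero => rfl
    | succ k ih =>
      change lift c k (dn 0) * c (dn 0) 0 = 1
      rw [dn_zero, ih, c_self c hc, mul_one]
  exact this N

theorem lift_cube (k : ℕ) : ∀ (b : Fin m → ℕ) (g g' : Fin m → Fin (N + 1)), InCube b g →
    InCube b g' → dn^[k] g = 0 → dn^[k] g' = 0 → lift c N g' = lift c N g * c g g' := by
  induction k with
  | zero =>
    intro b g g' _ _ h h'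
    have h1 : g = 0 := h
    have h2 : g' = 0 := h'
    rw [h1, h2, c_self c hc, mul_one]
  | succ k ih =>
    intro b g g' hg hg' h h'
    -- the minimum of the two points
    let a : Fin m → Fin (N + 1) := fun i => min (g i) (g' i)
    have ha : ∀ i, (a i : ℕ) = min (g i : ℕ) (g' i : ℕ) := fun i => by
      change ((min (g i) (g' i) : Fin (N + 1)) : ℕ) = _
      rcases le_total (g i) (g' i) with h | h
      · rw [min_eq_left h, min_eq_left (by exact_mod_cast h)]
      · rw [min_eq_right h, min_eq_right (by exact_mod_cast h)]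
    have e1 : c g a * c a g' = c g g' := by
      refine hc b g a g' hg ?_ hg'
      intro i
      have := ha i; have := hg i; have := hg' i
      omega
    have e2 : c (dn g) g * c g a = c (dn g) a := by
      refine hc (fun i => (dn g i : ℕ)) (dn g) g a ?_ ?_ ?_ <;>
        (intro i; have h1 := ha i; have h2 := hg i; have h3 := hg' i; have h4 := dn_val g i
         have h5 := dn_val g' i; have h6 := dn_val a i; first | omega | (beta_reduce; omega))
    have e3 : c a (dn g') * c (dn g') g' = c a g' := by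
      refine hc (fun i => (dn g' i : ℕ)) a (dn g') g' ?_ ?_ ?_ <;>
        (intro i; have h1 := ha i; have h2 := hg i; have h3 := hg' i; have h4 := dn_val g i
         have h5 := dn_val g' i; have h6 := dn_val a i; first | omega | (beta_reduce; omega))
    have e4 : c (dn g) a * c a (dn g') = c (dn g) (dn g') := by
      refine hc (fun i => (dn a i : ℕ)) (dn g) a (dn g') ?_ ?_ ?_ <;>
        (intro i; have h1 := ha i; have h2 := hg i; have h3 := hg' i; have h4 := dn_val g i
         have h5 := dn_val g' i; have h6 := dn_val a i; first | omega | (beta_reduce; omega))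
    have e5 : lift c N (dn g') = lift c N (dn g) * c (dn g) (dn g') := by
      refine ih (fun i => (dn a i : ℕ)) (dn g) (dn g') ?_ ?_ ?_ ?_
      · intro i
        simp only [dn_val]; have := ha i; have := hg i; have := hg' i; omega
      · intro i
        simp only [dn_val]; have := ha i; have := hg i; have := hg' i; omega
      · rw [← Function.iterate_succ_apply]; exact h
      · rw [← Function.iterate_succ_apply]; exact h'
    rw [lift_rec c hc g', lift_rec c hc g, e5, ← e4, ← e1]
    rw [mul_assoc, mul_assoc, e3, ← e2]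
    simp only [mul_assoc]

theorem lift_cube' (b : Fin m → ℕ) (g g' : Fin m → Fin (N + 1)) (hg : InCube b g)
    (hg' : InCube b g') : lift c N g' = lift c N g * c g g' :=
  lift_cube c hc N b g g' hg hg' (dn_iter_N g) (dn_iter_N g')

/-- boundary grid points -/
def GBd (g : Fin m → Fin (N + 1)) : Prop := ∃ i, g i = 0 ∨ g i = Fin.last N

omit hc in
theorem gbd_zero (hm : 2 ≤ m) : GBd (0 : Fin m → Fin (N + 1)) :=
  ⟨⟨0, by omega⟩, Or.inl rfl⟩

theorem lift_boundary (hm : 2 ≤ m)
    (hb : ∀ g g', GBd g → GBd g' → c g g' = 1) :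
    ∀ n, ∀ g : Fin m → Fin (N + 1), ∑ i, (g i : ℕ) = n → GBd g → lift c N g = 1 := by
  intro n
  induction n using Nat.strong_induction_on with
  | _ n ih =>
  intro g hn hg
  by_cases h0 : g = 0
  · rw [h0, lift_zero c hc]
  -- lowering one coordinate
  have step : ∀ j, g j ≠ 0 → GBd (Function.update g j ⟨(g j : ℕ) - 1,
      lt_of_le_of_lt (Nat.sub_le _ _) (g j).2⟩) → lift c N g = 1 := by
    intro j hj hg'
    set g' := Function.update g j ⟨(g j : ℕ) - 1,
      lt_of_le_of_lt (Nat.sub_le _ _) (g j).2⟩ with hg'def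
    have hjpos : 0 < (g j : ℕ) := by
      rcases Nat.eq_zero_or_pos (g j : ℕ) with h | h
      · exact absurd (Fin.ext h) hj
      · exact h
    have hj' : (g' j : ℕ) = (g j : ℕ) - 1 := by rw [hg'def, Function.update_self]
    have hne : ∀ i, i ≠ j → g' i = g i := fun i hi => by
      rw [hg'def, Function.update_of_ne hi]
    have hsum : ∑ i, (g' i : ℕ) < n := by
      rw [← hn]
      apply Finset.sum_lt_sum
      · intro i _
        by_cases hi : i = j
        · subst hi; omega
        · rw [hne i hi]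
      · exact ⟨j, Finset.mem_univ _, by omega⟩
    have h1 := ih _ hsum g' rfl hg'
    have h2 := lift_cube' c hc (fun i => (g' i : ℕ)) g' g (fun i => Or.inl rfl) (by
      intro i
      change (g i : ℕ) = (g' i : ℕ) ∨ (g i : ℕ) = (g' i : ℕ) + 1
      by_cases hi : i = j
      · subst hi; omega
      · rw [hne i hi]; exact Or.inl rfl)
    rw [h2, h1, hb g' g hg' hg, mul_one]
  obtain ⟨i0, hi0⟩ := hg
  by_cases h1 : ∃ j, j ≠ i0 ∧ g j ≠ 0
  · obtain ⟨j, hj, hgj⟩ := h1
    refine step j hgj ⟨i0, ?_⟩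
    rw [Function.update_of_ne hj.symm]
    exact hi0
  · push Not at h1
    have hi0' : g i0 ≠ 0 := by
      intro hcon
      apply h0
      funext i
      by_cases hi : i = i0
      · rw [hi, hcon]; rfl
      · exact h1 i hi
    obtain ⟨j, hj⟩ : ∃ j : Fin m, j ≠ i0 := by
      by_cases h : i0 = ⟨0, by omega⟩
      · refine ⟨⟨1, by omega⟩, ?_⟩
        rw [h]
        simp [Fin.ext_iff]
      · exact ⟨_, Ne.symm h⟩
    refine step i0 hi0' ⟨j, Or.inl ?_⟩
    rw [Function.update_of_ne hj]
    exact h1 j hj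

end Lift

/-! ### Weighted maps concentrated in one vertex -/

section Delta

variable {V : Type*} {T : Type*} [TopologicalSpace T] {ι : Type*} [Fintype ι]

open Classical in
theorem wmap_delta (K : Set (Finset V)) (u : ι → T → ℝ) (ψ : ι → V)
    (hc : ∀ i, Continuous (u i)) (h0 : ∀ i t, 0 ≤ u i t) (h1 : ∀ t, ∑ i, u i t = 1)
    (hK : ∀ t, ∃ s ∈ K, ∀ i, 0 < u i t → ψ i ∈ s) (t : T) (v0 : V)
    (h : ∀ i, 0 < u i t → ψ i = v0) (v : V) :
    (wmap K u ψ hc h0 h1 hK t).1 v = if v0 = v then 1 else 0 := by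
  rw [wmap_apply]
  by_cases hv : v0 = v
  · rw [if_pos hv, ← h1 t]
    refine Finset.sum_congr rfl fun i _ => ?_
    rcases (h0 i t).lt_or_eq with hi | hi
    · rw [if_pos ((h i hi).trans hv)]
    · rw [← hi]; simp
  · rw [if_neg hv]
    refine Finset.sum_eq_zero fun i _ => ?_
    rcases (h0 i t).lt_or_eq with hi | hi
    · rw [if_neg]
      intro hcon
      exact hv ((h i hi).symm.trans hcon)
    · rw [← hi]; simp

end Delta

/-! ### The final assembly -/

open Classical in
theorem tower_null_of_cover {Y V Q : Type*} [Group Q] (d : Y → Y → ℕ) (R E : ℝ) (hRE : R ≤ E)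
    (T : Tower V) (L : Y → V)
    (h1 : ∀ B : Finset Y, RipsSimplex d R B →
      ∃ v w, (v = w ∨ T.Adj v w) ∧ ∀ b ∈ B, T.Mem4 v w (L b))
    (h2 : ∀ v w, (v = w ∨ T.Adj v w) → ∀ x y, T.Mem4 v w (L x) → T.Mem4 v w (L y) →
      (d x y : ℝ) ≤ E) (m : ℕ) (hm : 2 ≤ m) (x : Rips d R)
    (f : GenLoop (Fin m) (Rips d R) x) (e : V → V → Q)
    (he : ∀ s ∈ T.cplx (Set.range L), ∀ a ∈ s, ∀ b ∈ s, ∀ c ∈ s, e a b * e b c = e a c)
    (hgood : ∀ x : V × Q, {x} ∈ coverCplx (T.cplx (Set.range L)) e →
        GoodAt (coverCplx (T.cplx (Set.range L)) e) (fun y => T.ℓ y.1) x) :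
    ((Rips.incl hRE).comp f.1).HomotopicRel
      (ContinuousMap.const (Fin m → I) (Rips.incl hRE x)) (Cube.boundary (Fin m)) := by
  -- grid approximation
  obtain ⟨N, hN, φ, z₀, hz₀, hφ, hφb⟩ := grid_approx x f.1 f.2
  -- section of the label map
  have hsec : ∃ sec : V → Y, ∀ y, L (sec (L y)) = L y := by
    refine ⟨fun v => if h : ∃ y, L y = v then h.choose else z₀, fun y => ?_⟩
    have h : ∃ y', L y' = L y := ⟨y, rfl⟩
    simp only [dif_pos h]
    exact h.choose_spec
  obtain ⟨sec, hsec⟩ := hsec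
  -- the target complex
  set K' : Set (Finset Y) := {s | RipsSimplex d E s} with hK'
  set K : Set (Finset V) := T.cplx (Set.range L) with hK
  set K2 : Set (Finset (V × Q)) := coverCplx K e with hK2
  -- vertices over one point of the cube
  have hpt : ∀ s : Fin m → I, ∃ B : Finset Y, RipsSimplex d R B ∧ (∀ v, v ∉ B → (f.1 s).1 v = 0) ∧
      (∀ g, 0 < gw N g s → φ g ∈ B) := by
    intro s
    obtain ⟨_, B, hB, h0, _⟩ := (f.1 s).2
    refine ⟨B, hB, h0, fun g hg => ?_⟩
    by_contra hcon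
    have := hφ g s hg
    rw [h0 _ hcon] at this
    exact lt_irrefl _ this
  have hmem4 : ∀ s : Fin m → I, ∃ v w, (v = w ∨ T.Adj v w) ∧
      ∀ g, 0 < gw N g s → T.Mem4 v w (L (φ g)) := by
    intro s
    obtain ⟨B, hB, _, hg⟩ := hpt s
    obtain ⟨v, w, hvw, h⟩ := h1 B hB
    exact ⟨v, w, hvw, fun g hgs => h _ (hg g hgs)⟩
  -- the label of a small cube is a simplex of `K`
  have hcubeK : ∀ b : Fin m → ℕ, ∀ S : Finset (Fin m → Fin (N + 1)), S.Nonempty →
      (∀ g ∈ S, InCube b g) → S.image (fun g => L (φ g)) ∈ K := by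
    intro b S hS hSb
    obtain ⟨s, hs⟩ := gw_center N hN b
    obtain ⟨v, w, hvw, h⟩ := hmem4 s
    refine ⟨hS.image _, ?_, v, w, hvw, ?_⟩
    · intro a ha
      obtain ⟨g, _, rfl⟩ := Finset.mem_image.1 ha
      exact ⟨_, rfl⟩
    · intro a ha
      obtain ⟨g, hg, rfl⟩ := Finset.mem_image.1 ha
      exact h g (hs g (hSb g hg))
  -- the cocycle
  set c : (Fin m → Fin (N + 1)) → (Fin m → Fin (N + 1)) → Q :=
    fun g g' => e (L (φ g)) (L (φ g')) with hcdef
  have hc : ∀ b : Fin m → ℕ, ∀ g g' g'', InCube b g → InCube b g' → InCube b g'' →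
      c g g' * c g' g'' = c g g'' := by
    intro b g g' g'' h h' h''
    refine he _ (hcubeK b {g, g', g''} ⟨g, by simp⟩ ?_) _ ?_ _ ?_ _ ?_
    · intro a ha
      simp only [Finset.mem_insert, Finset.mem_singleton] at ha
      rcases ha with rfl | rfl | rfl <;> assumption
    · exact Finset.mem_image.2 ⟨g, by simp, rfl⟩
    · exact Finset.mem_image.2 ⟨g', by simp, rfl⟩
    · exact Finset.mem_image.2 ⟨g'', by simp, rfl⟩
  set φt : (Fin m → Fin (N + 1)) → V × Q := fun g => (L (φ g), lift c N g) with hφt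
  have hcube2 : ∀ b : Fin m → ℕ, ∀ S : Finset (Fin m → Fin (N + 1)), S.Nonempty →
      (∀ g ∈ S, InCube b g) → S.image φt ∈ K2 := by
    intro b S hS hSb
    refine ⟨hS.image _, ?_, ?_⟩
    · rw [Finset.image_image]
      exact hcubeK b S hS hSb
    · intro p hp q hq
      obtain ⟨g, hg, rfl⟩ := Finset.mem_image.1 hp
      obtain ⟨g', hg', rfl⟩ := Finset.mem_image.1 hq
      exact lift_cube' c hc b g g' (hSb g hg) (hSb g' hg')
  set F : Finset (V × Q) := Finset.univ.image φt with hF
  have hFmem : ∀ g, φt g ∈ F := fun g => Finset.mem_image_of_mem _ (Finset.mem_univ _)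
  have hself : ∀ g : Fin m → Fin (N + 1), InCube (fun i => (g i : ℕ)) g := fun g i => Or.inl rfl
  -- properties of the cover
  have hKdown := T.cplx_down (A := Set.range L)
  have hdown : ∀ s ∈ K2, ∀ t ⊆ s, t.Nonempty → t ∈ K2 := by
    rintro s ⟨_, hs1, hs2⟩ t ht htn
    exact ⟨htn, hKdown _ hs1 _ (Finset.image_subset_image ht) (htn.image _),
      fun p hp q hq => hs2 p (ht hp) q (ht hq)⟩
  have hne : ∀ s ∈ K2, s.Nonempty := fun s hs => hs.1
  have hθ : ∀ s ∈ K2, ∃ s' ∈ K', ∀ p ∈ s, sec p.1 ∈ s' := by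
    rintro s ⟨hsn, ⟨_, hs1, v, w, hvw, hs2⟩, _⟩
    refine ⟨s.image fun p => sec p.1, ⟨hsn.image _, ?_⟩,
      fun p hp => Finset.mem_image_of_mem _ hp⟩
    intro a ha b hb
    obtain ⟨p, hp, rfl⟩ := Finset.mem_image.1 ha
    obtain ⟨q, hq, rfl⟩ := Finset.mem_image.1 hb
    have hp1 : p.1 ∈ s.image Prod.fst := Finset.mem_image_of_mem _ hp
    have hq1 : q.1 ∈ s.image Prod.fst := Finset.mem_image_of_mem _ hq
    obtain ⟨y, hy⟩ := hs1 _ hp1
    obtain ⟨y', hy'⟩ := hs1 _ hq1
    refine h2 v w hvw _ _ ?_ ?_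
    · rw [← hy, hsec, hy]; exact hs2 _ hp1
    · rw [← hy', hsec, hy']; exact hs2 _ hq1
  have hsing : ∀ v ∈ F, {v} ∈ K2 := by
    intro v hv
    obtain ⟨g, _, rfl⟩ := Finset.mem_image.1 hv
    have := hcube2 _ {g} (Finset.singleton_nonempty g) (by
      intro g' hg'; rw [Finset.mem_singleton] at hg'; rw [hg']; exact hself g)
    rwa [Finset.image_singleton] at this
  have hadj : ∀ b g g', InCube b g → InCube b g' → Adjc K2 (φt g) (φt g') := by
    intro b g g' hg hg'
    refine ⟨_, hcube2 b {g, g'} ⟨g, by simp⟩ ?_, ?_, ?_⟩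
    · intro a ha
      simp only [Finset.mem_insert, Finset.mem_singleton] at ha
      rcases ha with rfl | rfl <;> assumption
    · exact Finset.mem_image.2 ⟨g, by simp, rfl⟩
    · exact Finset.mem_image.2 ⟨g', by simp, rfl⟩
  have hdnadj : ∀ g, Adjc K2 (φt g) (φt (dn g)) := by
    intro g
    refine hadj (fun i => (dn g i : ℕ)) g (dn g) ?_ (fun i => Or.inl rfl)
    intro i
    have := dn_val g i
    first | omega | (beta_reduce; omega)
  have hConn : Conn K2 F := by
    intro A hAF hAne hcl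
    have key1 : ∀ g, φt g ∈ A → φt (dn g) ∈ A := fun g hg =>
      hcl _ hg _ (hFmem _) (hdnadj g)
    have key2 : ∀ g, φt (dn g) ∈ A → φt g ∈ A := fun g hg =>
      hcl _ hg _ (hFmem _) (hdnadj g).symm
    have k1 : ∀ k g, φt g ∈ A → φt (dn^[k] g) ∈ A := by
      intro k
      induction k with
      | zero => intro g hg; exact hg
      | succ k ih => intro g hg; rw [Function.iterate_succ_apply]; exact ih _ (key1 g hg)
    have k2 : ∀ k g, φt (dn^[k] g) ∈ A → φt g ∈ A := by
      intro k
      induction k with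
      | zero => intro g hg; exact hg
      | succ k ih =>
        intro g hg
        rw [Function.iterate_succ_apply] at hg
        exact key2 g (ih _ hg)
    apply Finset.Subset.antisymm hAF
    intro y hy
    obtain ⟨g, _, rfl⟩ := Finset.mem_image.1 hy
    obtain ⟨a, ha⟩ := hAne
    obtain ⟨g0, _, hg0⟩ := Finset.mem_image.1 (hAF ha)
    have h3 := k1 N g0 (hg0 ▸ ha)
    rw [dn_iter_N] at h3
    apply k2 N g
    rw [dn_iter_N]
    exact h3
  have hFne : F.Nonempty := ⟨φt 0, hFmem 0⟩
  obtain ⟨c0, ⟨H⟩⟩ := contract K2 hdown hne K' (fun p => sec p.1) hθ (fun y => T.ℓ y.1) hgood F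
    hFne hConn hsing
  -- the maps
  have hwc := fun g => nw_continuous (m := m) N hN g
  have hw0 := fun g s => nw_nonneg (m := m) N hN g s
  have hw1 := fun s => nw_sum (m := m) N hN s
  have hKt : ∀ s : Fin m → I, ∃ S ∈ KF K2 F, ∀ g, 0 < nw N g s → φt g ∈ S := by
    intro s
    obtain ⟨b, hb⟩ := gw_cube N hN s
    obtain ⟨g0, hg0⟩ := nw_exists_pos N hN s
    refine ⟨(Finset.univ.filter fun g => 0 < nw N g s).image φt, ⟨?_, ?_⟩, ?_⟩
    · refine hcube2 b _ ⟨g0, by simpa using hg0⟩ ?_
      intro g hg i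
      rw [Finset.mem_filter] at hg
      exact hb g (nw_pos N hN hg.2) i
    · intro p hp
      obtain ⟨g, _, rfl⟩ := Finset.mem_image.1 hp
      exact hFmem g
    · intro g hg
      exact Finset.mem_image.2 ⟨g, by simpa using hg, rfl⟩
  set Φ : C(Fin m → I, Rl (KF K2 F)) := wmap (KF K2 F) (nw N) φt hwc hw0 hw1 hKt with hΦ
  -- a common simplex for `φ` and `ψ`
  have hcommon : ∀ s : Fin m → I, ∃ S ∈ K', (∀ g, 0 < nw N g s → φ g ∈ S) ∧
      ∀ g, 0 < nw N g s → sec (L (φ g)) ∈ S := by
    intro s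
    obtain ⟨v, w, hvw, h⟩ := hmem4 s
    obtain ⟨g0, hg0⟩ := nw_exists_pos N hN s
    set P := Finset.univ.filter fun g : Fin m → Fin (N + 1) => 0 < nw N g s with hP
    have hPm : ∀ g, g ∈ P ↔ 0 < nw N g s := fun g => by simp [hP]
    refine ⟨P.image φ ∪ P.image (fun g => sec (L (φ g))), ⟨?_, ?_⟩, ?_, ?_⟩
    · exact ⟨φ g0, Finset.mem_union_left _ (Finset.mem_image_of_mem _ ((hPm _).2 hg0))⟩
    · have hM : ∀ a ∈ P.image φ ∪ P.image (fun g => sec (L (φ g))), T.Mem4 v w (L a) := by
        intro a ha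
        rcases Finset.mem_union.1 ha with ha | ha
        · obtain ⟨g, hg, rfl⟩ := Finset.mem_image.1 ha
          exact h g (nw_pos N hN ((hPm _).1 hg))
        · obtain ⟨g, hg, rfl⟩ := Finset.mem_image.1 ha
          rw [hsec]
          exact h g (nw_pos N hN ((hPm _).1 hg))
      intro a ha b hb
      exact h2 v w hvw a b (hM a ha) (hM b hb)
    · intro g hg
      exact Finset.mem_union_left _ (Finset.mem_image_of_mem _ ((hPm _).2 hg))
    · intro g hg
      exact Finset.mem_union_right _ (Finset.mem_image.2 ⟨g, (hPm _).2 hg, rfl⟩)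
  set Mφ : C(Fin m → I, Rl K') := wmap K' (nw N) φ hwc hw0 hw1 (fun s => by
    obtain ⟨S, hS, h, _⟩ := hcommon s
    exact ⟨S, hS, h⟩) with hMφ
  set Mψ : C(Fin m → I, Rl K') := wmap K' (nw N) (fun g => sec (L (φ g))) hwc hw0 hw1 (fun s => by
    obtain ⟨S, hS, _, h⟩ := hcommon s
    exact ⟨S, hS, h⟩) with hMψ
  set F0 : C(Fin m → I, Rl K') := (Rips.incl hRE).comp f.1 with hF0
  have hF0v : ∀ s v, (F0 s).1 v = (f.1 s).1 v := fun s v => rfl
  -- boundary values
  have hbd : ∀ s ∈ Cube.boundary (Fin m), ∀ g, 0 < nw N g s → GBd g := fun s hs g hg =>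
    gw_boundary N hN s hs g (nw_pos N hN hg)
  have hLbd : ∀ g, GBd g → L (φ g) = L z₀ := fun g hg => by rw [hφb g hg]
  have hMφb : ∀ s ∈ Cube.boundary (Fin m), ∀ v, (Mφ s).1 v = if z₀ = v then 1 else 0 := by
    intro s hs v
    exact wmap_delta K' (nw N) φ hwc hw0 hw1 _ s z₀ (fun g hg => hφb g (hbd s hs g hg)) v
  have hMψb : ∀ s ∈ Cube.boundary (Fin m), ∀ v, (Mψ s).1 v = if sec (L z₀) = v then 1 else 0 := by
    intro s hs v
    exact wmap_delta K' (nw N) _ hwc hw0 hw1 _ s (sec (L z₀))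
      (fun g hg => by rw [hLbd g (hbd s hs g hg)]) v
  have hlift1 : ∀ g, GBd g → lift c N g = 1 := fun g hg =>
    lift_boundary c hc hm (fun g g' hg hg' => by
      have h3 := c_self c hc g
      simp only [hcdef] at h3 ⊢
      rw [hLbd g' hg', ← hLbd g hg]
      exact h3) _ g rfl hg
  have hφtb : ∀ g, GBd g → φt g = (L z₀, 1) := fun g hg => by
    simp only [hφt]
    rw [hLbd g hg, hlift1 g hg]
  have hΦb : ∀ s ∈ Cube.boundary (Fin m), ∀ s' ∈ Cube.boundary (Fin m), Φ s = Φ s' := by
    intro s hs s' hs'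
    apply Rl.ext
    intro v
    have k1 := wmap_delta (KF K2 F) (nw N) φt hwc hw0 hw1 hKt s (L z₀, 1)
      (fun g hg => hφtb g (hbd s hs g hg)) v
    have k2 := wmap_delta (KF K2 F) (nw N) φt hwc hw0 hw1 hKt s' (L z₀, 1)
      (fun g hg => hφtb g (hbd s' hs' g hg)) v
    exact k1.trans k2.symm
  -- first homotopy
  let H1 : F0.Homotopy Mφ := lineHomotopy F0 Mφ (fun s => by
    obtain ⟨B, hB, h0, hg⟩ := hpt s
    refine ⟨B, ⟨hB.1, fun a ha b hb => (hB.2 a ha b hb).trans hRE⟩, fun v hv => ?_, fun v hv => ?_⟩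
    · rw [hF0v]; exact h0 v hv
    · by_contra hcon
      obtain ⟨g, rfl, hg'⟩ := wmap_support K' (nw N) φ hwc hw0 hw1 _ s v hcon
      exact hv (hg g (nw_pos N hN hg')))
  have C1 : ConstOn H1 (Cube.boundary (Fin m)) := by
    intro t s hs s' hs'
    apply Rl.ext
    intro v
    rw [lineHomotopy_apply, lineHomotopy_apply]
    simp only [hF0v, hMφb s hs, hMφb s' hs', f.2 s hs, f.2 s' hs']
  -- second homotopy
  let H2 : Mφ.Homotopy Mψ := lineHomotopy Mφ Mψ (fun s => by
    obtain ⟨S, hS, ha, hb⟩ := hcommon s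
    refine ⟨S, hS, fun v hv => ?_, fun v hv => ?_⟩
    · by_contra hcon
      obtain ⟨g, rfl, hg'⟩ := wmap_support K' (nw N) φ hwc hw0 hw1 _ s v hcon
      exact hv (ha g hg')
    · by_contra hcon
      obtain ⟨g, hgv, hg'⟩ := wmap_support K' (nw N) _ hwc hw0 hw1 _ s v hcon
      exact hv (hgv ▸ hb g hg'))
  have C2 : ConstOn H2 (Cube.boundary (Fin m)) := by
    intro t s hs s' hs'
    apply Rl.ext
    intro v
    rw [lineHomotopy_apply, lineHomotopy_apply]
    simp only [hMφb s hs, hMφb s' hs', hMψb s hs, hMψb s' hs']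
  -- third homotopy
  have hcomp : (jmap K2 F K' (fun p => sec p.1) (fun s hs _ => hθ s hs)).comp Φ = Mψ := by
    ext1 s
    apply Rl.ext
    intro v
    rw [ContinuousMap.comp_apply, jmap_apply]
    have e1 : (Mψ s).1 v = ∑ g, if sec (L (φ g)) = v then nw N g s else 0 := rfl
    have e2 : ∀ p, (Φ s).1 p = ∑ g, if φt g = p then nw N g s else 0 := fun p => by
      refine (wmap_apply (KF K2 F) (nw N) φt hwc hw0 hw1 hKt s p).trans ?_
      refine Finset.sum_congr rfl fun g _ => ?_
      by_cases hg : φt g = p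
      · rw [if_pos hg, if_pos hg]
      · rw [if_neg hg, if_neg hg]
    rw [e1]
    have e3 : ∀ p ∈ F, (if sec p.1 = v then (Φ s).1 p else 0) =
        ∑ g, if φt g = p then (if sec (φt g).1 = v then nw N g s else 0) else 0 := by
      intro p _
      split_ifs with hp
      · rw [e2]
        refine Finset.sum_congr rfl fun g _ => ?_
        by_cases hg : φt g = p
        · rw [if_pos hg, if_pos hg, if_pos (by rw [hg]; exact hp)]
        · rw [if_neg hg, if_neg hg]
      · symm
        refine Finset.sum_eq_zero fun g _ => ?_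
        by_cases hg : φt g = p
        · rw [if_pos hg, if_neg (by rw [hg]; exact hp)]
        · rw [if_neg hg]
    rw [Finset.sum_congr rfl e3, Finset.sum_comm]
    refine Finset.sum_congr rfl fun g _ => ?_
    rw [Finset.sum_ite_eq, if_pos (hFmem g)]
  let H3' : (Mψ).Homotopy (ContinuousMap.const _ c0) :=
    { toFun := fun q => H (q.1, Φ q.2)
      continuous_toFun := H.continuous.comp (continuous_fst.prodMk (Φ.continuous.comp continuous_snd))
      map_zero_left := by
        intro s
        change H (0, Φ s) = Mψ s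
        rw [H.apply_zero, ← hcomp]
        rfl
      map_one_left := by
        intro s
        change H (1, Φ s) = c0
        rw [H.apply_one]
        rfl }
  have C3 : ConstOn H3' (Cube.boundary (Fin m)) := by
    intro t s hs s' hs'
    change H (t, Φ s) = H (t, Φ s')
    rw [hΦb s hs s' hs']
  let HH := (H1.trans H2).trans H3'
  have CC : ConstOn HH (Cube.boundary (Fin m)) := (C1.trans C2).trans C3
  have hs0 : (fun _ : Fin m => (0 : I)) ∈ Cube.boundary (Fin m) := ⟨⟨0, by omega⟩, Or.inl rfl⟩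
  have final := homotopicRel_const_of_free F0
    (⟨fun q => HH (q.2, q.1), HH.continuous.comp (continuous_snd.prodMk continuous_fst)⟩)
    (⟨fun t => HH (t, fun _ => 0), HH.continuous.comp (continuous_id.prodMk continuous_const)⟩) c0
    (fun s => by
      change HH (0, s) = F0 s
      rw [HH.apply_zero])
    (fun s => by
      change HH (1, s) = c0
      rw [HH.apply_one]
      rfl)
    (fun s hs t => CC t s hs _ hs0)
    (by
      change HH (1, _) = c0
      rw [HH.apply_one]
      rfl)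
  have hγ0 : HH (0, fun _ => 0) = Rips.incl hRE x := by
    rw [HH.apply_zero]
    change Rips.incl hRE (f.1 fun _ => 0) = Rips.incl hRE x
    rw [f.2 _ hs0]
  have final' : F0.HomotopicRel (ContinuousMap.const _ (HH (0, fun _ => 0)))
    (Cube.boundary (Fin m)) := final
  rw [hγ0] at final'
  exact final'

end Pool.Agent.Lib.MP_944cb0_gt
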