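import Pool.Agent.Lib.MP_944cb0_gt.CE

/-!
Hyperbolic spaces with integer valued metric, levels and ancestors; the ladder lemma.
-/

set_option autoImplicit false

namespace Pool.Agent.Lib.MP_944cb0_gt

/-- integer valued hyperbolic metric of bounded geometry with a parent function -/
structure HS (G : Type*) where
  d : G → G → ℕ
  o : G
  len : G → ℕ
  par : G → G
  δ : ℕ
  d_self : ∀ x, d x x = 0
  d_comm : ∀ x y, d x y = d y x
  d_tri : ∀ x y z, d x z ≤ d x y + d y z
  len_eq : ∀ x, len x = d o x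
  par_len : ∀ x, len x ≠ 0 → len (par x) + 1 = len x
  par_dist : ∀ x, len x ≠ 0 → d x (par x) = 1
  four : ∀ x y z w, d x y + d z w ≤ max (d x z + d y w) (d x w + d y z) + δ
  ball : ∀ r, ∃ M : ℕ, ∀ x, {y | d x y ≤ r}.Finite ∧ {y | d x y ≤ r}.ncard ≤ M

namespace HS

variable {G : Type*} (H : HS G)

/-- ancestor of `x` at level `k` -/
noncomputable def anc (k : ℕ) (x : G) : G := MP_944cb0_gt.anc H.len H.par k x

theorem iter_len (j : ℕ) (x : G) (hj : j ≤ H.len x) : H.len (H.par^[j] x) + j = H.len x := by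
  induction j with
  | zero => simp
  | succ j ih =>
    have h1 := ih (by omega)
    rw [Function.iterate_succ_apply']
    have h2 := H.par_len (H.par^[j] x) (by omega)
    omega

theorem iter_dist (j : ℕ) (x : G) (hj : j ≤ H.len x) : H.d x (H.par^[j] x) ≤ j := by
  induction j with
  | zero => simp [H.d_self]
  | succ j ih =>
    have h1 := ih (by omega)
    rw [Function.iterate_succ_apply']
    have h0 := H.iter_len j x (by omega)
    have h2 := H.par_dist (H.par^[j] x) (by omega)
    have h3 := H.d_tri x (H.par^[j] x) (H.par (H.par^[j] x))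
    omega

theorem anc_len {k : ℕ} {x : G} (hk : k ≤ H.len x) : H.len (H.anc k x) = k := by
  have := H.iter_len (H.len x - k) x (by omega)
  unfold anc MP_944cb0_gt.anc
  omega

theorem anc_dist {k : ℕ} {x : G} (hk : k ≤ H.len x) : H.d x (H.anc k x) ≤ H.len x - k :=
  H.iter_dist _ _ (by omega)

theorem anc_self (x : G) : H.anc (H.len x) x = x := by
  unfold anc MP_944cb0_gt.anc
  simp

theorem anc_self' {k : ℕ} {x : G} (hk : H.len x = k) : H.anc k x = x := by
  subst hk; exact H.anc_self x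

theorem anc_anc {k l : ℕ} {x : G} (hkl : k ≤ l) (hl : l ≤ H.len x) :
    H.anc k (H.anc l x) = H.anc k x := by
  have h1 := H.anc_len hl
  unfold anc MP_944cb0_gt.anc at h1 ⊢
  rw [h1, ← Function.iterate_add_apply]
  congr 1
  omega

theorem len_le (x y : G) : H.len y ≤ H.len x + H.d x y := by
  rw [H.len_eq, H.len_eq]; exact H.d_tri _ _ _

theorem d_le_len (x y : G) : H.d x y ≤ H.len x + H.len y := by
  rw [H.len_eq, H.len_eq, H.d_comm H.o x]; exact H.d_tri _ _ _

/-- ladders stay close -/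
theorem ladder {k : ℕ} {x y : G} (hx : k ≤ H.len x) (hy : k ≤ H.len y) :
    H.d (H.anc k x) (H.anc k y) ≤
      (H.d x y - ((H.len x - k) + (H.len y - k))) + 2 * H.δ := by
  set x' := H.anc k x
  set y' := H.anc k y
  have hx1 : H.len x' = k := H.anc_len hx
  have hy1 : H.len y' = k := H.anc_len hy
  have hx2 : H.d x x' ≤ H.len x - k := H.anc_dist hx
  have hy2 : H.d y y' ≤ H.len y - k := H.anc_dist hy
  have h1 := H.four x' y x H.o
  have h2 := H.four x' y' y H.o
  have e1 : H.d x' H.o = k := by rw [H.d_comm, ← H.len_eq, hx1]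
  have e2 : H.d y' H.o = k := by rw [H.d_comm, ← H.len_eq, hy1]
  have e3 : H.d x H.o = H.len x := by rw [H.d_comm, ← H.len_eq]
  have e4 : H.d y H.o = H.len y := by rw [H.d_comm, ← H.len_eq]
  have e5 : H.d x' x = H.d x x' := H.d_comm _ _
  have e6 : H.d y' y = H.d y y' := H.d_comm _ _
  have e7 : H.d y x = H.d x y := H.d_comm _ _
  rw [e1, e3, e4, e5, e7] at h1
  rw [e1, e2, e4, e6] at h2
  omega

theorem ladder_le {k : ℕ} {x y : G} (hx : k ≤ H.len x) (hy : k ≤ H.len y)
    (h : H.d x y ≤ (H.len x - k) + (H.len y - k)) : H.d (H.anc k x) (H.anc k y) ≤ 2 * H.δ := by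
  have := H.ladder hx hy
  omega

/-- the circle extension property -/
def CircleExt : Prop :=
  ∀ ρ : ℕ, ∃ c C B : ℕ, ∀ n, c ≤ n → ∀ e : G → ZMod 3, ∃ Δ : G → G → ℤ,
      (∀ x y, H.len x = n → H.len y = n →
        H.d x y ≤ ρ → ((Δ x y : ℤ) : ZMod 3) = e y - e x ∧ |Δ x y| ≤ B) ∧
      (∀ x y z, H.len x = n → H.len y = n → H.len z = n →
        H.d x y ≤ ρ → H.d y z ≤ ρ → H.d x z ≤ ρ →
        Δ x y + Δ y z = Δ x z) ∧
      (∀ (i : ZMod 3) (x : G), H.len x = n →
        (∀ v, n ≤ H.len v + c → H.d x v ≤ C → e v ≠ i) →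
        ∀ y, H.len y = n → H.d x y ≤ ρ →
          Δ x y = arc i (e y) - arc i (e x))

end HS

end Pool.Agent.Lib.MP_944cb0_gt
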