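import Pool.Agent.Lib.MP_944cb0_gt.Defs

/-!
Geometric realisations of families of finite sets, maps into them given by weights, and straight
line homotopies.
-/

set_option autoImplicit false

namespace Pool.Agent.Lib.MP_944cb0_gt

open scoped unitInterval
open Finset

variable {V : Type*}

/-- Realisation of a family `K` of finite sets. -/
abbrev Rl (K : Set (Finset V)) : Type _ :=
  {p : V → ℝ // (∀ v, 0 ≤ p v) ∧ ∃ s : Finset V, s ∈ K ∧ (∀ v, v ∉ s → p v = 0) ∧ ∑ v ∈ s, p v = 1}

theorem Rl.continuous_coord {K : Set (Finset V)} (v : V) : Continuous fun p : Rl K => p.1 v :=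
  (continuous_apply v).comp continuous_subtype_val

theorem Rl.ext {K : Set (Finset V)} {p q : Rl K} (h : ∀ v, p.1 v = q.1 v) : p = q :=
  Subtype.ext (funext h)

theorem Rl.continuous_mk {K : Set (Finset V)} {T : Type*} [TopologicalSpace T] {f : T → Rl K}
    (h : ∀ v, Continuous fun t => (f t).1 v) : Continuous f :=
  Continuous.subtype_mk (continuous_pi h) _

section mk

variable {T : Type*} [TopologicalSpace T] {ι : Type*} [Fintype ι]

open Classical in
/-- The map into a realisation with weights `u i` at the vertices `ψ i`. -/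
noncomputable def wmap (K : Set (Finset V)) (u : ι → T → ℝ) (ψ : ι → V)
    (hc : ∀ i, Continuous (u i)) (h0 : ∀ i t, 0 ≤ u i t) (h1 : ∀ t, ∑ i, u i t = 1)
    (hK : ∀ t, ∃ s ∈ K, ∀ i, 0 < u i t → ψ i ∈ s) : C(T, Rl K) where
  toFun t := ⟨fun v => ∑ i, if ψ i = v then u i t else 0, by
    constructor
    · intro v
      exact Finset.sum_nonneg fun i _ => by split_ifs <;> simp [h0]
    · obtain ⟨s, hs, h⟩ := hK t
      refine ⟨s, hs, ?_, ?_⟩
      · intro v hv
        refine Finset.sum_eq_zero fun i _ => ?_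
        split_ifs with hi
        · by_contra hne
          have : 0 < u i t := lt_of_le_of_ne (h0 i t) (Ne.symm hne)
          exact hv (hi ▸ h i this)
        · rfl
      · rw [Finset.sum_comm]
        rw [← h1 t]
        refine Finset.sum_congr rfl fun i _ => ?_
        rw [Finset.sum_ite_eq]
        split_ifs with hi
        · rfl
        · by_contra hne
          have : 0 < u i t := lt_of_le_of_ne (h0 i t) hne
          exact hi (h i this)⟩
  continuous_toFun := by
    refine Rl.continuous_mk fun v => ?_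
    refine continuous_finsetSum _ fun i _ => ?_
    by_cases hi : ψ i = v
    · simpa [hi] using hc i
    · simpa [hi] using continuous_const

open Classical in
theorem wmap_apply (K : Set (Finset V)) (u : ι → T → ℝ) (ψ : ι → V)
    (hc : ∀ i, Continuous (u i)) (h0 : ∀ i t, 0 ≤ u i t) (h1 : ∀ t, ∑ i, u i t = 1)
    (hK : ∀ t, ∃ s ∈ K, ∀ i, 0 < u i t → ψ i ∈ s) (t : T) (v : V) :
    (wmap K u ψ hc h0 h1 hK t).1 v = ∑ i, if ψ i = v then u i t else 0 := rfl

/-- support of `wmap`: if `wmap` does not vanish at `v` then `v = ψ i` with `u i t > 0` -/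
theorem wmap_support (K : Set (Finset V)) (u : ι → T → ℝ) (ψ : ι → V)
    (hc : ∀ i, Continuous (u i)) (h0 : ∀ i t, 0 ≤ u i t) (h1 : ∀ t, ∑ i, u i t = 1)
    (hK : ∀ t, ∃ s ∈ K, ∀ i, 0 < u i t → ψ i ∈ s) (t : T) (v : V)
    (hv : (wmap K u ψ hc h0 h1 hK t).1 v ≠ 0) : ∃ i, ψ i = v ∧ 0 < u i t := by
  classical
  rw [wmap_apply] at hv
  obtain ⟨i, _, hi⟩ := Finset.exists_ne_zero_of_sum_ne_zero hv
  by_cases h : ψ i = v
  · rw [if_pos h] at hi
    exact ⟨i, h, lt_of_le_of_ne (h0 i t) (Ne.symm hi)⟩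
  · rw [if_neg h] at hi; exact absurd rfl hi

end mk

section line

variable {T : Type*} [TopologicalSpace T] {K : Set (Finset V)}

theorem Rl.sum_of_subset (p : Rl K) (s : Finset V) (hs : ∀ v, v ∉ s → p.1 v = 0) :
    ∑ v ∈ s, p.1 v = 1 := by
  classical
  obtain ⟨t, _, ht, h1⟩ := p.2.2
  refine Eq.trans ?_ h1
  have e1 : ∑ v ∈ s, p.1 v = ∑ v ∈ s ∪ t, p.1 v :=
    Finset.sum_subset Finset.subset_union_left fun v _ hv => hs v hv
  have e2 : ∑ v ∈ t, p.1 v = ∑ v ∈ s ∪ t, p.1 v :=
    Finset.sum_subset Finset.subset_union_right fun v _ hv => ht v hv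
  rw [e1, e2]

/-- Straight line homotopy between two maps with supports in a common simplex. -/
noncomputable def lineHomotopy (f g : C(T, Rl K))
    (h : ∀ t, ∃ s ∈ K, (∀ v, v ∉ s → (f t).1 v = 0) ∧ (∀ v, v ∉ s → (g t).1 v = 0)) :
    f.Homotopy g where
  toFun q := ⟨fun v => (1 - (q.1 : ℝ)) * (f q.2).1 v + (q.1 : ℝ) * (g q.2).1 v, by
    constructor
    · intro v
      have h1 : 0 ≤ 1 - (q.1 : ℝ) := by linarith [q.1.2.2]
      exact add_nonneg (mul_nonneg h1 ((f q.2).2.1 v)) (mul_nonneg q.1.2.1 ((g q.2).2.1 v))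
    · obtain ⟨s, hs, hf, hg⟩ := h q.2
      refine ⟨s, hs, ?_, ?_⟩
      · intro v hv; simp only [hf v hv, hg v hv]; ring
      · rw [Finset.sum_add_distrib, ← Finset.mul_sum, ← Finset.mul_sum,
          Rl.sum_of_subset _ s hf, Rl.sum_of_subset _ s hg]; ring⟩
  continuous_toFun := by
    refine Rl.continuous_mk fun v => ?_
    have hq : Continuous fun q : I × T => (q.1 : ℝ) := continuous_subtype_val.comp continuous_fst
    have hf : Continuous fun q : I × T => (f q.2).1 v :=
      (Rl.continuous_coord v).comp (f.continuous.comp continuous_snd)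
    have hg : Continuous fun q : I × T => (g q.2).1 v :=
      (Rl.continuous_coord v).comp (g.continuous.comp continuous_snd)
    exact ((continuous_const.sub hq).mul hf).add (hq.mul hg)
  map_zero_left x := by
    apply Rl.ext; intro v; simp
  map_one_left x := by
    apply Rl.ext; intro v; simp

theorem lineHomotopy_apply (f g : C(T, Rl K))
    (h : ∀ t, ∃ s ∈ K, (∀ v, v ∉ s → (f t).1 v = 0) ∧ (∀ v, v ∉ s → (g t).1 v = 0))
    (q : I × T) (v : V) :
    (lineHomotopy f g h q).1 v = (1 - (q.1 : ℝ)) * (f q.2).1 v + (q.1 : ℝ) * (g q.2).1 v := rfl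

end line

end Pool.Agent.Lib.MP_944cb0_gt
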