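import Mathlib

/-!
# Coarse Whitehead conjecture for subgroups of hyperbolic groups: the definitions of the statement

Word metrics, word hyperbolicity (four point condition), presentations, the second cellular
boundary map of the Cayley complex, Rips complexes (geometric realisation) and the coarse
triviality of the homotopy groups `π_m`.
-/

set_option autoImplicit false

namespace Pool.Agent.Lib.MP_944cb0_gt.Stmt

open scoped unitInterval

/-! ## Word metrics -/

section Word

variable {Γ : Type*} [Group Γ]

/-- Word length of `g` with respect to `S`: the least length of a product of elements of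
`S ∪ S⁻¹` equal to `g` (it is `0` by convention if there is no such product). -/
noncomputable def wlen (S : Set Γ) (g : Γ) : ℕ :=
  sInf {n | ∃ l : List Γ, l.length = n ∧ (∀ x ∈ l, x ∈ S ∨ x⁻¹ ∈ S) ∧ l.prod = g}

/-- The (left invariant) word metric with respect to `S`. -/
noncomputable def wdist (S : Set Γ) (x y : Γ) : ℕ := wlen S (x⁻¹ * y)

/-- Gromov hyperbolicity of the word metric with respect to `S`: the four point condition
`d(x,y) + d(z,w) ≤ max (d(x,z) + d(y,w)) (d(x,w) + d(y,z)) + δ`. -/
def WordHyperbolic (S : Set Γ) : Prop :=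
  ∃ δ : ℕ, ∀ x y z w : Γ,
    wdist S x y + wdist S z w ≤ max (wdist S x z + wdist S y w) (wdist S x w + wdist S y z) + δ

end Word

/-! ## Presentations and Cayley complexes -/

section Presentation

variable {G : Type*} [Group G] {α : Type*} [DecidableEq α]

/-- `ι : α → G` and the set `rels` of relators present the group `G`. -/
def Presents (ι : α → G) (rels : Set (FreeGroup α)) : Prop :=
  Function.Surjective (FreeGroup.lift ι) ∧
    (FreeGroup.lift ι).ker = Subgroup.normalClosure rels

/-- One step of an edge path in the Cayley graph: `p.1` is the present vertex, `p.2` the cellular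
1-chain of the path so far, `x` the next letter (`(a, true)` is the generator `a`, `(a, false)`
its inverse).  The edge `(g, a)` goes from `g` to `g * ι a`. -/
noncomputable def pathStep (ι : α → G) (p : G × (G × α →₀ ℤ)) (x : α × Bool) :
    G × (G × α →₀ ℤ) :=
  if x.2 then (p.1 * ι x.1, p.2 + Finsupp.single (p.1, x.1) 1)
  else (p.1 * (ι x.1)⁻¹, p.2 - Finsupp.single (p.1 * (ι x.1)⁻¹, x.1) 1)

/-- The cellular 1-chain of the Cayley complex given by the edge path which starts at the vertex
`g` and spells the word `L`. -/
noncomputable def pathChain (ι : α → G) (g : G) (L : List (α × Bool)) : G × α →₀ ℤ :=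
  (L.foldl (pathStep ι) (g, 0)).2

/-- The cellular boundary map `C_2(X) → C_1(X)` of the Cayley complex `X` of the presentation:
`X` has one 2-cell `(g, r)` for every vertex `g` and every relator `r`, glued along the edge path
starting at `g` and spelling `r`. -/
noncomputable def boundary₂ (ι : α → G) (rels : Set (FreeGroup α)) :
    (G × rels →₀ ℤ) →ₗ[ℤ] (G × α →₀ ℤ) :=
  Finsupp.linearCombination ℤ (fun p => pathChain ι p.1 ((p.2 : FreeGroup α).toWord))

end Presentation

/-! ## Rips complexes and coarse homotopy -/

section Rips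

variable {Z : Type*}

/-- `s` is a simplex of the Rips complex: nonempty, finite and of diameter at most `R`. -/
def RipsSimplex (d : Z → Z → ℕ) (R : ℝ) (s : Finset Z) : Prop :=
  s.Nonempty ∧ ∀ x ∈ s, ∀ y ∈ s, (d x y : ℝ) ≤ R

/-- Barycentric coordinates of the points of the Rips complex: functions `p : Z → ℝ`,
nonnegative, of sum `1`, vanishing outside of a simplex. -/
def RipsPoint (d : Z → Z → ℕ) (R : ℝ) (p : Z → ℝ) : Prop :=
  (∀ z, 0 ≤ p z) ∧ ∃ s : Finset Z, RipsSimplex d R s ∧ (∀ z, z ∉ s → p z = 0) ∧ ∑ z ∈ s, p z = 1

/-- The geometric realisation of the Rips complex `Rips_R(Z)`, with the topology of pointwise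
convergence of the barycentric coordinates (for locally finite complexes this is the usual
topology). -/
abbrev Rips (d : Z → Z → ℕ) (R : ℝ) : Type _ := {p : Z → ℝ // RipsPoint d R p}

/-- `Z` has coarsely trivial `π_m`: there is `φ` with `φ(R) ≥ R` such that for all `R ≥ 0` and
every base point `x`, every continuous map `f` of the cube `I^m` to `Rips_R(Z)` which maps the
boundary of the cube to `x` is homotopic in `Rips_{φ(R)}(Z)`, relative to the boundary of the
cube, to the constant map `x`; that is, `Rips_R(Z) → Rips_{φ(R)}(Z)` induces the zero map on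
`π_m`. -/
def CoarselyTrivialPi (d : Z → Z → ℕ) (m : ℕ) : Prop :=
  ∃ φ : ℝ → ℝ, (∀ R, 0 ≤ R → R ≤ φ R) ∧ ∀ R : ℝ, 0 ≤ R →
    ∀ (x : Rips d R) (f : C(Fin m → I, Rips d R)), (∀ s ∈ Cube.boundary (Fin m), f s = x) →
      ∃ F : C(I × (Fin m → I), Rips d (φ R)),
        (∀ s, (F (0, s)).1 = (f s).1) ∧ (∀ s, (F (1, s)).1 = x.1) ∧
        (∀ t, ∀ s ∈ Cube.boundary (Fin m), (F (t, s)).1 = x.1)

end Rips

end Pool.Agent.Lib.MP_944cb0_gt.Stmt
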