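import Pool.Agent.Lib.MP_944cb0_gt.Contract

/-!
Towers of graphs and the complexes attached to them: definitions.
-/

set_option autoImplicit false

namespace Pool.Agent.Lib.MP_944cb0_gt

/-- A tower of graphs: vertices with levels, a parent map lowering the level by one, horizontal
adjacency inside the levels, preserved (or collapsed) by the parent map. -/
structure Tower (V : Type*) where
  ℓ : V → ℕ
  p : V → V
  Adj : V → V → Prop
  symm : ∀ v w, Adj v w → Adj w v
  level_adj : ∀ v w, Adj v w → ℓ v = ℓ w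
  level_p : ∀ v, ℓ v ≠ 0 → ℓ (p v) + 1 = ℓ v
  p_adj : ∀ v w, Adj v w → p v = p w ∨ Adj (p v) (p w)

namespace Tower

variable {V : Type*} (T : Tower V)

/-- `x` lies in the basic simplex `{v, w, p v, p w}` -/
def Mem4 (v w x : V) : Prop := x = v ∨ x = w ∨ x = T.p v ∨ x = T.p w

/-- The complex on the set `A` of vertices: nonempty finite subsets of `A` contained in
`{v, w, p v, p w}` with `v = w` or `v`, `w` adjacent. -/
def cplx (A : Set V) : Set (Finset V) :=
  {s | s.Nonempty ∧ (∀ x ∈ s, x ∈ A) ∧ ∃ v w, (v = w ∨ T.Adj v w) ∧ ∀ x ∈ s, T.Mem4 v w x}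

theorem cplx_down {A : Set V} : ∀ s ∈ T.cplx A, ∀ t ⊆ s, t.Nonempty → t ∈ T.cplx A := by
  rintro s ⟨_, hA, v, w, hvw, h⟩ t ht htn
  exact ⟨htn, fun x hx => hA x (ht hx), v, w, hvw, fun x hx => h x (ht hx)⟩

end Tower

open Classical in
/-- The complex on `V × Q` covering `K`, given by `e : V → V → Q`. -/
def coverCplx {V Q : Type*} [Group Q] (K : Set (Finset V)) (e : V → V → Q) :
    Set (Finset (V × Q)) :=
  {s | s.Nonempty ∧ s.image Prod.fst ∈ K ∧ ∀ x ∈ s, ∀ y ∈ s, y.2 = x.2 * e x.1 y.1}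

end Pool.Agent.Lib.MP_944cb0_gt
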