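import Pool.Agent.Lib.MP_944cb0_gt.Cov4
import Pool.Agent.Lib.MP_944cb0_gt.Tower

/-!
The tower of graphs attached to a hyperbolic space with the circle extension property, and the
label map.
-/

set_option autoImplicit false

namespace Pool.Agent.Lib.MP_944cb0_gt

namespace HS

variable {G : Type*} (H : HS G)

/-- parent map of the tower -/
noncomputable def tp (K : ℕ) (q : ℕ → G → G) (v : ℕ × G) : ℕ × G :=
  if v.1 ≤ 1 then (v.1 - 1, H.o) else
    (v.1 - 1, q ((v.1 - 2) * K) (H.anc ((v.1 - 2) * K) v.2))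

/-- adjacency of the tower -/
def tadj (K r : ℕ) (q : ℕ → G → G) (v w : ℕ × G) : Prop :=
  v.1 = w.1 ∧ v.1 ≠ 0 ∧ v ≠ w ∧ ∃ x y, H.len x = (v.1 - 1) * K ∧ H.len y = (v.1 - 1) * K ∧
    H.d x y ≤ r ∧ q ((v.1 - 1) * K) x = v.2 ∧ q ((v.1 - 1) * K) y = w.2

variable {K r D R : ℕ} {q : ℕ → G → G}

theorem tp_adj (hK : 2 * D + r ≤ K) (hr : 2 * H.δ ≤ r)
    (hq : ∀ n x, H.len x = n → H.len (q n x) = n ∧ q n (q n x) = q n x ∧ H.d x (q n x) ≤ D)
    (v w : ℕ × G) (h : H.tadj K r q v w) :
    H.tp K q v = H.tp K q w ∨ H.tadj K r q (H.tp K q v) (H.tp K q w) := by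
  obtain ⟨h1, h2, _, x, y, hx, hy, hxy, hv, hw⟩ := h
  by_cases ha : v.1 ≤ 1
  · left
    unfold tp
    rw [if_pos ha, if_pos (h1 ▸ ha), h1]
  · have ha' : ¬ w.1 ≤ 1 := h1 ▸ ha
    obtain ⟨a, ha2⟩ : ∃ a, v.1 = a + 2 := ⟨v.1 - 2, by omega⟩
    have e1 : v.1 - 1 = a + 1 := by omega
    have e2 : v.1 - 2 = a := by omega
    have e3 : w.1 - 1 = a + 1 := by omega
    have e4 : w.1 - 2 = a := by omega
    rw [e1] at hx hy hv hw
    have qx := hq _ x hx
    have qy := hq _ y hy
    rw [hv] at qx
    rw [hw] at qy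
    have hmul : (a + 1) * K = a * K + K := by ring
    have t1 := H.d_tri v.2 x w.2
    have t2 := H.d_tri x y w.2
    rw [H.d_comm x v.2] at qx
    have hclose : H.d (H.anc (a * K) v.2) (H.anc (a * K) w.2) ≤ 2 * H.δ := by
      apply H.ladder_le (by omega) (by omega)
      omega
    by_cases heq : H.tp K q v = H.tp K q w
    · left; exact heq
    · right
      unfold tp at heq ⊢
      rw [if_neg ha, if_neg ha', e1, e2, e3, e4] at heq ⊢
      refine ⟨rfl, by simp, heq, H.anc (a * K) v.2, H.anc (a * K) w.2, ?_, ?_, by omega, ?_, ?_⟩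
      · simpa using H.anc_len (by omega)
      · simpa using H.anc_len (by omega)
      · simp
      · simp

/-- the tower -/
noncomputable def tower (hK : 2 * D + r ≤ K) (hr : 2 * H.δ ≤ r)
    (hq : ∀ n x, H.len x = n → H.len (q n x) = n ∧ q n (q n x) = q n x ∧ H.d x (q n x) ≤ D) :
    Tower (ℕ × G) where
  ℓ := Prod.fst
  p := H.tp K q
  Adj := H.tadj K r q
  symm := by
    rintro v w ⟨h1, h2, h3, x, y, hx, hy, hxy, hv, hw⟩
    rw [h1] at hx hy hv hw
    exact ⟨h1.symm, h1 ▸ h2, h3.symm, y, x, hy, hx, by rw [H.d_comm]; exact hxy, hw, hv⟩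
  level_adj := fun v w h => h.1
  level_p := by
    intro v hv
    unfold tp
    split_ifs <;> simp only <;> omega
  p_adj := H.tp_adj hK hr hq

/-- the label map -/
noncomputable def lbl (K R : ℕ) (q : ℕ → G → G) (x : G) : ℕ × G :=
  if H.len x % K < R ∧ 1 ≤ H.len x / K then
    H.tp K q (H.len x / K + 1, q (H.len x / K * K) (H.anc (H.len x / K * K) x))
  else (H.len x / K + 1, q (H.len x / K * K) (H.anc (H.len x / K * K) x))

theorem div_eq_aux {K a n : ℕ} (h1 : a * K ≤ n) (h2 : n < a * K + K) : n / K = a :=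
  Nat.div_eq_of_lt_le h1 (by rw [Nat.succ_mul]; exact h2)

/-- two values in a small set -/
theorem two_values (hq2 : ∀ n x y z, H.len x = n → H.len y = n → H.len z = n → H.d x y ≤ r →
      H.d y z ≤ r → H.d x z ≤ r → q n x = q n y ∨ q n y = q n z ∨ q n x = q n z)
    (j : ℕ) (B : Finset G) (hB : B.Nonempty) (Z : G → G) (hZ : ∀ x ∈ B, H.len (Z x) = j * K)
    (hd : ∀ x ∈ B, ∀ y ∈ B, H.d (Z x) (Z y) ≤ r) :
    ∃ v w : ℕ × G, (v = w ∨ H.tadj K r q v w) ∧
      ∀ x ∈ B, (j + 1, q (j * K) (Z x)) = v ∨ (j + 1, q (j * K) (Z x)) = w := by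
  obtain ⟨x1, hx1⟩ := hB
  by_cases hall : ∀ x ∈ B, q (j * K) (Z x) = q (j * K) (Z x1)
  · exact ⟨_, _, Or.inl rfl, fun x hx => Or.inl (by rw [hall x hx])⟩
  · push Not at hall
    obtain ⟨x2, hx2, hne⟩ := hall
    refine ⟨(j + 1, q (j * K) (Z x1)), (j + 1, q (j * K) (Z x2)), Or.inr ?_, ?_⟩
    · refine ⟨rfl, by simp, ?_, Z x1, Z x2, ?_, ?_, hd _ hx1 _ hx2, ?_, ?_⟩
      · intro h; exact hne (congrArg Prod.snd h).symm
      · simpa using hZ x1 hx1
      · simpa using hZ x2 hx2
      · simp
      · simp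
    · intro x hx
      rcases hq2 _ (Z x) (Z x1) (Z x2) (hZ x hx) (hZ x1 hx1) (hZ x2 hx2) (hd x hx x1 hx1)
        (hd x1 hx1 x2 hx2) (hd x hx x2 hx2) with h | h | h
      · left; rw [h]
      · exact absurd h.symm hne
      · right; rw [h]

theorem lbl_simplex (hK : 4 * R + 2 * D + r < K) (hr : R + 2 * H.δ ≤ r)
    (hq : ∀ n x, H.len x = n → H.len (q n x) = n ∧ q n (q n x) = q n x ∧ H.d x (q n x) ≤ D)
    (hq2 : ∀ n x y z, H.len x = n → H.len y = n → H.len z = n → H.d x y ≤ r →
      H.d y z ≤ r → H.d x z ≤ r → q n x = q n y ∨ q n y = q n z ∨ q n x = q n z)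
    (B : Finset G) (hB : B.Nonempty) (hBR : ∀ x ∈ B, ∀ y ∈ B, H.d x y ≤ R) :
    ∃ v w : ℕ × G, (v = w ∨ H.tadj K r q v w) ∧ ∀ b ∈ B,
      H.lbl K R q b = v ∨ H.lbl K R q b = w ∨ H.lbl K R q b = H.tp K q v ∨
        H.lbl K R q b = H.tp K q w := by
  have hKpos : 0 < K := by omega
  obtain ⟨x0, hx0, hmin⟩ := B.exists_min_image H.len hB
  have hlen : ∀ x ∈ B, H.len x0 ≤ H.len x ∧ H.len x ≤ H.len x0 + R := fun x hx =>
    ⟨hmin x hx, (H.len_le x0 x).trans (by have := hBR x0 hx0 x hx; omega)⟩
  set j := H.len x0 / K with hj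
  have hj1 : j * K ≤ H.len x0 := Nat.div_mul_le_self _ _
  have hj2 : H.len x0 < j * K + K := by
    have := Nat.lt_div_mul_add (a := H.len x0) hKpos
    exact this
  by_cases hall : ∀ x ∈ B, H.len x < j * K + K
  · -- all in one layer
    have hdiv : ∀ x ∈ B, H.len x / K = j := by
      intro x hx
      have h1 := hall x hx
      have h2 := (hlen x hx).1
      exact div_eq_aux (by omega) (by omega)
    obtain ⟨v, w, hvw, h⟩ := H.two_values hq2 j B hB (fun x => H.anc (j * K) x)
      (fun x hx => H.anc_len (by have := (hlen x hx).1; omega)) (fun x hx y hy => by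
        have h1 := (hlen x hx).1
        have h2 := (hlen y hy).1
        have := H.ladder (k := j * K) (x := x) (y := y) (by omega) (by omega)
        have := hBR x hx y hy
        omega)
    refine ⟨v, w, hvw, fun x hx => ?_⟩
    have h3 := h x hx
    unfold lbl
    rw [hdiv x hx]
    split_ifs
    · rcases h3 with h3 | h3 <;> rw [h3] <;> simp
    · rcases h3 with h3 | h3 <;> rw [h3] <;> simp
  · -- crossing
    push Not at hall
    obtain ⟨y0, hy0, hy0l⟩ := hall
    have hlow : ∀ x ∈ B, H.len x < j * K + K → H.len x / K = j ∧ R ≤ H.len x % K := by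
      intro x hx hxl
      have h2 := (hlen x hx).1
      have h3 : H.len x / K = j := div_eq_aux (by omega) (by omega)
      refine ⟨h3, ?_⟩
      have h4 := (hlen y0 hy0).2
      have h5 := H.len_le x y0
      have h6 := hBR x hx y0 hy0
      have h7 := Nat.div_add_mod (H.len x) K
      rw [h3] at h7
      have h8 : K * j = j * K := Nat.mul_comm _ _
      omega
    have hhigh : ∀ x ∈ B, ¬ H.len x < j * K + K → H.len x / K = j + 1 ∧ H.len x % K < R := by
      intro x hx hxl
      push Not at hxl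
      have h2 := (hlen x hx).2
      have h3 : H.len x / K = j + 1 := by
        have h9 : (j + 1) * K = j * K + K := by ring
        exact div_eq_aux (by omega) (by omega)
      refine ⟨h3, ?_⟩
      have h7 := Nat.div_add_mod (H.len x) K
      rw [h3] at h7
      have h8 : K * (j + 1) = j * K + K := by ring
      omega
    classical
    set X : G → G := fun x => if H.len x < j * K + K then x else
      q ((j + 1) * K) (H.anc ((j + 1) * K) x) with hX
    have hmul : (j + 1) * K = j * K + K := by ring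
    have hXl : ∀ x ∈ B, j * K + K ≤ H.len (X x) + R ∧ H.d x (X x) ≤ R + D := by
      intro x hx
      simp only [hX]
      split_ifs with hxl
      · rw [H.d_self]
        have h5 := H.len_le x y0
        have h6 := hBR x hx y0 hy0
        omega
      · have h1 := (hlen x hx).2
        have h2 : (j + 1) * K ≤ H.len x := by omega
        have h3 := H.anc_len h2
        have h4 := H.anc_dist h2
        have h5 := hq _ _ h3
        have h6 := H.d_tri x (H.anc ((j + 1) * K) x) (q ((j + 1) * K) (H.anc ((j + 1) * K) x))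
        omega
    obtain ⟨v, w, hvw, h⟩ := H.two_values hq2 j B hB (fun x => H.anc (j * K) (X x))
      (fun x hx => H.anc_len (by have := (hXl x hx).1; omega)) (fun x hx y hy => by
        have h1 := hXl x hx
        have h2 := hXl y hy
        have h3 := H.ladder_le (k := j * K) (x := X x) (y := X y) (by omega) (by omega) (by
          have h4 := hBR x hx y hy
          have h5 := H.d_tri (X x) x (X y)
          have h6 := H.d_tri x y (X y)
          rw [H.d_comm (X x) x] at h5
          omega)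
        omega)
    refine ⟨v, w, hvw, fun x hx => ?_⟩
    have h3 := h x hx
    have hlbl : H.lbl K R q x = (j + 1, q (j * K) (H.anc (j * K) (X x))) := by
      unfold lbl
      by_cases hxl : H.len x < j * K + K
      · obtain ⟨a1, a2⟩ := hlow x hx hxl
        rw [if_neg (by omega), a1]
        simp only [hX, if_pos hxl]
      · obtain ⟨a1, a2⟩ := hhigh x hx hxl
        have h10 : 1 ≤ H.len x / K := by rw [a1]; exact Nat.succ_le_succ (Nat.zero_le j)
        rw [if_pos ⟨a2, h10⟩, a1]
        unfold tp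
        rw [if_neg (by simp)]
        simp only [hX, if_neg hxl]
        simp
    rw [hlbl]
    rcases h3 with h3 | h3
    · left; exact h3
    · right; left; exact h3

end HS

end Pool.Agent.Lib.MP_944cb0_gt
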