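import Pool.Agent.Lib.MP_944cb0_gt.Tow

/-!
Points with labels in a common simplex of the tower are close.
-/

set_option autoImplicit false

namespace Pool.Agent.Lib.MP_944cb0_gt

namespace HS

variable {G : Type*} (H : HS G)
variable {K r D R : ℕ} {q : ℕ → G → G}

theorem lbl_center (hK : 0 < K)
    (hq : ∀ n x, H.len x = n → H.len (q n x) = n ∧ q n (q n x) = q n x ∧ H.d x (q n x) ≤ D)
    (x : G) : H.d x (H.lbl K R q x).2 ≤ 2 * K + 2 * D ∧ 1 ≤ (H.lbl K R q x).1 ∧
      H.len (H.lbl K R q x).2 = ((H.lbl K R q x).1 - 1) * K := by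
  set j := H.len x / K with hj
  have hj1 : j * K ≤ H.len x := Nat.div_mul_le_self _ _
  have hj2 : H.len x < j * K + K := Nat.lt_div_mul_add hK
  have h1 := H.anc_len hj1
  have h2 := H.anc_dist hj1
  have h3 := hq _ _ h1
  have h4 := H.d_tri x (H.anc (j * K) x) (q (j * K) (H.anc (j * K) x))
  unfold lbl
  rw [← hj]
  split_ifs with h
  · obtain ⟨i, hi⟩ : ∃ i, j = i + 1 := ⟨j - 1, by omega⟩
    rw [hi] at h1 h2 h3 h4 hj2 ⊢
    unfold tp
    rw [if_neg (by simp)]
    have hmul : (i + 1) * K = i * K + K := by ring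
    set u := q ((i + 1) * K) (H.anc ((i + 1) * K) x) with hu
    have h5 : i * K ≤ H.len u := by omega
    have h6 := H.anc_len h5
    have h7 := H.anc_dist h5
    have h8 := hq _ _ h6
    have h9 := H.d_tri u (H.anc (i * K) u) (q (i * K) (H.anc (i * K) u))
    have h10 := H.d_tri x u (q (i * K) (H.anc (i * K) u))
    have e1 : i + 1 + 1 - 2 = i := by omega
    have e2 : i + 1 + 1 - 1 = i + 1 := by omega
    have e3 : i + 1 - 1 = i := by omega
    simp only [e1, e2, e3]
    refine ⟨by omega, by omega, h8.1⟩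
  · have e3 : j + 1 - 1 = j := Nat.add_sub_cancel j 1
    simp only [e3]
    exact ⟨by omega, Nat.le_add_left 1 j, h3.1⟩

theorem tp_close
    (hq : ∀ n x, H.len x = n → H.len (q n x) = n ∧ q n (q n x) = q n x ∧ H.d x (q n x) ≤ D)
    (v : ℕ × G) (hv : H.len v.2 = (v.1 - 1) * K) (h : 1 ≤ (H.tp K q v).1) :
    H.d v.2 (H.tp K q v).2 ≤ K + D := by
  unfold tp at h ⊢
  split_ifs at h ⊢ with h1
  · simp only at h; omega
  · obtain ⟨i, hi⟩ : ∃ i, v.1 = i + 2 := ⟨v.1 - 2, by omega⟩
    have e1 : v.1 - 1 = i + 1 := by omega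
    have e2 : v.1 - 2 = i := by omega
    rw [e1] at hv
    simp only [e2]
    have hmul : (i + 1) * K = i * K + K := by ring
    have h5 : i * K ≤ H.len v.2 := by omega
    have h6 := H.anc_len h5
    have h7 := H.anc_dist h5
    have h8 := hq _ _ h6
    have h9 := H.d_tri v.2 (H.anc (i * K) v.2) (q (i * K) (H.anc (i * K) v.2))
    omega

theorem lbl_small (hK : 0 < K)
    (hq : ∀ n x, H.len x = n → H.len (q n x) = n ∧ q n (q n x) = q n x ∧ H.d x (q n x) ≤ D)
    (v w : ℕ × G) (hvw : v = w ∨ H.tadj K r q v w) (x y : G)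
    (hx : H.lbl K R q x = v ∨ H.lbl K R q x = w ∨ H.lbl K R q x = H.tp K q v ∨
        H.lbl K R q x = H.tp K q w)
    (hy : H.lbl K R q y = v ∨ H.lbl K R q y = w ∨ H.lbl K R q y = H.tp K q v ∨
        H.lbl K R q y = H.tp K q w) :
    H.d x y ≤ 2 * (2 * K + 2 * D) + 2 * ((2 * D + r) + (K + D)) := by
  have cx := H.lbl_center (R := R) hK hq x
  have cy := H.lbl_center (R := R) hK hq y
  set a := H.lbl K R q x
  set b := H.lbl K R q y
  -- it suffices to bound the distance of the centres to v.2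
  have main : ∀ u : G, H.d u a.2 ≤ (2 * D + r) + (K + D) → H.d u b.2 ≤ (2 * D + r) + (K + D) →
      H.d x y ≤ 2 * (2 * K + 2 * D) + 2 * ((2 * D + r) + (K + D)) := by
    intro u hu1 hu2
    have t1 := H.d_tri x a.2 y
    have t2 := H.d_tri a.2 u y
    have t3 := H.d_tri u b.2 y
    rw [H.d_comm a.2 u] at t2
    have := H.d_comm y b.2
    omega
  rcases hvw with rfl | hadj
  · have hx' : a = v ∨ a = H.tp K q v := by tauto
    have hy' : b = v ∨ b = H.tp K q v := by tauto
    by_cases hnice : a = v ∨ b = v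
    · have hv : H.len v.2 = (v.1 - 1) * K := by
        rcases hnice with h | h
        · rw [← h]; exact cx.2.2
        · rw [← h]; exact cy.2.2
      apply main v.2
      · rcases hx' with h | h
        · rw [h, H.d_self]; omega
        · have := H.tp_close hq v hv (by rw [← h]; exact cx.2.1)
          rw [h]; omega
      · rcases hy' with h | h
        · rw [h, H.d_self]; omega
        · have := H.tp_close hq v hv (by rw [← h]; exact cy.2.1)
          rw [h]; omega
    · have h1 : a = H.tp K q v := by tauto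
      have h2 : b = H.tp K q v := by tauto
      apply main a.2
      · rw [H.d_self]; omega
      · rw [h1, h2, H.d_self]; omega
  · obtain ⟨h1, h2, _, x1, y1, hx1, hy1, hxy1, hv, hw⟩ := hadj
    have qx := hq _ _ hx1
    have qy := hq _ _ hy1
    rw [hv] at qx
    rw [hw] at qy
    have hv' : H.len v.2 = (v.1 - 1) * K := qx.1
    have hw' : H.len w.2 = (w.1 - 1) * K := by rw [← h1]; exact qy.1
    have hvw : H.d v.2 w.2 ≤ 2 * D + r := by
      have t1 := H.d_tri v.2 x1 w.2
      have t2 := H.d_tri x1 y1 w.2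
      rw [H.d_comm x1 v.2] at qx
      omega
    have gen : ∀ c : ℕ × G, (c = v ∨ c = w ∨ c = H.tp K q v ∨ c = H.tp K q w) → 1 ≤ c.1 →
        H.d v.2 c.2 ≤ (2 * D + r) + (K + D) := by
      intro c hc hc1
      rcases hc with h | h | h | h
      · rw [h, H.d_self]; omega
      · rw [h]; omega
      · have := H.tp_close hq v hv' (by rw [← h]; exact hc1)
        rw [h]; omega
      · have := H.tp_close hq w hw' (by rw [← h]; exact hc1)
        have t := H.d_tri v.2 w.2 c.2
        rw [h] at t ⊢; omega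
    exact main v.2 (gen a hx cx.2.1) (gen b hy cy.2.1)

/-- **Tower theorem.** -/
theorem exists_tower (hCE : H.CircleExt) (R : ℕ) :
    ∃ (T : Tower (ℕ × G)) (L : G → ℕ × G) (E : ℕ), (∀ x, T.ℓ (L x) ≠ 0) ∧
      (∀ B : Finset G, B.Nonempty → (∀ x ∈ B, ∀ y ∈ B, H.d x y ≤ R) →
        ∃ v w, (v = w ∨ T.Adj v w) ∧ ∀ b ∈ B, T.Mem4 v w (L b)) ∧
      (∀ v w, (v = w ∨ T.Adj v w) → ∀ x y, T.Mem4 v w (L x) → T.Mem4 v w (L y) →
        H.d x y ≤ E) := by
  obtain ⟨D, hD⟩ := H.partition hCE (R + 2 * H.δ)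
  choose q hq hq2 using hD
  have hK : 2 * D + (R + 2 * H.δ) ≤ 4 * R + 2 * D + (R + 2 * H.δ) + 1 := by omega
  refine ⟨H.tower hK (by omega) hq, H.lbl (4 * R + 2 * D + (R + 2 * H.δ) + 1) R q,
    2 * (2 * (4 * R + 2 * D + (R + 2 * H.δ) + 1) + 2 * D) +
      2 * ((2 * D + (R + 2 * H.δ)) + ((4 * R + 2 * D + (R + 2 * H.δ) + 1) + D)), ?_, ?_, ?_⟩
  · intro x
    have := (H.lbl_center (R := R) (K := 4 * R + 2 * D + (R + 2 * H.δ) + 1) (by omega) hq x).2.1
    show (H.lbl (4 * R + 2 * D + (R + 2 * H.δ) + 1) R q x).1 ≠ 0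
    omega
  · intro B hB hBR
    exact H.lbl_simplex (by omega) le_rfl hq hq2 B hB hBR
  · intro v w hvw x y hx hy
    exact H.lbl_small (by omega) hq v w hvw x y hx hy

end HS

end Pool.Agent.Lib.MP_944cb0_gt
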