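import Pool.Agent.Lib.MP_944cb0_gt.Real

/-!
Maps between finite full subcomplexes, contiguity, elementary moves and wedges.
-/

set_option autoImplicit false

namespace Pool.Agent.Lib.MP_944cb0_gt

open scoped unitInterval
open Finset

variable {V V' : Type*}

/-- simplices of `K` contained in `F` -/
def KF (K : Set (Finset V)) (F : Finset V) : Set (Finset V) := {s | s ∈ K ∧ s ⊆ F}

theorem Rl.eq_zero_of_KF {K : Set (Finset V)} {F : Finset V} (p : Rl (KF K F)) {v : V}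
    (hv : v ∉ F) : p.1 v = 0 := by
  obtain ⟨s, hs, h0, _⟩ := p.2.2
  exact h0 v fun h => hv (hs.2 h)

theorem Rl.sum_KF {K : Set (Finset V)} {F : Finset V} (p : Rl (KF K F)) :
    ∑ v : F, p.1 v = 1 := by
  rw [Finset.sum_coe_sort F (fun v => p.1 v)]
  exact Rl.sum_of_subset p F fun v hv => p.eq_zero_of_KF hv

/-- the simplicial map given on vertices by `τ` -/
noncomputable def jmap (K : Set (Finset V)) (F : Finset V) (K' : Set (Finset V')) (τ : V → V')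
    (hτ : ∀ s ∈ K, s ⊆ F → ∃ s' ∈ K', ∀ x ∈ s, τ x ∈ s') : C(Rl (KF K F), Rl K') :=
  wmap K' (fun (v : F) (p : Rl (KF K F)) => p.1 v) (fun v => τ v)
    (fun v => Rl.continuous_coord _) (fun v p => p.2.1 v) (fun p => p.sum_KF) (by
      intro p
      obtain ⟨s, hs, h0, _⟩ := p.2.2
      obtain ⟨s', hs', h'⟩ := hτ s hs.1 hs.2
      refine ⟨s', hs', fun v hv => h' v ?_⟩
      by_contra hvs
      rw [h0 v hvs] at hv
      exact lt_irrefl _ hv)

open Classical in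
theorem jmap_apply (K : Set (Finset V)) (F : Finset V) (K' : Set (Finset V')) (τ : V → V')
    (hτ : ∀ s ∈ K, s ⊆ F → ∃ s' ∈ K', ∀ x ∈ s, τ x ∈ s') (p : Rl (KF K F)) (w : V') :
    (jmap K F K' τ hτ p).1 w = ∑ v ∈ F, if τ v = w then p.1 v else 0 := by
  rw [← Finset.sum_coe_sort F (fun v => if τ v = w then p.1 v else 0)]
  rfl

theorem jmap_support (K : Set (Finset V)) (F : Finset V) (K' : Set (Finset V')) (τ : V → V')
    (hτ : ∀ s ∈ K, s ⊆ F → ∃ s' ∈ K', ∀ x ∈ s, τ x ∈ s') (p : Rl (KF K F)) (s' : Finset V')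
    (h : ∀ x, p.1 x ≠ 0 → τ x ∈ s') (w : V') (hw : w ∉ s') : (jmap K F K' τ hτ p).1 w = 0 := by
  classical
  rw [jmap_apply]
  refine Finset.sum_eq_zero fun v _ => ?_
  split_ifs with hv
  · by_contra hne
    exact hw (hv ▸ h v hne)
  · rfl

/-- contiguous maps are homotopic -/
theorem jmap_contiguous (K : Set (Finset V)) (F : Finset V) (K' : Set (Finset V'))
    (τ τ' : V → V')
    (hτ : ∀ s ∈ K, s ⊆ F → ∃ s' ∈ K', ∀ x ∈ s, τ x ∈ s')
    (hτ' : ∀ s ∈ K, s ⊆ F → ∃ s' ∈ K', ∀ x ∈ s, τ' x ∈ s')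
    (h : ∀ s ∈ K, s ⊆ F → ∃ s' ∈ K', ∀ x ∈ s, τ x ∈ s' ∧ τ' x ∈ s') :
    (jmap K F K' τ hτ).Homotopic (jmap K F K' τ' hτ') := by
  refine ⟨lineHomotopy _ _ fun p => ?_⟩
  obtain ⟨s, hs, h0, _⟩ := p.2.2
  obtain ⟨s', hs', h'⟩ := h s hs.1 hs.2
  have hx : ∀ x, p.1 x ≠ 0 → x ∈ s := fun x hx => by
    by_contra hxs; exact hx (h0 x hxs)
  exact ⟨s', hs', fun w hw => jmap_support _ _ _ _ _ p s' (fun x hx' => (h' x (hx x hx')).1) w hw,
    fun w hw => jmap_support _ _ _ _ _ p s' (fun x hx' => (h' x (hx x hx')).2) w hw⟩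

theorem jmap_comp (K : Set (Finset V)) (F F' : Finset V) (K' : Set (Finset V'))
    (r : V → V) (τ : V → V') (hr : ∀ s ∈ K, s ⊆ F → ∃ s' ∈ KF K F', ∀ x ∈ s, r x ∈ s')
    (hτ : ∀ s ∈ K, s ⊆ F' → ∃ s' ∈ K', ∀ x ∈ s, τ x ∈ s')
    (hτr : ∀ s ∈ K, s ⊆ F → ∃ s' ∈ K', ∀ x ∈ s, τ (r x) ∈ s')
    (hF : ∀ v ∈ F, r v ∈ F') :
    (jmap K F' K' τ hτ).comp (jmap K F (KF K F') r hr) = jmap K F K' (fun x => τ (r x)) hτr := by
  classical
  ext1 p
  apply Rl.ext
  intro w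
  rw [ContinuousMap.comp_apply, jmap_apply, jmap_apply]
  have : ∀ v ∈ F', (if τ v = w then ((jmap K F (KF K F') r hr) p).1 v else 0)
      = ∑ x ∈ F, if r x = v then (if τ v = w then p.1 x else 0) else 0 := by
    intro v _
    rw [jmap_apply]
    split_ifs with h
    · rfl
    · symm; apply Finset.sum_eq_zero; intro x _; split_ifs <;> rfl
  rw [Finset.sum_congr rfl this, Finset.sum_comm]
  refine Finset.sum_congr rfl fun x hx => ?_
  rw [Finset.sum_ite_eq, if_pos (hF x hx)]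

open Classical in
/-- an elementary move of the vertex `v` to `u` -/
theorem step_move (K : Set (Finset V)) (hdown : ∀ s ∈ K, ∀ t ⊆ s, t.Nonempty → t ∈ K)
    (hne : ∀ s ∈ K, s.Nonempty) (K' : Set (Finset V')) (θ : V → V')
    (hθ : ∀ s ∈ K, ∃ s' ∈ K', ∀ x ∈ s, θ x ∈ s') (F : Finset V) (v u : V) 
    (h1 : ∀ s ∈ K, v ∈ s → s ⊆ F → insert u s ∈ K)
    (hnull : (jmap K (insert u (F.erase v)) K' θ (fun s hs _ => hθ s hs)).Nullhomotopic) :
    (jmap K F K' θ (fun s hs _ => hθ s hs)).Nullhomotopic := by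
  set r : V → V := fun x => if x = v then u else x with hrdef
  have hcont : ∀ s ∈ K, s ⊆ F → ∃ s' ∈ K, ∀ x ∈ s, x ∈ s' ∧ r x ∈ s' := by
    intro s hs hsF
    by_cases hv : v ∈ s
    · refine ⟨insert u s, h1 s hs hv hsF, fun x hx => ⟨mem_insert_of_mem hx, ?_⟩⟩
      simp only [hrdef]
      split_ifs
      · exact mem_insert_self _ _
      · exact mem_insert_of_mem hx
    · refine ⟨s, hs, fun x hx => ⟨hx, ?_⟩⟩
      have : x ≠ v := by rintro rfl; exact hv hx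
      simp only [hrdef, if_neg this]; exact hx
  have hF : ∀ x ∈ F, r x ∈ insert u (F.erase v) := by
    intro x hx
    simp only [hrdef]
    split_ifs with h
    · exact mem_insert_self _ _
    · exact mem_insert_of_mem (mem_erase.2 ⟨h, hx⟩)
  have hr : ∀ s ∈ K, s ⊆ F → ∃ s' ∈ KF K (insert u (F.erase v)), ∀ x ∈ s, r x ∈ s' := by
    intro s hs hsF
    obtain ⟨s', hs', h'⟩ := hcont s hs hsF
    refine ⟨s.image r, ⟨hdown s' hs' _ ?_ ((hne s hs).image r), ?_⟩, fun x hx =>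
      mem_image_of_mem r hx⟩
    · intro y hy
      obtain ⟨x, hx, rfl⟩ := mem_image.1 hy
      exact (h' x hx).2
    · intro y hy
      obtain ⟨x, hx, rfl⟩ := mem_image.1 hy
      exact hF x (hsF hx)
  have hθr : ∀ s ∈ K, s ⊆ F → ∃ s' ∈ K', ∀ x ∈ s, θ (r x) ∈ s' := by
    intro s hs hsF
    obtain ⟨s', hs', h'⟩ := hcont s hs hsF
    obtain ⟨s'', hs'', h''⟩ := hθ s' hs'
    exact ⟨s'', hs'', fun x hx => h'' _ (h' x hx).2⟩
  have key : (jmap K F K' θ (fun s hs _ => hθ s hs)).Homotopic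
      (jmap K F K' (fun x => θ (r x)) hθr) := by
    apply jmap_contiguous
    intro s hs hsF
    obtain ⟨s', hs', h'⟩ := hcont s hs hsF
    obtain ⟨s'', hs'', h''⟩ := hθ s' hs'
    exact ⟨s'', hs'', fun x hx => ⟨h'' _ (h' x hx).1, h'' _ (h' x hx).2⟩⟩
  rw [← jmap_comp K F (insert u (F.erase v)) K' r θ hr (fun s hs _ => hθ s hs) hθr hF] at key
  obtain ⟨y, hy⟩ := hnull.comp_left (jmap K F (KF K (insert u (F.erase v))) r hr)
  exact ⟨y, key.trans hy⟩

end Pool.Agent.Lib.MP_944cb0_gt
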