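import Pool.Agent.Lib.MP_944cb0_gt.Wedge

/-!
Null-homotopies on wedges.
-/

set_option autoImplicit false

namespace Pool.Agent.Lib.MP_944cb0_gt

open scoped unitInterval
open Finset

variable {V V' : Type*}

/-- mass of `p` on `A` -/
def mass {K : Set (Finset V)} (A : Finset V) (p : Rl K) : ℝ := ∑ w ∈ A, p.1 w

theorem mass_continuous {K : Set (Finset V)} (A : Finset V) :
    Continuous (mass A : Rl K → ℝ) :=
  continuous_finsetSum _ fun w _ => Rl.continuous_coord w

theorem mass_nonneg {K : Set (Finset V)} (A : Finset V) (p : Rl K) : 0 ≤ mass A p :=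
  Finset.sum_nonneg fun w _ => p.2.1 w

theorem mass_eq_zero {K : Set (Finset V)} {A : Finset V} {p : Rl K} (h : mass A p = 0) :
    ∀ w ∈ A, p.1 w = 0 :=
  (Finset.sum_eq_zero_iff_of_nonneg fun w _ => p.2.1 w).1 h

theorem mass_eq_zero' {K : Set (Finset V)} {A : Finset V} {p : Rl K} 
    (h : ∀ w ∈ A, p.1 w = 0) : mass A p = 0 := Finset.sum_eq_zero h

open Classical in
theorem exists_retr (K : Set (Finset V)) (F A B : Finset V) (v : V)
    (hF : F = insert v (A ∪ B)) (hvB : v ∉ B) (hAB : Disjoint A B) (hv : {v} ∈ K)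
    (hsplit : ∀ s ∈ K, s ⊆ F → s ⊆ insert v A ∨ s ⊆ insert v B) :
    ∃ ρ : C(Rl (KF K F), Rl (KF K (insert v A))),
      (∀ p, mass A p = 0 → ∀ w, (ρ p).1 w = if v = w then 1 else 0) ∧
      (∀ (K' : Set (Finset V')) (θ : V → V') (hθ : ∀ s ∈ K, ∃ s' ∈ K', ∀ x ∈ s, θ x ∈ s') (p),
        mass B p = 0 → jmap K (insert v A) K' θ (fun s hs _ => hθ s hs) (ρ p) =
          jmap K F K' θ (fun s hs _ => hθ s hs) p) := by
  set r : V → V := fun x => if x ∈ B then v else x with hrdef
  have hA : ∀ x ∈ insert v A, r x = x := by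
    intro x hx
    rw [mem_insert] at hx
    have : x ∉ B := by
      rcases hx with rfl | hx
      · exact hvB
      · exact Finset.disjoint_left.1 hAB hx
    simp only [hrdef, if_neg this]
  have hB : ∀ x ∈ insert v B, r x = v := by
    intro x hx
    rw [mem_insert] at hx
    simp only [hrdef]
    split_ifs with h
    · rfl
    · tauto
  have hr : ∀ s ∈ K, s ⊆ F → ∃ s' ∈ KF K (insert v A), ∀ x ∈ s, r x ∈ s' := by
    intro s hs hsF
    rcases hsplit s hs hsF with h | h
    · exact ⟨s, ⟨hs, h⟩, fun x hx => by rw [hA x (h hx)]; exact hx⟩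
    · exact ⟨{v}, ⟨hv, by simp⟩, fun x hx => by rw [hB x (h hx)]; exact mem_singleton_self v⟩
  have hrF : ∀ x ∈ F, r x ∈ insert v A := by
    intro x hx
    rw [hF, mem_insert, mem_union] at hx
    rcases hx with rfl | hx | hx
    · rw [hA x (mem_insert_self _ _)]; exact mem_insert_self _ _
    · rw [hA x (mem_insert_of_mem hx)]; exact mem_insert_of_mem hx
    · rw [hB x (mem_insert_of_mem hx)]; exact mem_insert_self _ _
  refine ⟨jmap K F (KF K (insert v A)) r hr, ?_, ?_⟩
  · intro p hp w
    have hz := mass_eq_zero hp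
    rw [jmap_apply]
    have e1 : ∑ x ∈ F, (if r x = w then p.1 x else 0) = ∑ x ∈ F, if v = w then p.1 x else 0 := by
      refine Finset.sum_congr rfl fun x hx => ?_
      by_cases hxA : x ∈ A
      · rw [hz x hxA]; simp
      · rw [hF, mem_insert, mem_union] at hx
        have hx' : x ∈ insert v B := by rw [mem_insert]; tauto
        rw [hB x hx']
    rw [e1]
    split_ifs
    · exact Rl.sum_of_subset p F fun v hv => p.eq_zero_of_KF hv
    · exact Finset.sum_const_zero
  · intro K' θ hθ p hp
    have hz := mass_eq_zero hp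
    have hθr : ∀ s ∈ K, s ⊆ F → ∃ s' ∈ K', ∀ x ∈ s, θ (r x) ∈ s' := by
      intro s hs hsF
      obtain ⟨s', hs', h'⟩ := hr s hs hsF
      obtain ⟨s'', hs'', h''⟩ := hθ s' hs'.1
      exact ⟨s'', hs'', fun x hx => h'' _ (h' x hx)⟩
    have := congrArg (fun f => f p) (congrArg DFunLike.coe
      (jmap_comp K F (insert v A) K' r θ hr (fun s hs _ => hθ s hs) hθr hrF))
    simp only [ContinuousMap.comp_apply] at this
    rw [this]
    apply Rl.ext
    intro w
    classical
    rw [jmap_apply, jmap_apply]
    refine Finset.sum_congr rfl fun x hx => ?_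
    by_cases hxB : x ∈ B
    · rw [hz x hxB]; simp
    · rw [hF, mem_insert, mem_union] at hx
      have hx' : x ∈ insert v A := by rw [mem_insert]; tauto
      rw [hA x hx']

/-- scaling factor -/
noncomputable def cf (b : ℝ) : ℝ := max 0 (2 * b - 1) / max b (1/2)

theorem cf_continuous : Continuous cf := by
  unfold cf
  refine Continuous.div (by fun_prop) (by fun_prop) fun b => ?_
  have : (0:ℝ) < max b (1/2) := lt_of_lt_of_le (by norm_num) (le_max_right _ _)
  exact this.ne'

theorem cf_nonneg (b : ℝ) : 0 ≤ cf b := by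
  unfold cf
  have : (0:ℝ) < max b (1/2) := lt_of_lt_of_le (by norm_num) (le_max_right _ _)
  exact div_nonneg (le_max_left _ _) this.le

theorem cf_le_one {b : ℝ} (hb : b ≤ 1) : cf b ≤ 1 := by
  unfold cf
  have : (0:ℝ) < max b (1/2) := lt_of_lt_of_le (by norm_num) (le_max_right _ _)
  rw [div_le_one this]
  apply max_le
  · exact this.le
  · exact le_trans (by linarith) (le_max_left _ _)

theorem cf_one : cf 1 = 1 := by unfold cf; norm_num

theorem cf_small {b : ℝ} (hb : b ≤ 1/2) : cf b = 0 := by
  unfold cf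
  rw [max_eq_left (by linarith)]; simp

open Classical in
theorem exists_squeeze (K : Set (Finset V)) (F A B : Finset V) (v : V)
    (hF : F = insert v (A ∪ B)) (hvA : v ∉ A) (hvB : v ∉ B) (hAB : Disjoint A B)
    (hsplit : ∀ s ∈ K, s ⊆ F → s ⊆ insert v A ∨ s ⊆ insert v B) :
    ∃ E : C(Rl (KF K F), Rl (KF K F)), 
      (ContinuousMap.id _).Homotopic E ∧
      (∀ p, mass A (E p) = mass A p) ∧
      (∀ p, mass B (E p) = mass B p * cf (mass B p)) ∧
      (∀ p, mass B p = 0 → E p = p) := by
  have hab : ∀ p : Rl (KF K F), mass A p = 0 ∨ mass B p = 0 := by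
    intro p
    obtain ⟨s, hs, h0, _⟩ := p.2.2
    rcases hsplit s hs.1 hs.2 with h | h
    · right
      refine mass_eq_zero' fun w hw => h0 w fun hws => ?_
      have := h hws
      rw [mem_insert] at this
      rcases this with rfl | h'
      · exact hvB hw
      · exact Finset.disjoint_left.1 hAB h' hw
    · left
      refine mass_eq_zero' fun w hw => h0 w fun hws => ?_
      have := h hws
      rw [mem_insert] at this
      rcases this with rfl | h'
      · exact hvA hw
      · exact Finset.disjoint_left.1 hAB hw h'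
  have htot : ∀ p : Rl (KF K F), p.1 v + mass A p + mass B p = 1 := by
    intro p
    have := Rl.sum_of_subset p (insert v (A ∪ B)) fun v hv => p.eq_zero_of_KF (hF ▸ hv)
    rw [Finset.sum_insert (by rw [mem_union]; tauto), Finset.sum_union hAB] at this
    unfold mass; linarith
  set g : Rl (KF K F) → V → ℝ := fun p w => if w ∈ B then p.1 w * cf (mass B p) else
    if w = v then p.1 v + mass B p * (1 - cf (mass B p)) else p.1 w with hg
  have hB1 : ∀ p : Rl (KF K F), mass B p ≤ 1 := by
    intro p
    have h1 := htot p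
    have h2 := p.2.1 v
    have h3 := mass_nonneg A p
    linarith
  have hgB : ∀ p, ∑ w ∈ B, g p w = mass B p * cf (mass B p) := by
    intro p
    unfold mass
    rw [Finset.sum_mul]
    refine Finset.sum_congr rfl fun w hw => ?_
    simp only [hg, if_pos hw]; rfl
  have hgA : ∀ p, ∑ w ∈ A, g p w = mass A p := by
    intro p
    unfold mass
    refine Finset.sum_congr rfl fun w hw => ?_
    have h1 : w ∉ B := Finset.disjoint_left.1 hAB hw
    have h2 : w ≠ v := by rintro rfl; exact hvA hw
    simp only [hg, if_neg h1, if_neg h2]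
  have hsumF : ∀ p, ∑ w ∈ F, g p w = 1 := by
    intro p
    rw [hF, Finset.sum_insert (by rw [mem_union]; tauto), Finset.sum_union hAB, hgA, hgB]
    simp only [hg, if_neg hvB, if_true]
    have := htot p
    linarith
  have hsupp : ∀ (p : Rl (KF K F)) (s : Finset V), (∀ w, w ∉ s → p.1 w = 0) → 
      ∀ w, w ∉ s → g p w = 0 := by
    intro p s hs w hw
    simp only [hg]
    split_ifs with h1 h2
    · rw [hs w hw, zero_mul]
    · subst h2
      rw [hs w hw, zero_add]
      have h3 := htot p
      rw [hs w hw, zero_add] at h3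
      rcases hab p with h4 | h4
      · rw [h4, zero_add] at h3
        rw [h3, cf_one]; simp
      · rw [h4]; simp
    · exact hs w hw
  have hmem : ∀ p : Rl (KF K F), (∀ w, 0 ≤ g p w) ∧ ∃ s : Finset V, s ∈ KF K F ∧
      (∀ w, w ∉ s → g p w = 0) ∧ ∑ w ∈ s, g p w = 1 := by
    intro p
    constructor
    · intro w
      simp only [hg]
      split_ifs
      · exact mul_nonneg (p.2.1 w) (cf_nonneg _)
      · exact add_nonneg (p.2.1 v) (mul_nonneg (mass_nonneg _ _) 
          (by linarith [cf_le_one (hB1 p)]))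
      · exact p.2.1 w
    · obtain ⟨s, hs, h0, _⟩ := p.2.2
      refine ⟨s, hs, hsupp p s h0, ?_⟩
      rw [← hsumF p]
      exact Finset.sum_subset hs.2 fun w _ hw => hsupp p s h0 w hw
  let E : C(Rl (KF K F), Rl (KF K F)) := ⟨fun p => ⟨g p, hmem p⟩, by
    refine Rl.continuous_mk fun w => ?_
    show Continuous fun p => g p w
    have hm := mass_continuous (K := KF K F) B
    have hc := cf_continuous.comp hm
    simp only [hg]
    split_ifs
    · exact (Rl.continuous_coord w).mul hc
    · exact (Rl.continuous_coord v).add (hm.mul (continuous_const.sub hc))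
    · exact Rl.continuous_coord w⟩
  refine ⟨E, ?_, ?_, ?_, ?_⟩
  · refine ⟨lineHomotopy _ _ fun p => ?_⟩
    obtain ⟨s, hs, h0, _⟩ := p.2.2
    exact ⟨s, hs, h0, hsupp p s h0⟩
  · intro p; exact hgA p
  · intro p; exact hgB p
  · intro p hp
    apply Rl.ext
    intro w
    show g p w = p.1 w
    simp only [hg]
    split_ifs with h1 h2
    · rw [mass_eq_zero hp w h1, zero_mul]
    · rw [h2, hp]; simp
    · rfl

end Pool.Agent.Lib.MP_944cb0_gt
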