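import Pool.Agent.Lib.MP_944cb0_gt.Wedge2

/-!
Null-homotopies on wedges: the gluing step.
-/

set_option autoImplicit false

namespace Pool.Agent.Lib.MP_944cb0_gt

open scoped unitInterval
open Finset

variable {V V' : Type*}

open Classical in
/-- the vertex `v` as a point of the realisation of `KF K F` -/
noncomputable def vtx (K : Set (Finset V)) (F : Finset V) (v : V) (hv : {v} ∈ K) (hF : v ∈ F) :
    Rl (KF K F) :=
  ⟨fun w => if v = w then 1 else 0, fun w => by
      show (0:ℝ) ≤ if v = w then 1 else 0
      split_ifs <;> norm_num, {v},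
    ⟨hv, by simpa using hF⟩, fun w hw => by
      show (if v = w then (1:ℝ) else 0) = 0
      rw [if_neg]; rintro rfl; exact hw (mem_singleton_self _), by simp⟩

/-- a point of the unit interval -/
noncomputable def pI (x : ℝ) : I := Set.projIcc 0 1 zero_le_one x

theorem pI_continuous : Continuous pI := continuous_projIcc (h := zero_le_one)

theorem pI_zero : pI 0 = 0 := by
  apply Subtype.ext; simp [pI, Set.projIcc]

theorem pI_coe (t : I) : pI (t : ℝ) = t := Set.projIcc_val _ t

open Classical in
theorem step_wedge (K : Set (Finset V)) (K' : Set (Finset V')) (θ : V → V')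
    (hθ : ∀ s ∈ K, ∃ s' ∈ K', ∀ x ∈ s, θ x ∈ s') (F A B : Finset V) (v : V)
    (hF : F = insert v (A ∪ B)) (hvA : v ∉ A) (hvB : v ∉ B) (hAB : Disjoint A B)
    (hv : {v} ∈ K)
    (hsplit : ∀ s ∈ K, s ⊆ F → s ⊆ insert v A ∨ s ⊆ insert v B)
    (hA : (jmap K (insert v A) K' θ (fun s hs _ => hθ s hs)).Nullhomotopic)
    (hB : (jmap K (insert v B) K' θ (fun s hs _ => hθ s hs)).Nullhomotopic) :
    (jmap K F K' θ (fun s hs _ => hθ s hs)).Nullhomotopic := by
  obtain ⟨ρ1, h1a, h1b⟩ := exists_retr (V' := V') K F A B v hF hvB hAB hv hsplit
  obtain ⟨ρ2, h2a, h2b⟩ := exists_retr (V' := V') K F B A v (by rw [hF, union_comm]) hvA hAB.symm hv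
    (fun s hs hsF => (hsplit s hs hsF).symm)
  obtain ⟨E, hE, hEA, hEB, hEid⟩ := exists_squeeze K F A B v hF hvA hvB hAB hsplit
  have h1b := h1b K' θ hθ
  have h2b := h2b K' θ hθ
  set j := jmap K F K' θ (fun s hs _ => hθ s hs) with hj
  set j1 := jmap K (insert v A) K' θ (fun s hs _ => hθ s hs) with hj1
  set j2 := jmap K (insert v B) K' θ (fun s hs _ => hθ s hs) with hj2
  obtain ⟨c0, ⟨H'⟩⟩ := hA
  have hab : ∀ p : Rl (KF K F), mass A p = 0 ∨ mass B p = 0 := by
    intro p
    obtain ⟨s, hs, h0, _⟩ := p.2.2
    rcases hsplit s hs.1 hs.2 with h | h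
    · right
      refine mass_eq_zero' fun w hw => h0 w fun hws => ?_
      have := h hws
      rw [mem_insert] at this
      rcases this with rfl | h'
      · exact hvB hw
      · exact Finset.disjoint_left.1 hAB h' hw
    · left
      refine mass_eq_zero' fun w hw => h0 w fun hws => ?_
      have := h hws
      rw [mem_insert] at this
      rcases this with rfl | h'
      · exact hvA hw
      · exact Finset.disjoint_left.1 hAB hw h'
  set β1 : Rl (KF K (insert v A)) := vtx K (insert v A) v hv (mem_insert_self _ _) with hβ1
  set β2 : Rl (KF K (insert v B)) := vtx K (insert v B) v hv (mem_insert_self _ _) with hβ2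
  have R3 : ∀ p, mass A p = 0 → ρ1 p = β1 := fun p hp => Rl.ext fun w => h1a p hp w
  have R4 : ∀ p, mass B p = 0 → ρ2 p = β2 := fun p hp => Rl.ext fun w => h2a p hp w
  have hjβ : j1 β1 = j2 β2 := by
    have hvF : v ∈ F := by rw [hF]; exact mem_insert_self _ _
    have ha : mass A (vtx K F v hv hvF) = 0 := mass_eq_zero' fun w hw => by
      show (if v = w then (1:ℝ) else 0) = 0
      rw [if_neg]; rintro rfl; exact hvA hw
    have hb : mass B (vtx K F v hv hvF) = 0 := mass_eq_zero' fun w hw => by
      show (if v = w then (1:ℝ) else 0) = 0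
      rw [if_neg]; rintro rfl; exact hvB hw
    rw [← R3 _ ha, ← R4 _ hb, h1b _ hb, h2b _ ha]
  have R5 : ∀ p, mass B p ≤ 1/2 → mass A p = 0 → j (E p) = j1 β1 := by
    intro p hb ha
    have h1 : mass B (E p) = 0 := by rw [hEB, cf_small hb, mul_zero]
    have h2 : mass A (E p) = 0 := by rw [hEA, ha]
    rw [← h1b _ h1, R3 _ h2]
  -- the path
  have hcb : Continuous fun q : I × Rl (KF K F) => mass B q.2 :=
    (mass_continuous B).comp continuous_snd
  have hca : Continuous fun q : I × Rl (KF K F) => mass A q.2 :=
    (mass_continuous A).comp continuous_snd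
  have hct : Continuous fun q : I × Rl (KF K F) => (q.1 : ℝ) :=
    continuous_subtype_val.comp continuous_fst
  have hjE : Continuous fun q : I × Rl (KF K F) => j (E q.2) :=
    j.continuous.comp (E.continuous.comp continuous_snd)
  have hHc : ∀ f : I × Rl (KF K F) → I, Continuous f → Continuous fun q => H' (f q, β1) :=
    fun f hf => H'.continuous.comp (hf.prodMk continuous_const)
  have hg2c : Continuous fun q : I × Rl (KF K F) => if mass B q.2 ≤ 1/2 then
      H' (pI (q.1 * (1 - 2 * mass B q.2)), β1) else j (E q.2) := by
    refine Continuous.if_le (hHc _ (pI_continuous.comp (hct.mul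
      (continuous_const.sub (continuous_const.mul hcb))))) hjE hcb continuous_const fun q hq => ?_
    have ha : mass A q.2 = 0 := by
      rcases hab q.2 with h | h
      · exact h
      · rw [h] at hq; norm_num at hq
    rw [hq, R5 _ hq.le ha]
    have : (q.1 : ℝ) * (1 - 2 * (1/2)) = 0 := by ring
    rw [this, pI_zero]
    simp
  have hMc : Continuous fun p : Rl (KF K F) => if mass B p ≤ 1/2 then
      H' (pI (1 * (1 - 2 * mass B p)), β1) else j (E p) := by
    have := hg2c.comp (Continuous.prodMk (continuous_const (y := (1:I)))
      (continuous_id (X := Rl (KF K F))))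
    refine this.congr fun p => ?_
    show (if mass B p ≤ 1/2 then H' (pI (((1:I):ℝ) * (1 - 2 * mass B p)), β1) else j (E p)) = _
    simp
  let M : C(Rl (KF K F), Rl K') := ⟨fun p => if mass B p ≤ 1/2 then
      H' (pI (1 * (1 - 2 * mass B p)), β1) else j (E p), hMc⟩
  let Φ : (j.comp E).Homotopy M := 
    { toFun := fun q => if mass B q.2 ≤ mass A q.2 then H' (q.1, ρ1 q.2) else
        if mass B q.2 ≤ 1/2 then
      H' (pI (q.1 * (1 - 2 * mass B q.2)), β1) else j (E q.2)
      continuous_toFun := by
        refine Continuous.if_le (H'.continuous.comp (continuous_fst.prodMk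
          (ρ1.continuous.comp continuous_snd))) hg2c hcb hca fun q hq => ?_
        have hb : mass B q.2 = 0 := by
          rcases hab q.2 with h | h
          · rw [hq, h]
          · exact h
        have ha : mass A q.2 = 0 := by rw [← hq, hb]
        have e : (q.1 : ℝ) * (1 - 2 * mass B q.2) = q.1 := by rw [hb]; ring
        rw [if_pos (by rw [hb]; norm_num), R3 _ ha, e, pI_coe]
      map_zero_left := by
        intro p
        show (if mass B p ≤ mass A p then H' (0, ρ1 p) else
          if mass B p ≤ 1/2 then H' (pI (((0:I):ℝ) * (1 - 2 * mass B p)), β1) else j (E p)) = j (E p)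
        split_ifs with h h'
        · have hb : mass B p = 0 := by
            rcases hab p with h'' | h''
            · rw [h''] at h; exact le_antisymm h (mass_nonneg _ _)
            · exact h''
          rw [hEid p hb, ← h1b p hb]
          simp
        · have ha : mass A p = 0 := by
            rcases hab p with h'' | h''
            · exact h''
            · rw [h''] at h; exact absurd (mass_nonneg A p) h
          rw [R5 p h' ha]
          have : ((0:I) : ℝ) * (1 - 2 * mass B p) = 0 := by simp
          rw [this, pI_zero]; simp
        · rfl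
      map_one_left := by
        intro p
        show (if mass B p ≤ mass A p then H' (1, ρ1 p) else
          if mass B p ≤ 1/2 then H' (pI (((1:I):ℝ) * (1 - 2 * mass B p)), β1) else j (E p)) = 
          if mass B p ≤ 1/2 then H' (pI (1 * (1 - 2 * mass B p)), β1) else j (E p)
        split_ifs with h h' h' h'
        · have hb : mass B p = 0 := by
            rcases hab p with h'' | h''
            · rw [h''] at h; exact le_antisymm h (mass_nonneg _ _)
            · exact h''
          have e : (1:ℝ) * (1 - 2 * mass B p) = ((1:I):ℝ) := by rw [hb]; norm_num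
          rw [e, pI_coe]; simp
        · exfalso
          have hb : mass B p = 0 := by
            rcases hab p with h'' | h''
            · rw [h''] at h; exact le_antisymm h (mass_nonneg _ _)
            · exact h''
          rw [hb] at h'; norm_num at h'
        · rfl
        · rfl }
  let Ψ : M.Homotopy ((j2.comp ρ2).comp E) := 
    { toFun := fun q => if mass B q.2 ≤ 1/2 then
          H' (pI ((1 - q.1) * (1 - 2 * mass B q.2)), β1) else j (E q.2)
      continuous_toFun := by
        refine Continuous.if_le (hHc _ (pI_continuous.comp ((continuous_const.sub hct).mul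
          (continuous_const.sub (continuous_const.mul hcb))))) hjE hcb continuous_const
          fun q hq => ?_
        have ha : mass A q.2 = 0 := by
          rcases hab q.2 with h | h
          · exact h
          · rw [h] at hq; norm_num at hq
        rw [hq, R5 _ hq.le ha]
        have : (1 - (q.1 : ℝ)) * (1 - 2 * (1/2)) = 0 := by ring
        rw [this, pI_zero]
        simp
      map_zero_left := by
        intro p
        show (if mass B p ≤ 1/2 then H' (pI ((1 - ((0:I):ℝ)) * (1 - 2 * mass B p)), β1)
          else j (E p)) = if mass B p ≤ 1/2 then H' (pI (1 * (1 - 2 * mass B p)), β1) else j (E p)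
        simp
      map_one_left := by
        intro p
        show (if mass B p ≤ 1/2 then H' (pI ((1 - ((1:I):ℝ)) * (1 - 2 * mass B p)), β1)
          else j (E p)) = j2 (ρ2 (E p))
        split_ifs with h
        · have h1 : mass B (E p) = 0 := by rw [hEB, cf_small h, mul_zero]
          rw [R4 _ h1, ← hjβ]
          have : (1 - ((1:I):ℝ)) * (1 - 2 * mass B p) = 0 := by simp
          rw [this, pI_zero]; simp
        · have ha : mass A p = 0 := by
            rcases hab p with h'' | h''
            · exact h''
            · rw [h''] at h; norm_num at h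
          rw [h2b _ (by rw [hEA, ha])] }
  have k1 : j.Homotopic (j.comp E) := by
    have := (ContinuousMap.Homotopic.refl j).comp hE
    simpa using this
  obtain ⟨y, hy⟩ := ((hB.comp_left ρ2).comp_left E)
  exact ⟨y, (k1.trans ⟨Φ.trans Ψ⟩).trans hy⟩

end Pool.Agent.Lib.MP_944cb0_gt
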